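import Pool.Agent.Lib.P0036f5v2.Defs

/-!
# The cost over a fixed input alphabet, and for classes of languages
-/

set_option autoImplicit false

namespace Pool.Agent.P0036f5v4

open Pool.Agent.P0036f5v2

/-- The sizes `s` such that, for some 1-limited automaton `M` of size at most `n` over the input
alphabet `A`, `s` is the least size of a deterministic 1-limited automaton accepting the same
language as `M` (under the convention `cv`). -/
def costsOn (A : Type) (cv : Bool) (n : ℕ) : Set ℕ :=
  {s | ∃ M : LA A, M.toMach.size ≤ n ∧
    IsLeast {t | ∃ D : LA A, D.toMach.Det ∧ D.toMach.lang cv = M.toMach.lang cv ∧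
      D.toMach.size = t} s}

/-- The same over all finite input alphabets, for the machines whose language has the property
`P`. -/
def costsIn (P : (A : Type) → Language A → Prop) (cv : Bool) (n : ℕ) : Set ℕ :=
  {s | ∃ (A : Type) (_ : Finite A) (M : LA A), M.toMach.size ≤ n ∧ P A (M.toMach.lang cv) ∧
    IsLeast {t | ∃ D : LA A, D.toMach.Det ∧ D.toMach.lang cv = M.toMach.lang cv ∧
      D.toMach.size = t} s}

/-- `w₁* ⋯ wₖ*` for a list of words `w₁, …, wₖ` -/
def stars {A : Type} (u : List (List A)) : Language A :=
  (u.map fun v => KStar.kstar ({v} : Language A)).prod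

/-- `L ⊆ w₁* ⋯ wₖ*` for at most `k` words, of total length at most `l` -/
def Bdd (k l : ℕ) (A : Type) (L : Language A) : Prop :=
  ∃ u : List (List A), u.length ≤ k ∧ (u.map List.length).sum ≤ l ∧ L ≤ stars u

end Pool.Agent.P0036f5v4
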