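import Pool.Agent.Lib.P0036f5v4.PatUpper
import Pool.Agent.Lib.P0036f5v4.UDefs

/-!
# The upper bound for bounded languages
-/

set_option autoImplicit false

namespace Pool.Agent.P0036f5v4

open Classical Pool.Agent.P0036f5v2

section

variable {A : Type} [Inhabited A]

/-- the infinite word `v v v …` from position `o` on -/
def rot (v : List A) (o : ℕ) (j : ℕ) : A := v.getD ((o + j) % v.length) default

/-- the patterns of the words of `u` -/
def pats (u : List (List A)) : List (ℕ → A) :=
  u.flatMap fun v => (List.range v.length).map (rot v)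

theorem length_pats (u : List (List A)) : (pats u).length = (u.map List.length).sum := by
  induction u with
  | nil => rfl
  | cons v u ih =>
    simp only [pats, List.flatMap_cons, List.length_append, List.length_map, List.length_range,
      List.map_cons, List.sum_cons]
    rw [← ih]
    rfl

theorem mem_pats (u : List (List A)) (g : ℕ → A) :
    g ∈ pats u ↔ ∃ v ∈ u, ∃ o < v.length, rot v o = g := by
  simp [pats]

/-- the patterns as a family -/
def pf (u : List (List A)) (i : ℕ) : ℕ → A := (pats u).getD i (fun _ => default)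

theorem pf_mem (u : List (List A)) {i : ℕ} (hi : i < (pats u).length) : pf u i ∈ pats u := by
  unfold pf
  rw [List.getD_eq_getElem _ _ hi]
  exact List.getElem_mem hi

theorem exists_pf (u : List (List A)) {g : ℕ → A} (hg : g ∈ pats u) :
    ∃ i < (pats u).length, pf u i = g := by
  obtain ⟨i, hi, h⟩ := List.getElem_of_mem hg
  refine ⟨i, hi, ?_⟩
  unfold pf
  rw [List.getD_eq_getElem _ _ hi, h]

theorem shiftClosed_pf (u : List (List A)) : ShiftClosed (pf u) (pats u).length := by
  intro i hi s
  obtain ⟨v, hv, o, ho, h⟩ := (mem_pats u _).1 (pf_mem u hi)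
  obtain ⟨i', hi', h'⟩ := exists_pf u ((mem_pats u (rot v ((o + s) % v.length))).2
    ⟨v, hv, (o + s) % v.length, Nat.mod_lt _ (by omega), rfl⟩)
  refine ⟨i', hi', fun j => ?_⟩
  rw [h', ← h]
  unfold rot
  rw [Nat.mod_add_mod, Nat.add_assoc]

omit [Inhabited A] in
theorem pre_add (g : ℕ → A) (a b : ℕ) : pre g (a + b) = pre g a ++ pre (fun j => g (a + j)) b := by
  unfold pre
  rw [List.range_add, List.map_append, List.map_map]
  rfl

theorem pre_rot (v : List A) : pre (rot v 0) v.length = v := by
  apply List.ext_getElem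
  · rw [length_pre]
  · intro j h1 h2
    simp only [pre, List.getElem_map, List.getElem_range, rot, Nat.zero_add, Nat.mod_eq_of_lt h2]
    rw [List.getD_eq_getElem _ _ h2]

theorem flatten_eq_pre (v : List A) (S : List (List A)) (hS : ∀ y ∈ S, y = v) :
    S.flatten = pre (rot v 0) (v.length * S.length) := by
  induction S with
  | nil => simp [pre]
  | cons y S ih =>
    have hy : y = v := hS y List.mem_cons_self
    rw [List.flatten_cons, ih fun z hz => hS z (List.mem_cons_of_mem _ hz), List.length_cons, hy,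
      Nat.mul_add, Nat.mul_one, Nat.add_comm, pre_add, pre_rot]
    congr 2
    funext j
    unfold rot
    rw [Nat.zero_add, Nat.zero_add, Nat.add_mod_left]

theorem pieces_of_stars (f : ℕ → ℕ → A) (m : ℕ) (u : List (List A))
    (H : ∀ v ∈ u, v ≠ [] → ∃ i < m, f i = rot v 0) (w : List A) (hw : w ∈ stars u) :
    Pieces f m u.length w := by
  induction u generalizing w with
  | nil =>
    have : w = [] := by simpa [stars] using hw
    subst this
    exact ⟨[], by simp, by simp, by simp⟩
  | cons v u ih =>
    simp only [stars, List.map_cons, List.prod_cons] at hw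
    obtain ⟨a, ha, b, hb, rfl⟩ := Language.mem_mul.1 hw
    obtain ⟨S, rfl, hS⟩ := Language.mem_kstar.1 ha
    have hS' : ∀ y ∈ S, y = v := fun y hy => hS y hy
    obtain ⟨L, hL, hM, hb'⟩ := ih (fun v' hv' => H v' (List.mem_cons_of_mem _ hv')) b hb
    by_cases hv : v = []
    · have : S.flatten = [] := by
        rw [List.flatten_eq_nil_iff]
        intro y hy
        rw [hS' y hy, hv]
      rw [this, List.nil_append]
      exact ⟨L, hL.trans (by simp), hM, hb'⟩
    · obtain ⟨i, hi, hfi⟩ := H v List.mem_cons_self hv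
      refine ⟨(i, v.length * S.length) :: L, by simp; omega, ?_, ?_⟩
      · intro q hq
        rcases List.mem_cons.1 hq with rfl | hq
        · exact hi
        · exact hM q hq
      · simp only [List.map_cons, List.flatten_cons]
        rw [hfi, ← flatten_eq_pre v S hS', ← hb']

end

/-- **Upper bound for bounded languages.** -/
theorem bdd_upper {A : Type} [Finite A] (M : LA A) (cv : Bool) (n k l : ℕ)
    (hM : M.toMach.size ≤ n) (hl : 1 ≤ l) (u : List (List A)) (hu : u.length ≤ k)
    (hul : (u.map List.length).sum ≤ l) :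
    ∃ D : LA A, D.toMach.Det ∧ (∀ cv' w, w ∈ D.toMach.lang cv' → w ∈ M.toMach.lang cv) ∧
      (∀ cv' w, w ∈ stars u → w ∈ M.toMach.lang cv → w ∈ D.toMach.lang cv') ∧
      D.toMach.size ≤ l * 2 ^ ((2 * Nat.clog 2 k + 6) * n ^ 2) := by
  have fW := M.finW
  have fQ := M.finQ
  have hn : 1 ≤ n := by
    refine le_trans ?_ hM
    unfold Mach.size
    omega
  rcases isEmpty_or_nonempty A with hA | ⟨⟨a⟩⟩
  · -- no letters
    let P0 : Prog A :=
      ⟨fun _ => 0, false, fun _ => .ret false, fun _ => .ret (decide ([] ∈ M.toMach.lang cv))⟩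
    obtain ⟨L, hL, hLl, hLs⟩ := exists_la_of_prog P0
      1 0 0 (by norm_num) (fun _ _ => by simp [P0]) (fun _ _ => trivial) (fun _ _ => trivial)
      (fun _ _ => by simp [P0, DT.nd_ret]) (fun _ _ => by simp [P0, DT.nd_ret])
    have hlang : ∀ cv' w, w ∈ L.toMach.lang cv' ↔ w ∈ M.toMach.lang cv := by
      intro cv' w
      have hw : w = [] := by
        cases w with
        | nil => rfl
        | cons a _ => exact hA.elim a
      subst hw
      rw [hLl cv', Prog.mem_lang P0 cv' [] (fun _ => false) rfl (fun i hi => absurd hi (by simp))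
        trivial]
      simp [P0, DT.eval]
    refine ⟨L, hL, fun cv' w h => (hlang cv' w).1 h, fun cv' w _ h => (hlang cv' w).2 h,
      hLs.trans ?_⟩
    have h0 : Nat.card A = 0 := Nat.card_of_isEmpty
    rw [h0]
    have h1 : n = 1 ∨ 2 ≤ n := by omega
    -- the size of a machine is at least `4`
    have h4 : 4 ≤ n := by
      refine le_trans ?_ hM
      have h5 : 0 < Nat.card M.Q := Nat.card_pos_iff.2 ⟨⟨M.qI⟩, fQ⟩
      unfold Mach.size
      rw [card_sym A M.W]
      omega
    have h6 : 8 ≤ (2 * Nat.clog 2 k + 6) * n ^ 2 := by nlinarith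
    calc (2 * 1 + 2 * (1 * ((2 + 2 * 1 * 0) * (0 + 2))) + 1) * (15 * 0 + 17) + (4 * 0 + 4)
        ≤ 1 * 2 ^ 8 := by norm_num
      _ ≤ l * 2 ^ ((2 * Nat.clog 2 k + 6) * n ^ 2) :=
        Nat.mul_le_mul hl (Nat.pow_le_pow_right (by norm_num) h6)
  · have : Inhabited A := ⟨a⟩
    obtain ⟨D, hD, h1, h2, h3⟩ := pieces_upper M cv n (Nat.clog 2 k) hM (pf u) (pats u).length l
      (by rw [length_pats]; exact hul) hl (shiftClosed_pf u)
    refine ⟨D, hD, h1, fun cv' w hw hwM => h2 cv' w ?_ hwM, h3⟩
    refine (pieces_of_stars (pf u) (pats u).length u ?_ w hw).mono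
      (hu.trans (Nat.le_pow_clog (by norm_num) k))
    intro v hv hne
    exact exists_pf u ((mem_pats u _).2 ⟨v, hv, 0, List.length_pos_iff.2 hne, rfl⟩)

end Pool.Agent.P0036f5v4
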