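import Pool.Agent.Lib.P0036f5v2.Upper

/-!
# From a tree-driven program to a finite deterministic machine

MP_0036f5 (owner helper88).  The construction of `P0036f5v2.Upper`, for an arbitrary program: if the
phases stay below `R`, the trees look at distances at most `D` and have at most `T` distinct inner
subtrees, the machine of the program restricted to the states that can occur is a 1-limited automaton of
size polynomial in `R`, `D`, `T`.
-/

set_option autoImplicit false

namespace Pool.Agent.P0036f5v4

open Classical Pool.Agent.P0036f5v2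

namespace GenAux

variable {A : Type} (P : Prog A) (R D : ℕ)

/-- all trees that can occur -/
def trs : Set (DT (Option (A × Bool))) :=
  {.ret true, .ret false} ∪ ⋃ r ∈ Finset.range R, ((P.bit r).asks ∪ (P.acc r).asks)

theorem ret_mem (b : Bool) : DT.ret b ∈ trs P R := by
  cases b
  · exact Or.inl (Or.inr rfl)
  · exact Or.inl (Or.inl rfl)

theorem bit_mem (r : ℕ) (hr : r < R) : P.bit r ∈ trs P R := by
  rcases DT.self_mem_asks (P.bit r) with h | ⟨b, hb⟩
  · exact Or.inr (Set.mem_biUnion (Finset.mem_coe.2 (Finset.mem_range.2 hr)) (Or.inl h))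
  · rw [hb]; exact ret_mem P R b

theorem acc_mem (r : ℕ) (hr : r < R) : P.acc r ∈ trs P R := by
  rcases DT.self_mem_asks (P.acc r) with h | ⟨b, hb⟩
  · exact Or.inr (Set.mem_biUnion (Finset.mem_coe.2 (Finset.mem_range.2 hr)) (Or.inr h))
  · rw [hb]; exact ret_mem P R b

theorem child_mem {d : ℕ} {f : Option (A × Bool) → DT (Option (A × Bool))}
    (h : DT.ask d f ∈ trs P R) (x : Option (A × Bool)) : f x ∈ trs P R := by
  rcases h with h | h
  · rcases h with h | h <;> simp at h
  · obtain ⟨r, hr, h⟩ := Set.mem_iUnion₂.1 h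
    rcases h with h | h
    · rcases DT.asks_child h x with h' | ⟨b, hb⟩
      · exact Or.inr (Set.mem_biUnion hr (Or.inl h'))
      · rw [hb]; exact ret_mem P R b
    · rcases DT.asks_child h x with h' | ⟨b, hb⟩
      · exact Or.inr (Set.mem_biUnion hr (Or.inr h'))
      · rw [hb]; exact ret_mem P R b

theorem one_le_of_mem_asks {α : Type} {n : ℕ} {t : DT α} (ht : t.Within n) {d : ℕ}
    {k : α → DT α} (h : DT.ask d k ∈ t.asks) : 1 ≤ d := by
  induction t with
  | ret b => exact absurd h (Set.notMem_empty _)
  | ask d' k' ih =>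
    rcases h with h | h
    · have h1 : d = d' := by
        injection h
      rw [h1]
      exact ht.1
    · obtain ⟨a, ha⟩ := Set.mem_iUnion.1 h
      exact ih a (ht.2.2 a) ha

variable {P R D}

theorem dist_of_mem (hbW : ∀ r < R, (P.bit r).Within D) (haW : ∀ r < R, (P.acc r).Within D)
    {d : ℕ} {f : Option (A × Bool) → DT (Option (A × Bool))} (h : DT.ask d f ∈ trs P R) :
    1 ≤ d ∧ d ≤ D := by
  rcases h with h | h
  · rcases h with h | h <;> simp at h
  · obtain ⟨r, hr, h⟩ := Set.mem_iUnion₂.1 h
    have hr' : r < R := Finset.mem_range.1 (Finset.mem_coe.1 hr)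
    rcases h with h | h
    · exact ⟨one_le_of_mem_asks (hbW r hr') h, DT.le_of_mem_asks (hbW r hr') h⟩
    · exact ⟨one_le_of_mem_asks (haW r hr') h, DT.le_of_mem_asks (haW r hr') h⟩

variable (P R D)

theorem trs_finite [Finite A] : (trs P R).Finite := by
  refine Set.Finite.union (Set.toFinite _) ?_
  refine Set.Finite.biUnion (Finset.finite_toSet _) fun r _ => ?_
  exact (DT.asks_finite _).union (DT.asks_finite _)

theorem trs_ncard_le [Finite A] {T : ℕ} (hbT : ∀ r < R, (P.bit r).nd ≤ T)
    (haT : ∀ r < R, (P.acc r).nd ≤ T) : (trs P R).ncard ≤ 2 + 2 * R * T := by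
  unfold trs
  refine (Set.ncard_union_le _ _).trans (Nat.add_le_add ?_ ?_)
  · exact (Set.ncard_insert_le _ _).trans (by simp)
  · have key : ∀ s : Finset ℕ, (∀ r ∈ s, r < R) →
        (⋃ r ∈ s, ((P.bit r).asks ∪ (P.acc r).asks)).ncard ≤ s.card * (T + T) := by
      intro s
      induction s using Finset.induction_on with
      | empty => simp
      | insert a s ha ih =>
        intro hs
        rw [Finset.set_biUnion_insert, Finset.card_insert_of_notMem ha, Nat.add_mul, Nat.one_mul,
          Nat.add_comm]
        refine (Set.ncard_union_le _ _).trans (Nat.add_le_add ?_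
          (ih fun r hr => hs r (Finset.mem_insert_of_mem hr)))
        refine (Set.ncard_union_le _ _).trans (Nat.add_le_add ?_ ?_)
        · exact hbT a (hs a (Finset.mem_insert_self _ _))
        · exact haT a (hs a (Finset.mem_insert_self _ _))
    have h := key (Finset.range R) fun r hr => Finset.mem_range.1 hr
    rw [Finset.card_range] at h
    calc _ ≤ R * (T + T) := h
      _ = 2 * R * T := by ring

/-- the states that can occur -/
def sts : Set (PSt A) :=
  (fun p : ℕ × Bool => PSt.ready p.1 p.2) '' (Set.Iio R ×ˢ Set.univ) ∪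
    (fun p : Bool × ℕ × DT (Option (A × Bool)) × ℕ => PSt.eval p.1 p.2.1 p.2.2.1 p.2.2.2) ''
      (Set.univ ×ˢ Set.Iio R ×ˢ trs P R ×ˢ Set.Icc 1 (D + 2)) ∪ {.done}

theorem mem_ready {r : ℕ} {b : Bool} : PSt.ready r b ∈ sts P R D ↔ r < R := by
  unfold sts
  cases b <;> simp

theorem mem_eval {k : Bool} {r : ℕ} {t : DT (Option (A × Bool))} {h : ℕ} :
    PSt.eval k r t h ∈ sts P R D ↔ r < R ∧ t ∈ trs P R ∧ (1 ≤ h ∧ h ≤ D + 2) := by
  unfold sts
  simp

theorem mem_done : (PSt.done : PSt A) ∈ sts P R D := Or.inr rfl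

theorem sts_finite [Finite A] : (sts P R D).Finite := by
  unfold sts
  refine ((Set.Finite.image _ ?_).union (Set.Finite.image _ ?_)).union (Set.finite_singleton _)
  · exact (Set.finite_Iio _).prod Set.finite_univ
  · exact Set.finite_univ.prod ((Set.finite_Iio _).prod
      ((trs_finite P R).prod (Set.finite_Icc _ _)))

theorem sts_ncard_le [Finite A] :
    (sts P R D).ncard ≤ R * 2 + 2 * (R * ((trs P R).ncard * (D + 2))) + 1 := by
  unfold sts
  refine (Set.ncard_union_le _ _).trans (Nat.add_le_add ?_ (by simp))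
  refine (Set.ncard_union_le _ _).trans (Nat.add_le_add ?_ ?_)
  · refine (Set.ncard_image_le ((Set.finite_Iio _).prod Set.finite_univ)).trans ?_
    rw [Set.ncard_prod]
    simp [Set.ncard_eq_toFinset_card']
  · refine (Set.ncard_image_le (Set.finite_univ.prod ((Set.finite_Iio _).prod
      ((trs_finite P R).prod (Set.finite_Icc _ _))))).trans ?_
    rw [Set.ncard_prod, Set.ncard_prod, Set.ncard_prod]
    simp [Set.ncard_eq_toFinset_card' (Set.Iio _), Set.ncard_eq_toFinset_card' (Set.Icc _ _)]

theorem sts_closed (hn : ∀ r < R, P.nxt r < R) (hbW : ∀ r < R, (P.bit r).Within D)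
    (haW : ∀ r < R, (P.acc r).Within D) : ∀ q ∈ sts P R D, ∀ s,
    ∀ x ∈ P.mach.δ q s, x.1 ∈ sts P R D := by
  intro q hq s x hx
  have hx' : P.tr q s = some x := hx
  match q, s with
  | .ready r b, .inp a =>
    simp only [Prog.tr, Option.some.injEq] at hx'
    rw [mem_ready] at hq
    subst hx'
    exact (mem_eval P R D).2 ⟨hn r hq, bit_mem P R _ (hn r hq), by omega⟩
  | .ready r b, .rend =>
    simp only [Prog.tr, Option.some.injEq] at hx'
    rw [mem_ready] at hq
    subst hx'
    exact (mem_eval P R D).2 ⟨hq, acc_mem P R _ hq, by omega⟩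
  | .ready _ _, .wrk _ => simp [Prog.tr] at hx'
  | .ready _ _, .lend => simp [Prog.tr] at hx'
  | .eval k r (.ret b) h, s =>
    rw [mem_eval] at hq
    simp only [Prog.tr] at hx'
    split_ifs at hx' with h1 h2 h3
    · simp only [Option.some.injEq] at hx'
      subst hx'
      exact mem_done P R D
    · simp only [Option.some.injEq] at hx'
      subst hx'
      exact (mem_ready P R D).2 hq.1
    · simp only [Option.some.injEq] at hx'
      subst hx'
      exact (mem_eval P R D).2 ⟨hq.1, hq.2.1, by have := hq.2.2; omega⟩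
  | .eval k r (.ask d f) h, s =>
    rw [mem_eval] at hq
    have hd := dist_of_mem hbW haW hq.2.1
    simp only [Prog.tr] at hx'
    split_ifs at hx' with h1 h2
    · simp only [Option.some.injEq] at hx'
      subst hx'
      exact (mem_eval P R D).2 ⟨hq.1, hq.2.1, by omega⟩
    · simp only [Option.some.injEq] at hx'
      subst hx'
      exact (mem_eval P R D).2 ⟨hq.1, hq.2.1, by have := hq.2.2; omega⟩
    · cases s with
      | wrk y =>
        simp only [Option.some.injEq] at hx'
        subst hx'
        exact (mem_eval P R D).2 ⟨hq.1, child_mem P R hq.2.1 y, by omega⟩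
      | inp _ => simp at hx'
      | lend => simp at hx'
      | rend => simp at hx'
  | .done, s =>
    simp only [Prog.tr, Option.some.injEq] at hx'
    subst hx'
    exact mem_done P R D

end GenAux

open GenAux in
/-- A tree-driven program gives a deterministic 1-limited automaton. -/
theorem exists_la_of_prog {A : Type} [Finite A] (P : Prog A) (R D T : ℕ) (h0 : 0 < R)
    (hn : ∀ r < R, P.nxt r < R) (hbW : ∀ r < R, (P.bit r).Within D)
    (haW : ∀ r < R, (P.acc r).Within D) (hbT : ∀ r < R, (P.bit r).nd ≤ T)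
    (haT : ∀ r < R, (P.acc r).nd ≤ T) :
    ∃ L : LA A, L.toMach.Det ∧ (∀ cv, L.toMach.lang cv = P.mach.lang cv) ∧
      L.toMach.size ≤ (2 * R + 2 * (R * ((2 + 2 * R * T) * (D + 2))) + 1) *
        (15 * Nat.card A + 17) + (4 * Nat.card A + 4) := by
  have hI : P.mach.qI ∈ sts P R D := (mem_ready P R D).2 h0
  let M' : Mach A := P.mach.restrict (sts P R D) hI
  have fQ : Finite M'.Q := (sts_finite P R D).to_subtype
  have fW : Finite M'.W := inferInstanceAs (Finite (Option (A × Bool)))
  have hdet : M'.Det := Mach.restrict_det _ _ hI P.mach_det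
  refine ⟨⟨M', fQ, fW⟩, hdet, ?_, ?_⟩
  · intro cv
    show M'.lang cv = _
    exact Mach.restrict_lang _ cv _ hI (sts_closed P R D hn hbW haW)
  · show M'.size ≤ _
    refine (M'.size_le_of_det hdet).trans ?_
    have hW : Nat.card M'.W = Nat.card A * 2 + 1 := by
      show Nat.card (Option (A × Bool)) = _
      rw [Finite.card_option, Nat.card_prod]
      simp
    rw [card_sym A M'.W, hW]
    have hQ : Nat.card M'.Q = (sts P R D).ncard := rfl
    rw [hQ]
    have hK : (sts P R D).ncard ≤ 2 * R + 2 * (R * ((2 + 2 * R * T) * (D + 2))) + 1 := by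
      refine (sts_ncard_le P R D).trans ?_
      have h1 : (trs P R).ncard * (D + 2) ≤ (2 + 2 * R * T) * (D + 2) :=
        Nat.mul_le_mul_right _ (trs_ncard_le P R hbT haT)
      have h2 := Nat.mul_le_mul_left R h1
      omega
    set K := (sts P R D).ncard with hKd
    set a := Nat.card A with ha_def
    have h1 : 2 * K + a + (a + (a * 2 + 1) + 2) + 1 + 5 * (K * (a + (a * 2 + 1) + 2)) =
        K * (15 * a + 17) + (4 * a + 4) := by ring
    rw [h1]
    exact Nat.add_le_add_right (Nat.mul_le_mul_right _ hK) _

end Pool.Agent.P0036f5v4
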