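import Pool.Agent.Lib.P0036f5v2.Upper

/-!
# One-turn machines over a one-letter alphabet

A one-turn machine has frontier states `R` (they pass right over frozen cells), walker states `L`
(they walk left over frozen cells and may turn once), symbols `G` and choices `K`.
-/

set_option autoImplicit false

namespace Pool.Agent.P0036f5v4

open Relation Pool.Agent.P0036f5v2

/-- one-turn machines: `wr` = first visit of a cell, `mv` = a walker on a frozen cell or on the left
end-marker (`none`), `fin` = a frontier state on the right end-marker (`some none` accepts,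
`some (some l)` starts the walker `l`). -/
structure OT (R L G K : Type) where
  wr : R → K → Option (G × (R ⊕ L))
  mv : L → Option G → K → Option (L ⊕ R)
  fin : R → Option (Option L)
  r0 : R

/-- states of the machine of a one-turn machine -/
inductive OQ (R L : Type) : Type
  | fr (x : R)
  | wk (y : L)
  | done

namespace OT

variable {R L G K : Type} (O : OT R L G K)

/-- transitions for the choice `k` -/
def tr : OQ R L → Sym Unit G → K → Option (OQ R L × (Unit ⊕ G) × Bool)
  | .fr x, .inp _, k =>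
    match O.wr x k with
    | none => none
    | some (g, .inl x') => some (.fr x', .inr g, true)
    | some (g, .inr y) => some (.wk y, .inr g, false)
  | .fr x, .wrk g, _ => some (.fr x, .inr g, true)
  | .fr _, .lend, _ => none
  | .fr x, .rend, _ =>
    match O.fin x with
    | none => none
    | some none => some (.done, .inl (), true)
    | some (some y) => some (.wk y, .inl (), false)
  | .wk y, .wrk g, k =>
    match O.mv y (some g) k with
    | none => none
    | some (.inl y') => some (.wk y', .inr g, false)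
    | some (.inr x) => some (.fr x, .inr g, true)
  | .wk y, .lend, k =>
    match O.mv y none k with
    | none => none
    | some (.inl _) => none
    | some (.inr x) => some (.fr x, .inl (), true)
  | .wk _, .inp _, _ => none
  | .wk _, .rend, _ => none
  | .done, _, _ => none

/-- the machine -/
@[reducible] def mach : Mach Unit where
  Q := OQ R L
  W := G
  δ := fun q s => {t | ∃ k, O.tr q s k = some t}
  qI := .fr O.r0
  F := {.done}

/-- the frontier states in which the walker `y` can come back from the frozen tape `X`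
(the rightmost symbol first) -/
def Res : List G → L → Set R
  | [], y => {x | ∃ k, O.mv y none k = some (.inr x)}
  | g :: X, y => {x | (∃ k, O.mv y (some g) k = some (.inr x)) ∨
      ∃ k y', O.mv y (some g) k = some (.inl y') ∧ x ∈ Res X y'}

/-- frontier configurations after `n` cells -/
def Fr : ℕ → Set (List G × R)
  | 0 => {([], O.r0)}
  | n + 1 => {c | ∃ X x k g, (X, x) ∈ Fr n ∧ c.1 = g :: X ∧
      (O.wr x k = some (g, .inl c.2) ∨ ∃ y, O.wr x k = some (g, .inr y) ∧ c.2 ∈ O.Res X y)}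

/-- one visit of the left part from the right end-marker -/
def Vis (X : List G) (x x' : R) : Prop := ∃ y, O.fin x = some (some y) ∧ x' ∈ O.Res X y

/-- acceptance at the right end-marker -/
def Acc (X : List G) (x : R) : Prop :=
  ∃ x', ReflTransGen (O.Vis X) x x' ∧ O.fin x' = some none

variable (cv : Bool)

theorem rm_fr (g : G) (x : R) (q : OQ R L) [Nonempty K] :
    O.mach.RM cv (.wrk g) (.fr x) q ↔ q = .fr x := by
  constructor
  · rintro ⟨z, ⟨k, hk⟩, _⟩
    simp only [tr, Option.some.injEq, Prod.mk.injEq] at hk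
    exact hk.1.symm
  · rintro rfl
    exact ⟨.inr g, ⟨Classical.arbitrary K, rfl⟩, fun _ _ _ => rfl⟩

theorem not_lm_fr (g : G) (x : R) (q : OQ R L) : ¬ O.mach.LM cv (.wrk g) (.fr x) q := by
  rintro ⟨z, ⟨k, hk⟩, _⟩
  simp [tr] at hk

theorem rm_wk (g : G) (y : L) (q : OQ R L) :
    O.mach.RM cv (.wrk g) (.wk y) q ↔ ∃ k x, O.mv y (some g) k = some (.inr x) ∧ q = .fr x := by
  constructor
  · rintro ⟨z, ⟨k, hk⟩, _⟩
    simp only [tr] at hk
    split at hk
    · simp at hk
    · simp at hk
    · rename_i x hx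
      simp only [Option.some.injEq, Prod.mk.injEq] at hk
      exact ⟨k, x, hx, hk.1.symm⟩
  · rintro ⟨k, x, hx, rfl⟩
    exact ⟨.inr g, ⟨k, by simp only [tr]; rw [hx]⟩, fun _ _ _ => rfl⟩

theorem lm_wk (g : G) (y : L) (q : OQ R L) :
    O.mach.LM cv (.wrk g) (.wk y) q ↔ ∃ k y', O.mv y (some g) k = some (.inl y') ∧ q = .wk y' := by
  constructor
  · rintro ⟨z, ⟨k, hk⟩, _⟩
    simp only [tr] at hk
    split at hk
    · simp at hk
    · rename_i x hx
      simp only [Option.some.injEq, Prod.mk.injEq] at hk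
      exact ⟨k, x, hx, hk.1.symm⟩
    · simp at hk
  · rintro ⟨k, x, hx, rfl⟩
    exact ⟨.inr g, ⟨k, by simp only [tr]; rw [hx]⟩, fun _ _ _ => rfl⟩

/-- the frozen tape as a list of tape symbols -/
def tape (X : List G) : List (Sym Unit G) := X.reverse.map Sym.wrk

theorem tape_cons (g : G) (X : List G) : tape (g :: X) = tape X ++ [Sym.wrk g] := by
  simp [tape]

theorem table_fr [Nonempty K] (g : G) (X : List G) (x : R) (q : OQ R L) :
    (OQ.fr x, q) ∈ O.mach.table cv (tape (g :: X)) ↔ q = .fr x := by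
  rw [tape_cons, Mach.table_snoc]
  constructor
  · rintro ⟨r, hr, hq⟩
    simp only at hr hq
    rcases hr.cases_head with h | ⟨c, ⟨r', hc, _⟩, _⟩
    · subst h
      exact (O.rm_fr cv g x q).1 hq
    · exact absurd hc (O.not_lm_fr cv g x r')
  · rintro rfl
    exact ⟨.fr x, ReflTransGen.refl, (O.rm_fr cv g x _).2 rfl⟩

theorem table_wk [Nonempty K] : ∀ (X : List G) (y : L) (q : OQ R L),
    (OQ.wk y, q) ∈ O.mach.table cv (tape X) ↔ ∃ x ∈ O.Res X y, q = .fr x := by
  intro X
  induction X with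
  | nil =>
    intro y q
    show (∃ z, (q, z, true) ∈ O.mach.δ (.wk y) .lend ∧ _) ↔ _
    constructor
    · rintro ⟨z, ⟨k, hk⟩, _⟩
      simp only [tr] at hk
      split at hk
      · simp at hk
      · simp at hk
      · rename_i x hx
        simp only [Option.some.injEq, Prod.mk.injEq] at hk
        exact ⟨x, ⟨k, hx⟩, hk.1.symm⟩
    · rintro ⟨x, ⟨k, hx⟩, rfl⟩
      exact ⟨.inl (), ⟨k, by simp only [tr]; rw [hx]⟩, fun _ h _ => absurd rfl h⟩
  | cons g X ih =>
    intro y q
    rw [tape_cons, Mach.table_snoc]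
    constructor
    · rintro ⟨r, hr, hq⟩
      simp only at hr hq
      rcases hr.cases_head with h | ⟨c, ⟨r', hc, hc2⟩, hcr⟩
      · subst h
        obtain ⟨k, x, hx, rfl⟩ := (O.rm_wk cv g y q).1 hq
        exact ⟨x, Or.inl ⟨k, hx⟩, rfl⟩
      · obtain ⟨k, y', hy', rfl⟩ := (O.lm_wk cv g y r').1 hc
        obtain ⟨x, hx, rfl⟩ := (ih y' c).1 hc2
        rcases hcr.cases_head with h | ⟨c', ⟨r'', hc', _⟩, _⟩
        · subst h
          have := (O.rm_fr cv g x q).1 hq
          exact ⟨x, Or.inr ⟨k, y', hy', hx⟩, this⟩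
        · exact absurd hc' (O.not_lm_fr cv g x r'')
    · rintro ⟨x, hx, rfl⟩
      rcases hx with ⟨k, hx⟩ | ⟨k, y', hy', hx⟩
      · exact ⟨.wk y, ReflTransGen.refl, (O.rm_wk cv g y _).2 ⟨k, x, hx, rfl⟩⟩
      · refine ⟨.fr x, ReflTransGen.single ⟨.wk y', (O.lm_wk cv g y _).2 ⟨k, y', hy', rfl⟩,
          (ih y' _).2 ⟨x, hx, rfl⟩⟩, (O.rm_fr cv g x _).2 rfl⟩

theorem mem_evalFrom [Nonempty K] (n : ℕ) (s : Set (O.mach.Q × O.mach.Q) × O.mach.Q) :
    s ∈ (O.mach.toNFA cv).evalFrom (O.mach.toNFA cv).start (List.replicate n ()) ↔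
      ∃ X x, (X, x) ∈ O.Fr n ∧ s = (O.mach.table cv (tape X), .fr x) := by
  induction n generalizing s with
  | zero =>
    show s ∈ ({(O.mach.T0 cv, O.mach.qI)} : Set _) ↔ _
    constructor
    · intro h
      exact ⟨[], O.r0, rfl, h⟩
    · rintro ⟨X, x, h, rfl⟩
      have h' : (X, x) = ([], O.r0) := h
      simp only [Prod.mk.injEq] at h'
      obtain ⟨rfl, rfl⟩ := h'
      rfl
  | succ n ih =>
    rw [List.replicate_succ', NFA.evalFrom_append, NFA.evalFrom_singleton, NFA.mem_stepSet]
    constructor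
    · rintro ⟨s', hs', q₁, z, d, ⟨k, hk⟩, hT, hq⟩
      obtain ⟨X, x, hX, rfl⟩ := (ih s').1 hs'
      simp only [tr] at hk hT hq
      split at hk
      · simp at hk
      · rename_i g x' hx
        simp only [Option.some.injEq, Prod.mk.injEq] at hk
        obtain ⟨rfl, rfl, rfl⟩ := hk
        rcases hq with ⟨_, hq⟩ | ⟨hd, _⟩
        · refine ⟨g :: X, x', ⟨X, x, k, g, hX, rfl, Or.inl hx⟩, ?_⟩
          refine Prod.ext ?_ hq
          rw [hT, tape_cons, Mach.table_snoc]
          rfl
        · simp at hd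
      · rename_i g y hy
        simp only [Option.some.injEq, Prod.mk.injEq] at hk
        obtain ⟨rfl, rfl, rfl⟩ := hk
        rcases hq with ⟨hd, _⟩ | ⟨_, p, hp, hps⟩
        · simp at hd
        · obtain ⟨x', hx', rfl⟩ := (O.table_wk cv X y p).1 hp
          have hT' : s.1 = O.mach.table cv (tape (g :: X)) := by
            rw [hT, tape_cons, Mach.table_snoc]
            rfl
          rw [hT', O.table_fr cv] at hps
          exact ⟨g :: X, x', ⟨X, x, k, g, hX, rfl, Or.inr ⟨y, hy, hx'⟩⟩, Prod.ext hT' hps⟩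
    · rintro ⟨Y, x', ⟨X, x, k, g, hX, hY, h⟩, rfl⟩
      simp only at hY h
      subst hY
      have hT : O.mach.table cv (tape (g :: X)) =
          O.mach.upd cv (O.mach.table cv (tape X)) (Sym.ofW (.inr g)) := by
        rw [tape_cons, Mach.table_snoc]
        rfl
      refine ⟨(O.mach.table cv (tape X), .fr x), (ih _).2 ⟨X, x, hX, rfl⟩, ?_⟩
      rcases h with h | ⟨y, hy, hx'⟩
      · exact ⟨.fr x', .inr g, true, ⟨k, by simp only [tr]; rw [h]⟩, hT, Or.inl ⟨rfl, rfl⟩⟩
      · refine ⟨.wk y, .inr g, false, ⟨k, by simp only [tr]; rw [hy]⟩, hT, Or.inr ⟨rfl, .fr x',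
          (O.table_wk cv X y _).2 ⟨x', hx', rfl⟩, ?_⟩⟩
        exact (O.table_fr cv g X x' _).2 rfl

theorem lm_rend [Nonempty K] (x : R) (q : OQ R L) :
    O.mach.LM cv .rend (.fr x) q ↔ ∃ y, O.fin x = some (some y) ∧ q = .wk y := by
  constructor
  · rintro ⟨z, ⟨k, hk⟩, _⟩
    simp only [tr] at hk
    split at hk
    · simp at hk
    · simp at hk
    · rename_i y hy
      simp only [Option.some.injEq, Prod.mk.injEq] at hk
      exact ⟨y, hy, hk.1.symm⟩
  · rintro ⟨y, hy, rfl⟩
    exact ⟨.inl (), ⟨Classical.arbitrary K, by simp only [tr]; rw [hy]⟩, fun _ _ h => absurd rfl h⟩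

theorem rm_rend [Nonempty K] (x : R) (q : OQ R L) :
    O.mach.RM cv .rend (.fr x) q ↔ O.fin x = some none ∧ q = .done := by
  constructor
  · rintro ⟨z, ⟨k, hk⟩, _⟩
    simp only [tr] at hk
    split at hk
    · simp at hk
    · rename_i hx
      simp only [Option.some.injEq, Prod.mk.injEq] at hk
      exact ⟨hx, hk.1.symm⟩
    · simp at hk
  · rintro ⟨hx, rfl⟩
    exact ⟨.inl (), ⟨Classical.arbitrary K, by simp only [tr]; rw [hx]⟩, fun _ _ h => absurd rfl h⟩

theorem chain_rend [Nonempty K] (X : List G) (x : R) (q : OQ R L) :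
    ReflTransGen (O.mach.Exc cv (O.mach.table cv (tape X)) .rend) (.fr x) q ↔
      ∃ x', ReflTransGen (O.Vis X) x x' ∧ q = .fr x' := by
  constructor
  · intro h
    induction h with
    | refl => exact ⟨x, ReflTransGen.refl, rfl⟩
    | tail _ hbc ih =>
      obtain ⟨x', hx', rfl⟩ := ih
      obtain ⟨r, hr, hc⟩ := hbc
      obtain ⟨y, hy, rfl⟩ := (O.lm_rend cv x' r).1 hr
      obtain ⟨x'', hx'', rfl⟩ := (O.table_wk cv X y _).1 hc
      exact ⟨x'', hx'.tail ⟨y, hy, hx''⟩, rfl⟩
  · rintro ⟨x', h, rfl⟩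
    induction h with
    | refl => exact ReflTransGen.refl
    | tail _ hbc ih =>
      obtain ⟨y, hy, hc⟩ := hbc
      exact ih.tail ⟨.wk y, (O.lm_rend cv _ _).2 ⟨y, hy, rfl⟩, (O.table_wk cv X y _).2 ⟨_, hc, rfl⟩⟩

/-- **The language of a one-turn machine.** -/
theorem mem_lang [Nonempty K] (w : List Unit) :
    w ∈ O.mach.lang cv ↔ ∃ X x, (X, x) ∈ O.Fr w.length ∧ O.Acc X x := by
  have hw : w = List.replicate w.length () := List.eq_replicate_iff.2 ⟨rfl, fun _ _ => rfl⟩
  rw [← Mach.toNFA_accepts, NFA.mem_accepts]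
  constructor
  · rintro ⟨s, ⟨f, hf, r, hr, hrf⟩, hs⟩
    rw [hw, O.mem_evalFrom cv] at hs
    obtain ⟨X, x, hX, rfl⟩ := hs
    simp only at hr hrf
    obtain ⟨x', hx', rfl⟩ := (O.chain_rend cv X x r).1 hr
    exact ⟨X, x, hX, x', hx', ((O.rm_rend cv x' f).1 hrf).1⟩
  · rintro ⟨X, x, hX, x', hx', hfin⟩
    refine ⟨(O.mach.table cv (tape X), .fr x), ⟨.done, rfl, .fr x', ?_, ?_⟩, ?_⟩
    · exact (O.chain_rend cv X x _).2 ⟨x', hx', rfl⟩
    · exact (O.rm_rend cv x' _).2 ⟨hfin, rfl⟩
    · rw [hw, O.mem_evalFrom cv]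
      exact ⟨X, x, hX, rfl⟩

end OT

end Pool.Agent.P0036f5v4
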