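import Pool.Agent.Lib.P0036f5v4.PatTree

/-!
# Products of few pieces: the program
-/

set_option autoImplicit false

namespace Pool.Agent.P0036f5v4

open Classical Pool.Agent.P0036f5v2

section

variable {A : Type} (P : Prog A)

/-- the bits computed by a program, up to the letter `i` -/
def bits (w : List A) : ℕ → ℕ → Bool
  | 0 => fun _ => P.b0
  | i + 1 => Function.update (bits w i) (i + 1)
      ((P.bit (P.ph (i + 1))).eval (Prog.view w (bits w i) (i + 1)))

theorem bits_stable (w : List A) (i : ℕ) : ∀ j, j ≤ i → bits P w i j = bits P w j j := by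
  induction i with
  | zero => intro j hj; rw [show j = 0 by omega]
  | succ i ih =>
    intro j hj
    by_cases h : j = i + 1
    · rw [h]
    · rw [← ih j (by omega)]
      show Function.update (bits P w i) (i + 1) _ j = _
      rw [Function.update_of_ne h]

/-- every program computes some bits -/
theorem exists_bits_prog (w : List A) (hW : ∀ i, (P.bit (P.ph (i + 1))).Within (i + 1)) :
    ∃ β : ℕ → Bool, β 0 = P.b0 ∧
      ∀ i, (P.bit (P.ph (i + 1))).eval (Prog.view w β (i + 1)) = β (i + 1) := by
  refine ⟨fun i => bits P w i i, rfl, fun i => ?_⟩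
  have h1 : bits P w (i + 1) (i + 1) =
      (P.bit (P.ph (i + 1))).eval (Prog.view w (bits P w i) (i + 1)) := by
    show Function.update (bits P w i) (i + 1) _ (i + 1) = _
    rw [Function.update_self]
  show _ = bits P w (i + 1) (i + 1)
  rw [h1]
  refine eval_congr (hW i) fun d h1 h2 => ?_
  unfold Prog.view Prog.cellv
  rw [bits_stable P w i (i + 1 - d) (by omega)]

end

variable {A S : Type} (𝒩 : NFA A S) (N : ℕ) (st : ℕ → S) (f : ℕ → ℕ → A) (M : ℕ)

/-- from `st x` to some accepting state, along the last `r` letters -/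
noncomputable def accR (κ x r : ℕ) : DT (Option (A × Bool)) :=
  .orN (fun y => if st y ∈ 𝒩.accept then reachR 𝒩 N st f M κ (st x) (st y) r r else .ret false) N

/-- the block program for products of few pieces -/
noncomputable def rProg (κ : ℕ) : Prog A where
  nxt := fun r => if r + 1 < 2 * N then r + 1 else N
  b0 := decide (st 0 ∈ 𝒩.start)
  bit := fun r =>
    if r < N then .ret (decide (st r ∈ 𝒩.start))
    else .orN (fun x => (askbit (r - x)).and (reachR 𝒩 N st f M κ (st x) (st (r - N)) r N)) N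
  acc := fun r =>
    if r < N then
      .orN (fun x => if st x ∈ 𝒩.start then accR 𝒩 N st f M κ x r else .ret false) N
    else .orN (fun x => (askbit (r - x)).and (accR 𝒩 N st f M κ x r)) N

theorem ph_rProg (κ : ℕ) (hN : 0 < N) (i : ℕ) :
    (rProg 𝒩 N st f M κ).ph i = if i < N then i else N + i % N := by
  have h : ∀ i, (rProg 𝒩 N st f M κ).ph i = (blockProg 𝒩 N st κ).ph i := by
    intro i
    induction i with
    | zero => rfl
    | succ i ih => rw [Prog.ph, Prog.ph, ih]; rfl
  rw [h, ph_blockProg 𝒩 N st κ hN]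

theorem accR_sound (hst : ∀ s, ∃ x < N, st x = s) (κ : ℕ) (v : ℕ → Option (A × Bool))
    (x r : ℕ) (u : List A) (hR : Reads v r r u) (h : (accR 𝒩 N st f M κ x r).eval v = true) :
    ∃ t ∈ 𝒩.accept, t ∈ 𝒩.evalFrom {st x} u := by
  rw [accR, DT.eval_orN] at h
  obtain ⟨y, hy, h⟩ := h
  split_ifs at h with ha
  · exact ⟨st y, ha, reachR_sound 𝒩 N st f M hst v κ _ _ r r u hR h⟩
  · simp [DT.eval] at h

theorem accR_complete (hst : ∀ s, ∃ x < N, st x = s) (κ : ℕ) (v : ℕ → Option (A × Bool))
    (x r : ℕ) (u : List A) (hR : Reads v r r u) (hu : Pieces f M (2 ^ κ) u)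
    (h : ∃ t ∈ 𝒩.accept, t ∈ 𝒩.evalFrom {st x} u) : (accR 𝒩 N st f M κ x r).eval v = true := by
  rw [accR, DT.eval_orN]
  obtain ⟨t, ht, h⟩ := h
  obtain ⟨y, hy, rfl⟩ := hst t
  refine ⟨y, hy, ?_⟩
  rw [if_pos ht]
  exact reachR_complete 𝒩 N st f M hst v κ _ _ r r u hR hu h

theorem within_accR (κ x r : ℕ) : (accR 𝒩 N st f M κ x r).Within r := by
  refine DT.within_orN _ _ fun y _ => ?_
  split_ifs
  · exact within_reachR 𝒩 N st f M κ _ _ r r le_rfl
  · trivial

theorem within_rbit (κ r : ℕ) : ((rProg 𝒩 N st f M κ).bit r).Within r := by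
  simp only [rProg]
  split_ifs with h
  · trivial
  · refine DT.within_orN _ _ fun x hx => DT.within_and (within_askbit (by omega) (by omega)) ?_
    exact within_reachR 𝒩 N st f M κ _ _ _ _ (by omega)

theorem within_racc (κ r : ℕ) : ((rProg 𝒩 N st f M κ).acc r).Within r := by
  simp only [rProg]
  split_ifs with h
  · refine DT.within_orN _ _ fun x _ => ?_
    split_ifs
    · exact within_accR 𝒩 N st f M κ x _
    · trivial
  · refine DT.within_orN _ _ fun x hx => DT.within_and (within_askbit (by omega) (by omega)) ?_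
    exact within_accR 𝒩 N st f M κ x _

theorem within_ph (κ : ℕ) (hN : 0 < N) (i : ℕ) : (rProg 𝒩 N st f M κ).ph i ≤ i := by
  rw [ph_rProg 𝒩 N st f M κ hN]
  split_ifs with h
  · exact le_rfl
  · exact (block_arith N hN i (by omega)).1

/-- the reachable states before the block of the letter `i` -/
theorem mem_bitOf (w : List A) (i : ℕ) : bitOf 𝒩 N st w i = true ↔
    st (i % N) ∈ 𝒩.evalFrom 𝒩.start (w.take (N * (i / N))) := by
  rw [bitOf, decide_eq_true_eq]

/-- the distance at which the bit of state `x` is found -/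
theorem view_index (hN : 0 < N) (i x : ℕ) (hNi : N ≤ i) (hx : x < N) :
    i - (N + i % N - x) = x + N * (i / N - 1) ∧ (x + N * (i / N - 1)) % N = x ∧
      (x + N * (i / N - 1)) / N = i / N - 1 := by
  obtain ⟨a1, a2, a3⟩ := block_arith N hN i hNi
  refine ⟨by omega, ?_, ?_⟩
  · rw [Nat.add_mul_mod_self_left, Nat.mod_eq_of_lt hx]
  · rw [Nat.add_mul_div_left _ _ hN, Nat.div_eq_of_lt hx, Nat.zero_add]

/-- **Soundness.** The bits of any run of the program are below the true bits, and the program
accepts only words accepted by the automaton. -/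
theorem rProg_sound (cv : Bool) (hN : 0 < N) (hst : ∀ s, ∃ x < N, st x = s) (κ : ℕ)
    (w : List A) (hw : w ∈ (rProg 𝒩 N st f M κ).mach.lang cv) : w ∈ 𝒩.accepts := by
  obtain ⟨β, hβ0, hβ⟩ := exists_bits_prog (rProg 𝒩 N st f M κ) w fun i =>
    (within_rbit 𝒩 N st f M κ _).mono (within_ph 𝒩 N st f M κ hN (i + 1))
  -- the bits are sound
  have hsound : ∀ i, i ≤ w.length → β i = true → bitOf 𝒩 N st w i = true := by
    intro i
    induction i using Nat.strong_induction_on with
    | _ i ih =>
      intro hi h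
      rcases i with _ | i
      · rw [hβ0] at h
        simp only [rProg, decide_eq_true_eq] at h
        rw [mem_bitOf]
        simpa using h
      · rw [← hβ i, ph_rProg 𝒩 N st f M κ hN] at h
        by_cases hlt : i + 1 < N
        · rw [if_pos hlt] at h
          simp only [rProg] at h
          rw [if_pos hlt, DT.eval, decide_eq_true_eq] at h
          rw [mem_bitOf, Nat.mod_eq_of_lt hlt, Nat.div_eq_of_lt hlt]
          simpa using h
        · rw [if_neg hlt] at h
          push Not at hlt
          have hm := Nat.mod_lt (i + 1) hN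
          obtain ⟨a1, a2, a3⟩ := block_arith N hN (i + 1) hlt
          simp only [rProg] at h
          rw [if_neg (by omega), DT.eval_orN] at h
          obtain ⟨x, hx, h⟩ := h
          rw [DT.eval_and, Bool.and_eq_true, eval_askbit_view _ _ _ _ (by omega)] at h
          obtain ⟨b1, b2, b3⟩ := view_index N hN (i + 1) x hlt hx
          rw [b1] at h
          have h1 := ih (x + N * ((i + 1) / N - 1)) (by omega) (by omega) h.1
          rw [mem_bitOf, b2, b3] at h1
          have hR := reads_view w β (i + 1) (N + (i + 1) % N) N hi a1 (by omega)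
          rw [a2] at hR
          have h2 := reachR_sound 𝒩 N st f M hst _ κ _ _ _ _ _ hR h.2
          rw [show N + (i + 1) % N - N = (i + 1) % N by omega] at h2
          rw [mem_bitOf, ← a3, List.take_add, NFA.evalFrom_append]
          exact NFA.mem_evalFrom_iff_exists.2 ⟨st x, h1, h2⟩
  rw [Prog.mem_lang _ cv w β hβ0 (fun i _ =>
    ⟨(within_rbit 𝒩 N st f M κ _).mono (within_ph 𝒩 N st f M κ hN (i + 1)), hβ i⟩)
    ((within_racc 𝒩 N st f M κ _).mono (within_ph 𝒩 N st f M κ hN _)), ph_rProg 𝒩 N st f M κ hN] at hw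
  rw [NFA.mem_accepts]
  by_cases hlt : w.length < N
  · rw [if_pos hlt] at hw
    simp only [rProg] at hw
    rw [if_pos hlt, DT.eval_orN] at hw
    obtain ⟨x, hx, h⟩ := hw
    have hR : Reads (Prog.view w β w.length) w.length w.length w := by
      have := reads_view w β w.length w.length w.length le_rfl le_rfl le_rfl
      simpa using this
    split_ifs at h with hs
    · obtain ⟨t, ht, h'⟩ := accR_sound 𝒩 N st f M hst κ _ x _ w hR h
      exact ⟨t, ht, NFA.mem_evalFrom_iff_exists.2 ⟨st x, hs, h'⟩⟩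
    · simp [DT.eval] at h
  · rw [if_neg hlt] at hw
    push Not at hlt
    have hm := Nat.mod_lt w.length hN
    obtain ⟨a1, a2, a3⟩ := block_arith N hN w.length hlt
    simp only [rProg] at hw
    rw [if_neg (by omega), DT.eval_orN] at hw
    obtain ⟨x, hx, h⟩ := hw
    rw [DT.eval_and, Bool.and_eq_true, eval_askbit_view _ _ _ _ (by omega)] at h
    obtain ⟨b1, b2, b3⟩ := view_index N hN w.length x hlt hx
    rw [b1] at h
    have h1 := hsound (x + N * (w.length / N - 1)) (by omega) h.1
    rw [mem_bitOf, b2, b3] at h1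
    have hR : Reads (Prog.view w β w.length) (N + w.length % N) (N + w.length % N)
        (w.drop (N * (w.length / N - 1))) := by
      have := reads_view w β w.length (N + w.length % N) (N + w.length % N) le_rfl a1 le_rfl
      rw [a2] at this
      rwa [List.take_of_length_le (by simp; omega)] at this
    obtain ⟨t, ht, h'⟩ := accR_sound 𝒩 N st f M hst κ _ x _ _ hR h.2
    refine ⟨t, ht, ?_⟩
    rw [← List.take_append_drop (N * (w.length / N - 1)) w, NFA.evalFrom_append]
    exact NFA.mem_evalFrom_iff_exists.2 ⟨st x, h1, h'⟩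

/-- **Completeness** for products of at most `2 ^ κ` pieces. -/
theorem rProg_complete (hf : ShiftClosed f M) (cv : Bool) (hN : 0 < N) (hst : ∀ s, ∃ x < N, st x = s) (κ : ℕ)
    (w : List A) (hr : Pieces f M (2 ^ κ) w) (hw : w ∈ 𝒩.accepts) :
    w ∈ (rProg 𝒩 N st f M κ).mach.lang cv := by
  -- reachable states at block starts
  have hblock : ∀ (i x : ℕ), i ≤ w.length → N ≤ i → x < N →
      (askbit (N + i % N - x)).eval (Prog.view w (bitOf 𝒩 N st w) i) =
        decide (st x ∈ 𝒩.evalFrom 𝒩.start (w.take (N * (i / N - 1)))) := by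
    intro i x hi hNi hx
    obtain ⟨a1, a2, a3⟩ := block_arith N hN i hNi
    obtain ⟨b1, b2, b3⟩ := view_index N hN i x hNi hx
    rw [eval_askbit_view _ _ _ _ (by omega), b1, bitOf, b2, b3]
  rw [Prog.mem_lang _ cv w (bitOf 𝒩 N st w)]
  · -- acceptance
    rw [ph_rProg 𝒩 N st f M κ hN]
    rw [NFA.mem_accepts] at hw
    obtain ⟨t, ht, h⟩ := hw
    by_cases hlt : w.length < N
    · rw [if_pos hlt]
      simp only [rProg]
      rw [if_pos hlt, DT.eval_orN]
      have hR : Reads (Prog.view w (bitOf 𝒩 N st w) w.length) w.length w.length w := by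
        have := reads_view w (bitOf 𝒩 N st w) w.length w.length w.length le_rfl le_rfl le_rfl
        simpa using this
      obtain ⟨s, hs, h'⟩ := NFA.mem_evalFrom_iff_exists.1 h
      obtain ⟨x, hx, rfl⟩ := hst s
      refine ⟨x, hx, ?_⟩
      rw [if_pos hs]
      exact accR_complete 𝒩 N st f M hst κ _ x _ w hR hr ⟨t, ht, h'⟩
    · rw [if_neg hlt]
      push Not at hlt
      have hm := Nat.mod_lt w.length hN
      obtain ⟨a1, a2, a3⟩ := block_arith N hN w.length hlt
      simp only [rProg]
      rw [if_neg (by omega), DT.eval_orN]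
      have hR : Reads (Prog.view w (bitOf 𝒩 N st w) w.length) (N + w.length % N)
          (N + w.length % N) (w.drop (N * (w.length / N - 1))) := by
        have := reads_view w (bitOf 𝒩 N st w) w.length (N + w.length % N) (N + w.length % N)
          le_rfl a1 le_rfl
        rw [a2] at this
        rwa [List.take_of_length_le (by simp; omega)] at this
      rw [← List.take_append_drop (N * (w.length / N - 1)) w, NFA.evalFrom_append] at h
      obtain ⟨s, hs, h'⟩ := NFA.mem_evalFrom_iff_exists.1 h
      obtain ⟨x, hx, rfl⟩ := hst s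
      refine ⟨x, hx, ?_⟩
      rw [DT.eval_and, Bool.and_eq_true, hblock _ _ le_rfl hlt hx, decide_eq_true_eq]
      exact ⟨hs, accR_complete 𝒩 N st f M hst κ _ x _ _ hR (hr.drop hf _) ⟨t, ht, h'⟩⟩
  · -- the initial bit
    simp [bitOf, rProg]
  · -- the bits
    intro i hi
    refine ⟨(within_rbit 𝒩 N st f M κ _).mono (within_ph 𝒩 N st f M κ hN (i + 1)), ?_⟩
    rw [ph_rProg 𝒩 N st f M κ hN]
    by_cases hlt : i + 1 < N
    · rw [if_pos hlt]
      simp only [rProg]
      rw [if_pos hlt]
      rw [bitOf, Nat.mod_eq_of_lt hlt, Nat.div_eq_of_lt hlt]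
      simp [DT.eval]
    · rw [if_neg hlt]
      push Not at hlt
      have hm := Nat.mod_lt (i + 1) hN
      obtain ⟨a1, a2, a3⟩ := block_arith N hN (i + 1) hlt
      simp only [rProg]
      rw [if_neg (by omega), Bool.eq_iff_iff, DT.eval_orN, mem_bitOf]
      have hR := reads_view w (bitOf 𝒩 N st w) (i + 1) (N + (i + 1) % N) N hi a1 (by omega)
      rw [a2] at hR
      have hru : Pieces f M (2 ^ κ) ((w.drop (N * ((i + 1) / N - 1))).take N) := (hr.drop hf _).take _
      have hsplit : 𝒩.evalFrom 𝒩.start (w.take (N * ((i + 1) / N))) =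
          𝒩.evalFrom (𝒩.evalFrom 𝒩.start (w.take (N * ((i + 1) / N - 1))))
            ((w.drop (N * ((i + 1) / N - 1))).take N) := by
        rw [← NFA.evalFrom_append, ← a3, List.take_add]
      have hsub : N + (i + 1) % N - N = (i + 1) % N := by omega
      rw [hsplit, hsub]
      constructor
      · rintro ⟨x, hx, h⟩
        rw [DT.eval_and, Bool.and_eq_true, hblock _ _ hi hlt hx, decide_eq_true_eq] at h
        exact NFA.mem_evalFrom_iff_exists.2
          ⟨st x, h.1, reachR_sound 𝒩 N st f M hst _ κ _ _ _ _ _ hR h.2⟩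
      · intro h
        obtain ⟨s, hs, h'⟩ := NFA.mem_evalFrom_iff_exists.1 h
        obtain ⟨x, hx, rfl⟩ := hst s
        refine ⟨x, hx, ?_⟩
        rw [DT.eval_and, Bool.and_eq_true, hblock _ _ hi hlt hx, decide_eq_true_eq]
        exact ⟨hs, reachR_complete 𝒩 N st f M hst _ κ _ _ _ _ _ hR hru h'⟩
  · -- the acceptance tree looks only at visited cells
    exact (within_racc 𝒩 N st f M κ _).mono (within_ph 𝒩 N st f M κ hN _)

/-! ### Cost -/

theorem nd_rbit_le [Finite A] (hN : 0 < N) (κ r : ℕ) :
    ((rProg 𝒩 N st f M κ).bit r).nd ≤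
      N * (1 + (8 * N ^ 2) ^ κ * (M * (2 * N))) := by
  simp only [rProg]
  split_ifs with h
  · rw [DT.nd_ret]; exact Nat.zero_le _
  · refine DT.nd_orN_le _ N _ fun x _ => (DT.nd_and_le _ _).trans ?_
    exact Nat.add_le_add (nd_askbit_le _) (nd_reachR_le 𝒩 N st f M hN κ _ _ _ _ (by omega))

theorem nd_accR_le [Finite A] (hN : 0 < N) (κ x r : ℕ) (hr : r ≤ 2 * N) :
    (accR 𝒩 N st f M κ x r).nd ≤
      N * ((8 * N ^ 2) ^ κ * (M * (2 * N))) := by
  refine DT.nd_orN_le _ N _ fun y _ => ?_
  split_ifs
  · exact nd_reachR_le 𝒩 N st f M hN κ _ _ _ _ hr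
  · rw [DT.nd_ret]; exact Nat.zero_le _

theorem nd_racc_le [Finite A] (hN : 0 < N) (κ r : ℕ) (hr : r ≤ 2 * N) :
    ((rProg 𝒩 N st f M κ).acc r).nd ≤
      N * (1 + N * ((8 * N ^ 2) ^ κ * (M * (2 * N)))) := by
  simp only [rProg]
  split_ifs with h
  · refine DT.nd_orN_le _ N _ fun x _ => ?_
    split_ifs
    · exact (nd_accR_le 𝒩 N st f M hN κ x r hr).trans (Nat.le_add_left _ _)
    · rw [DT.nd_ret]; exact Nat.zero_le _
  · refine DT.nd_orN_le _ N _ fun x _ => (DT.nd_and_le _ _).trans ?_
    exact Nat.add_le_add (nd_askbit_le _) (nd_accR_le 𝒩 N st f M hN κ x r hr)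

end Pool.Agent.P0036f5v4
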