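import Pool.Agent.Lib.P0036f5v4.Gen

/-!
# Products of few pieces: decision trees

`f i` (`i < M`) are infinite words, the patterns; a piece is a prefix of a pattern.  `reachR κ`
decides reachability along a factor that is a product of at most `2 ^ κ` pieces: it guesses midpoints
and splitting positions, and at the leaves checks that a factor is a prefix of some pattern.
-/

set_option autoImplicit false

namespace Pool.Agent.P0036f5v4

open Classical Pool.Agent.P0036f5v2

/-- the prefix of length `k` of the infinite word `g` -/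
def pre {A : Type} (g : ℕ → A) (k : ℕ) : List A := (List.range k).map g

/-- `w` is a product of at most `r` prefixes of the patterns `f i`, `i < M` -/
def Pieces {A : Type} (f : ℕ → ℕ → A) (M : ℕ) (r : ℕ) (w : List A) : Prop :=
  ∃ L : List (ℕ × ℕ), L.length ≤ r ∧ (∀ p ∈ L, p.1 < M) ∧
    w = (L.map fun p => pre (f p.1) p.2).flatten

/-- the patterns are closed under shifts -/
def ShiftClosed {A : Type} (f : ℕ → ℕ → A) (M : ℕ) : Prop :=
  ∀ i < M, ∀ s, ∃ i' < M, ∀ j, f i' j = f i (s + j)

section

variable {A : Type} {f : ℕ → ℕ → A} {M : ℕ}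

theorem length_pre (g : ℕ → A) (k : ℕ) : (pre g k).length = k := by simp [pre]

theorem take_pre (g : ℕ → A) (k i : ℕ) : (pre g k).take i = pre g (min i k) := by
  unfold pre
  rw [← List.map_take, List.take_range]

theorem drop_pre (g g' : ℕ → A) (k i : ℕ) (h : ∀ j, g' j = g (i + j)) :
    (pre g k).drop i = pre g' (k - i) := by
  apply List.ext_getElem
  · simp [pre]
  · intro n h1 h2
    simp only [pre, List.getElem_drop, List.getElem_map, List.getElem_range, h]

theorem Pieces.take {r : ℕ} {w : List A} (h : Pieces f M r w) (i : ℕ) :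
    Pieces f M r (w.take i) := by
  obtain ⟨L, hL, hM, rfl⟩ := h
  induction L generalizing r i with
  | nil => exact ⟨[], by simp, by simp, by simp⟩
  | cons p L ih =>
    simp only [List.length_cons] at hL
    obtain ⟨r, rfl⟩ : ∃ r', r = r' + 1 := ⟨r - 1, by omega⟩
    simp only [List.map_cons, List.flatten_cons]
    rw [List.take_append, length_pre, take_pre]
    obtain ⟨L', hL', hM', h⟩ := ih (r := r) (i - p.2) (by omega)
      (fun q hq => hM q (List.mem_cons_of_mem _ hq))
    refine ⟨(p.1, min i p.2) :: L', by simp; omega, ?_, by rw [h]; simp⟩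
    intro q hq
    rcases List.mem_cons.1 hq with rfl | hq
    · exact hM p List.mem_cons_self
    · exact hM' q hq

theorem Pieces.drop (hf : ShiftClosed f M) {r : ℕ} {w : List A} (h : Pieces f M r w) (i : ℕ) :
    Pieces f M r (w.drop i) := by
  obtain ⟨L, hL, hM, rfl⟩ := h
  induction L generalizing r i with
  | nil => exact ⟨[], by simp, by simp, by simp⟩
  | cons p L ih =>
    simp only [List.length_cons] at hL
    obtain ⟨r, rfl⟩ : ∃ r', r = r' + 1 := ⟨r - 1, by omega⟩
    simp only [List.map_cons, List.flatten_cons]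
    obtain ⟨i', hi', hsh⟩ := hf p.1 (hM p List.mem_cons_self) i
    rw [List.drop_append, length_pre, drop_pre (f p.1) (f i') p.2 i hsh]
    obtain ⟨L', hL', hM', h⟩ := ih (r := r) (i - p.2) (by omega)
      (fun q hq => hM q (List.mem_cons_of_mem _ hq))
    refine ⟨(i', p.2 - i) :: L', by simp; omega, ?_, by rw [h]; simp⟩
    intro q hq
    rcases List.mem_cons.1 hq with rfl | hq
    · exact hi'
    · exact hM' q hq

theorem Pieces.mono {r r' : ℕ} {w : List A} (h : Pieces f M r w) (hr : r ≤ r') :
    Pieces f M r' w := by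
  obtain ⟨L, hL, h⟩ := h
  exact ⟨L, hL.trans hr, h⟩

theorem Pieces.split {r₁ r₂ : ℕ} {w : List A} (h : Pieces f M (r₁ + r₂) w) :
    ∃ l ≤ w.length, Pieces f M r₁ (w.take l) ∧ Pieces f M r₂ (w.drop l) := by
  obtain ⟨L, hL, hM, rfl⟩ := h
  have hs : (L.map fun p => pre (f p.1) p.2).flatten =
      ((L.take r₁).map fun p => pre (f p.1) p.2).flatten ++
        ((L.drop r₁).map fun p => pre (f p.1) p.2).flatten := by
    rw [← List.flatten_append, ← List.map_append, List.take_append_drop]
  refine ⟨(((L.take r₁).map fun p => pre (f p.1) p.2).flatten).length, ?_, ?_, ?_⟩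
  · rw [hs, List.length_append]; omega
  · rw [hs, List.take_left]
    exact ⟨L.take r₁, by simp, fun p hp => hM p (List.mem_of_mem_take hp), rfl⟩
  · rw [hs, List.drop_left]
    exact ⟨L.drop r₁, by simp; omega, fun p hp => hM p (List.mem_of_mem_drop hp), rfl⟩

theorem Pieces.one {w : List A} (h : Pieces f M 1 w) (hw : w ≠ []) :
    ∃ i < M, w = pre (f i) w.length := by
  obtain ⟨L, hL, hM, rfl⟩ := h
  match L, hL with
  | [], _ => simp at hw
  | [p], _ => exact ⟨p.1, hM p List.mem_cons_self, by simp [length_pre]⟩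

end

/-! ### Trees -/

section

variable {α : Type}

/-- conjunction over `x < n` -/
def andN (f : ℕ → DT α) : ℕ → DT α
  | 0 => .ret true
  | n + 1 => (f n).and (andN f n)

theorem eval_andN (v : ℕ → α) (f : ℕ → DT α) (n : ℕ) :
    (andN f n).eval v = true ↔ ∀ x < n, (f x).eval v = true := by
  induction n with
  | zero => simp [andN, DT.eval]
  | succ n ih =>
    rw [andN, DT.eval_and, Bool.and_eq_true, ih]
    constructor
    · rintro ⟨h1, h2⟩ x hx
      by_cases hxn : x = n
      · rw [hxn]; exact h1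
      · exact h2 x (by omega)
    · intro h
      exact ⟨h n (by omega), fun x hx => h x (by omega)⟩

theorem nd_andN_le [Finite α] (f : ℕ → DT α) (n c : ℕ) (h : ∀ x < n, (f x).nd ≤ c) :
    (andN f n).nd ≤ n * c := by
  induction n with
  | zero => simp [andN, DT.nd_ret]
  | succ n ih =>
    rw [andN]
    refine (DT.nd_and_le _ _).trans ?_
    have h1 := h n (by omega)
    have h2 := ih fun x hx => h x (by omega)
    rw [Nat.succ_mul]
    omega

theorem within_andN {m : ℕ} (f : ℕ → DT α) (n : ℕ) (h : ∀ x < n, (f x).Within m) :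
    (andN f n).Within m := by
  induction n with
  | zero => trivial
  | succ n ih => exact DT.within_and (h n (by omega)) (ih fun x hx => h x (by omega))

theorem nd_ask_le [Finite α] (d : ℕ) (k : α → DT α) (c : ℕ) (h : ∀ a, (k a).nd ≤ c) :
    (DT.ask d k).nd ≤ 1 + Nat.card α * c := by
  unfold DT.nd
  rw [DT.asks]
  refine (Set.ncard_insert_le _ _).trans ?_
  rw [Nat.add_comm]
  refine Nat.add_le_add_left ?_ 1
  have := Fintype.ofFinite α
  refine (Set.ncard_iUnion_le_of_fintype _).trans ?_
  rw [Nat.card_eq_fintype_card, ← smul_eq_mul, ← Finset.card_univ]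
  exact Finset.sum_le_card_nsmul _ _ _ fun a _ => h a

theorem nd_ask_ret_le [Finite α] (d : ℕ) (g : α → Bool) :
    (DT.ask d fun a => DT.ret (g a)).nd ≤ 1 := by
  have := nd_ask_le (α := α) d (fun a => DT.ret (g a)) 0 (fun a => by rw [DT.nd_ret])
  simpa using this

theorem eval_congr {n : ℕ} {t : DT α} (ht : t.Within n) {v v' : ℕ → α}
    (h : ∀ d, 1 ≤ d → d ≤ n → v d = v' d) : t.eval v = t.eval v' := by
  induction t with
  | ret b => rfl
  | ask d k ih =>
    rw [DT.eval, DT.eval, h d ht.1 ht.2.1]
    exact ih _ (ht.2.2 _)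

end

variable {A S : Type} (𝒩 : NFA A S) (N : ℕ) (st : ℕ → S) (f : ℕ → ℕ → A) (M : ℕ)

/-- the letters at the distances `D, D - 1, …, D - L + 1` form a prefix of `g` -/
noncomputable def sameT (g : ℕ → A) (D L : ℕ) : DT (Option (A × Bool)) :=
  andN (fun j => .ask (D - j) fun x => .ret (decide (∃ b, x = some (g j, b)))) L

/-- is `t` reachable from `s` along the `L` letters at the distances `D, …`, and do these form a
prefix of some pattern? -/
noncomputable def leafT (s t : S) (D L : ℕ) : DT (Option (A × Bool)) :=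
  if L = 0 then .ret (decide (s = t))
  else .orN (fun i => (sameT (f i) D L).and
    (.ret (decide (t ∈ 𝒩.evalFrom {s} (pre (f i) L))))) M

/-- is `t` reachable from `s` along the `L` letters at the distances `D, …`?  (Always sound,
complete for products of at most `2 ^ κ` pieces.) -/
noncomputable def reachR : ℕ → S → S → ℕ → ℕ → DT (Option (A × Bool))
  | 0, s, t, D, L => leafT 𝒩 f M s t D L
  | κ + 1, s, t, D, L =>
      .orN (fun u => .orN (fun l => (reachR κ s (st u) D l).and
        (reachR κ (st u) t (D - l) (L - l))) (L + 1)) N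

theorem eval_sameT (v : ℕ → Option (A × Bool)) (g : ℕ → A) (D L : ℕ) :
    (sameT g D L).eval v = true ↔ ∀ j < L, ∃ b, v (D - j) = some (g j, b) := by
  unfold sameT
  rw [eval_andN]
  simp only [DT.eval, decide_eq_true_eq]

theorem leafT_sound (v : ℕ → Option (A × Bool)) (s t : S) (D L : ℕ) (u : List A)
    (hR : Reads v D L u) (h : (leafT 𝒩 f M s t D L).eval v = true) : t ∈ 𝒩.evalFrom {s} u := by
  unfold leafT at h
  split_ifs at h with h0
  · subst h0
    have : u = [] := List.length_eq_zero_iff.1 hR.1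
    subst this
    simp only [DT.eval, decide_eq_true_eq] at h
    simp [h]
  · rw [DT.eval_orN] at h
    obtain ⟨i, hi, h⟩ := h
    simp only [DT.eval_and, Bool.and_eq_true, eval_sameT, DT.eval, decide_eq_true_eq] at h
    have hu : u = pre (f i) L := by
      apply List.ext_getElem
      · rw [length_pre, hR.1]
      · intro j h1 h2
        obtain ⟨b', hb'⟩ := h.1 j (by rw [← hR.1]; exact h1)
        obtain ⟨b'', hb''⟩ := hR.2 j h1
        rw [hb''] at hb'
        simp only [Option.some.injEq, Prod.mk.injEq] at hb'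
        simp only [pre, List.getElem_map, List.getElem_range]
        exact hb'.1
    rw [hu]
    exact h.2

theorem leafT_complete (v : ℕ → Option (A × Bool)) (s t : S) (D L : ℕ) (u : List A)
    (hR : Reads v D L u) (hu : Pieces f M 1 u) (h : t ∈ 𝒩.evalFrom {s} u) :
    (leafT 𝒩 f M s t D L).eval v = true := by
  unfold leafT
  split_ifs with h0
  · subst h0
    have : u = [] := List.length_eq_zero_iff.1 hR.1
    subst this
    simp only [DT.eval, decide_eq_true_eq]
    simpa [eq_comm] using h
  · have hne : u ≠ [] := by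
      rintro rfl
      exact h0 hR.1.symm
    obtain ⟨i, hi, ha⟩ := hu.one hne
    rw [hR.1] at ha
    rw [DT.eval_orN]
    refine ⟨i, hi, ?_⟩
    simp only [DT.eval_and, Bool.and_eq_true, eval_sameT, DT.eval, decide_eq_true_eq]
    refine ⟨fun j hj => ?_, ?_⟩
    · obtain ⟨b, hb⟩ := hR.2 j (by rw [hR.1]; exact hj)
      refine ⟨b, ?_⟩
      rw [hb]
      congr 2
      simp only [ha, pre, List.getElem_map, List.getElem_range]
    · rw [← ha]
      exact h

theorem reachR_sound (hst : ∀ s, ∃ x < N, st x = s) (v : ℕ → Option (A × Bool)) :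
    ∀ (κ : ℕ) (s t : S) (D L : ℕ) (u : List A), Reads v D L u →
      (reachR 𝒩 N st f M κ s t D L).eval v = true → t ∈ 𝒩.evalFrom {s} u := by
  intro κ
  induction κ with
  | zero =>
    intro s t D L u hR h
    exact leafT_sound 𝒩 f M v s t D L u hR h
  | succ κ ih =>
    intro s t D L u hR h
    rw [reachR, DT.eval_orN] at h
    obtain ⟨x, hx, h⟩ := h
    rw [DT.eval_orN] at h
    obtain ⟨l, hl, h⟩ := h
    rw [DT.eval_and, Bool.and_eq_true] at h
    have h1 := ih s (st x) D l (u.take l) (hR.take l (by omega)) h.1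
    have h2 := ih (st x) t _ _ (u.drop l) (hR.drop l) h.2
    rw [← List.take_append_drop l u, NFA.evalFrom_append]
    exact NFA.mem_evalFrom_iff_exists.2 ⟨st x, h1, h2⟩

theorem reachR_complete (hst : ∀ s, ∃ x < N, st x = s) (v : ℕ → Option (A × Bool)) :
    ∀ (κ : ℕ) (s t : S) (D L : ℕ) (u : List A), Reads v D L u → Pieces f M (2 ^ κ) u →
      t ∈ 𝒩.evalFrom {s} u → (reachR 𝒩 N st f M κ s t D L).eval v = true := by
  intro κ
  induction κ with
  | zero =>
    intro s t D L u hR hu h
    exact leafT_complete 𝒩 f M v s t D L u hR hu h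
  | succ κ ih =>
    intro s t D L u hR hu h
    rw [reachR, DT.eval_orN]
    have hu' : Pieces f M (2 ^ κ + 2 ^ κ) u := by
      have : 2 ^ (κ + 1) = 2 ^ κ + 2 ^ κ := by ring
      rwa [this] at hu
    obtain ⟨l, hl, h1, h2⟩ := hu'.split
    rw [hR.1] at hl
    rw [← List.take_append_drop l u, NFA.evalFrom_append] at h
    obtain ⟨q, hq1, hq2⟩ := NFA.mem_evalFrom_iff_exists.1 h
    obtain ⟨x, hx, rfl⟩ := hst q
    refine ⟨x, hx, ?_⟩
    rw [DT.eval_orN]
    refine ⟨l, by omega, ?_⟩
    rw [DT.eval_and, Bool.and_eq_true]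
    exact ⟨ih _ _ _ _ _ (hR.take l hl) h1 hq1, ih _ _ _ _ _ (hR.drop l) h2 hq2⟩

theorem within_leafT (s t : S) (D L : ℕ) (hL : L ≤ D) : (leafT 𝒩 f M s t D L).Within D := by
  unfold leafT
  split_ifs with h0
  · trivial
  · refine DT.within_orN _ _ fun i _ => DT.within_and (within_andN _ _ fun j hj => ?_) trivial
    exact ⟨by omega, by omega, fun _ => trivial⟩

theorem within_reachR : ∀ (κ : ℕ) (s t : S) (D L : ℕ), L ≤ D →
    (reachR 𝒩 N st f M κ s t D L).Within D := by
  intro κ
  induction κ with
  | zero =>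
    intro s t D L hL
    exact within_leafT 𝒩 f M s t D L hL
  | succ κ ih =>
    intro s t D L hL
    rw [reachR]
    refine DT.within_orN _ _ fun x _ => DT.within_orN _ _ fun l hl => DT.within_and ?_ ?_
    · exact ih _ _ _ _ (by omega)
    · exact (ih _ _ _ _ (by omega)).mono (Nat.sub_le _ _)

theorem nd_leafT_le [Finite A] (s t : S) (D L : ℕ) :
    (leafT 𝒩 f M s t D L).nd ≤ M * L := by
  unfold leafT
  split_ifs with h0
  · rw [DT.nd_ret]; exact Nat.zero_le _
  · refine DT.nd_orN_le _ M L fun i _ => ?_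
    refine (DT.nd_and_le _ _).trans ?_
    rw [DT.nd_ret, Nat.add_zero]
    refine (nd_andN_le _ L 1 fun j _ => nd_ask_ret_le _ _).trans ?_
    omega

theorem nd_reachR_le [Finite A] (hN : 0 < N) : ∀ (κ : ℕ) (s t : S) (D L : ℕ), L ≤ 2 * N →
    (reachR 𝒩 N st f M κ s t D L).nd ≤ (8 * N ^ 2) ^ κ * (M * (2 * N)) := by
  intro κ
  induction κ with
  | zero =>
    intro s t D L hL
    rw [pow_zero, one_mul]
    exact (nd_leafT_le 𝒩 f M s t D L).trans (Nat.mul_le_mul_left _ hL)
  | succ κ ih =>
    intro s t D L hL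
    rw [reachR]
    set B := (8 * N ^ 2) ^ κ * (M * (2 * N)) with hB
    refine (DT.nd_orN_le _ N ((L + 1) * (2 * B)) fun x _ => ?_).trans ?_
    · refine DT.nd_orN_le _ (L + 1) (2 * B) fun l hl => ?_
      refine (DT.nd_and_le _ _).trans ?_
      have h1 := ih s (st x) D l (by omega)
      have h2 := ih (st x) t (D - l) (L - l) (by omega)
      omega
    · have h1 : N * ((L + 1) * (2 * B)) ≤ N * ((2 * N + 1) * (2 * B)) :=
        Nat.mul_le_mul_left _ (Nat.mul_le_mul_right _ (by omega))
      refine h1.trans ?_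
      have h2 : (8 * N ^ 2) ^ (κ + 1) * (M * (2 * N)) = 8 * N ^ 2 * B := by rw [hB]; ring
      rw [h2]
      have h3 : N * ((2 * N + 1) * (2 * B)) = (4 * N ^ 2 + 2 * N) * B := by ring
      rw [h3]
      refine Nat.mul_le_mul_right _ ?_
      nlinarith

end Pool.Agent.P0036f5v4
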