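import Pool.Agent.Lib.P0036f5v4.PatProg

/-!
# Products of few pieces: the upper bound
-/

set_option autoImplicit false

namespace Pool.Agent.P0036f5v4

open Classical Pool.Agent.P0036f5v2

/-- the size of the machine of the program -/
theorem size_arith (N a κ n k M : ℕ) (hN0 : 0 < N) (hM : 1 ≤ M) (hN : N ≤ 2 ^ (k ^ 2 + k))
    (hk : 1 ≤ k) (hn : k + 2 * a + 3 ≤ n) (T : ℕ)
    (hT : T = N * (1 + N * ((8 * N ^ 2) ^ κ * (M * (2 * N))))) :
    (2 * (2 * N) + 2 * (2 * N * ((2 + 2 * (2 * N) * T) * (2 * N + 2))) + 1) * (15 * a + 17) +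
      (4 * a + 4) ≤ M * 2 ^ ((2 * κ + 6) * n ^ 2) := by
  have hT1 : 1 ≤ T := by
    rw [hT]
    exact Nat.mul_pos hN0 (by omega)
  set X := N ^ 3 * T * (a + 1) with hX
  have hX1 : 1 ≤ N ^ 3 * T := Nat.mul_pos (by positivity) hT1
  -- first step: the total is at most `2 ^ 12 X`
  have h1 : (2 * (2 * N) + 2 * (2 * N * ((2 + 2 * (2 * N) * T) * (2 * N + 2))) + 1) ≤
      101 * (N ^ 3 * T) := by
    have e1 : N ≤ N ^ 3 := Nat.le_self_pow (by norm_num) N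
    have e2 : N ^ 3 ≤ N ^ 3 * T := Nat.le_mul_of_pos_right _ hT1
    have e3 : N ^ 2 ≤ N ^ 3 := Nat.pow_le_pow_right hN0 (by norm_num)
    have e4 : N ^ 2 * T ≤ N ^ 3 * T := Nat.mul_le_mul_right _ e3
    have e5 : (2 * (2 * N) + 2 * (2 * N * ((2 + 2 * (2 * N) * T) * (2 * N + 2))) + 1) =
        32 * (N ^ 3 * T) + 32 * (N ^ 2 * T) + 16 * N ^ 2 + 20 * N + 1 := by ring
    rw [e5]
    omega
  have h2 : (2 * (2 * N) + 2 * (2 * N * ((2 + 2 * (2 * N) * T) * (2 * N + 2))) + 1) *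
      (15 * a + 17) + (4 * a + 4) ≤ 2 ^ 12 * X := by
    have e1 : (2 * (2 * N) + 2 * (2 * N * ((2 + 2 * (2 * N) * T) * (2 * N + 2))) + 1) *
        (15 * a + 17) ≤ 101 * (N ^ 3 * T) * (17 * (a + 1)) := Nat.mul_le_mul h1 (by omega)
    have e2 : 101 * (N ^ 3 * T) * (17 * (a + 1)) = 1717 * X := by rw [hX]; ring
    have e3 : a + 1 ≤ X := by
      rw [hX]
      exact Nat.le_mul_of_pos_left _ hX1
    have e4 : (2 : ℕ) ^ 12 * X = 1717 * X + 4 * X + 2375 * X := by ring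
    rw [e4]
    refine le_trans ?_ (Nat.le_add_right _ _)
    exact Nat.add_le_add (e1.trans e2.le) (by clear_value X; omega)
  refine h2.trans ?_
  -- second step: `X ≤ 4 N ^ 6 (a + 1) (8 N ^ 2) ^ κ M`
  set B := (8 * N ^ 2) ^ κ with hB
  have hB1 : 0 < B := by rw [hB]; positivity
  have h4 : T ≤ 4 * (N ^ 3 * B * M) := by
    have e2 : 0 < N * (B * (M * (2 * N))) := by positivity
    have e3 : T ≤ N * (2 * (N * (B * (M * (2 * N))))) := by
      rw [hT]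
      exact Nat.mul_le_mul_left _ (by omega)
    refine e3.trans (le_of_eq ?_)
    ring
  have h5 : 2 ^ 12 * X ≤ 2 ^ 14 * (N ^ 6 * (a + 1) * B) * M := by
    have e1 : X ≤ N ^ 3 * (4 * (N ^ 3 * B * M)) * (a + 1) := by
      rw [hX]
      exact Nat.mul_le_mul_right _ (Nat.mul_le_mul_left _ h4)
    refine (Nat.mul_le_mul_left _ e1).trans (le_of_eq ?_)
    ring
  refine h5.trans ?_
  rw [Nat.mul_comm M]
  refine Nat.mul_le_mul_right _ ?_
  -- third step: powers of two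
  have h6 : N ^ 6 ≤ 2 ^ (6 * (k ^ 2 + k)) := by
    calc N ^ 6 ≤ (2 ^ (k ^ 2 + k)) ^ 6 := Nat.pow_le_pow_left hN 6
      _ = 2 ^ (6 * (k ^ 2 + k)) := by rw [← pow_mul, Nat.mul_comm]
  have h7 : a + 1 ≤ 2 ^ a := Nat.lt_two_pow_self
  have h8 : B ≤ 2 ^ (κ * (2 * (k ^ 2 + k) + 3)) := by
    have e1 : 8 * N ^ 2 ≤ 2 ^ (2 * (k ^ 2 + k) + 3) := by
      calc 8 * N ^ 2 ≤ 8 * (2 ^ (k ^ 2 + k)) ^ 2 := Nat.mul_le_mul_left _ (Nat.pow_le_pow_left hN 2)
        _ = 2 ^ (2 * (k ^ 2 + k) + 3) := by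
          rw [← pow_mul, pow_add, Nat.mul_comm (k ^ 2 + k) 2]; ring
    calc B ≤ (2 ^ (2 * (k ^ 2 + k) + 3)) ^ κ := Nat.pow_le_pow_left e1 κ
      _ = 2 ^ (κ * (2 * (k ^ 2 + k) + 3)) := by rw [← pow_mul, Nat.mul_comm]
  have h9 : N ^ 6 * (a + 1) * B ≤
      2 ^ (6 * (k ^ 2 + k)) * 2 ^ a * 2 ^ (κ * (2 * (k ^ 2 + k) + 3)) :=
    Nat.mul_le_mul (Nat.mul_le_mul h6 h7) h8
  refine (Nat.mul_le_mul_left _ h9).trans ?_
  rw [← pow_add, ← pow_add, ← pow_add]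
  refine Nat.pow_le_pow_right (by norm_num) ?_
  have h10 : 2 * (k ^ 2 + k) + 3 ≤ 2 * n ^ 2 := by nlinarith
  have h11 : κ * (2 * (k ^ 2 + k) + 3) ≤ κ * (2 * n ^ 2) := Nat.mul_le_mul_left _ h10
  have h12 : 14 + (6 * (k ^ 2 + k) + a) ≤ 6 * n ^ 2 := by nlinarith
  have h13 : (2 * κ + 6) * n ^ 2 = 6 * n ^ 2 + κ * (2 * n ^ 2) := by ring
  omega

/-- **Upper bound on products of at most `2 ^ κ` pieces.** -/
theorem pieces_upper {A : Type} [Finite A] (M : LA A) (cv : Bool) (n κ : ℕ)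
    (hM : M.toMach.size ≤ n) (f : ℕ → ℕ → A) (m l : ℕ) (hml : m ≤ l) (hl : 1 ≤ l)
    (hf : ShiftClosed f m) :
    ∃ D : LA A, D.toMach.Det ∧ (∀ cv' w, w ∈ D.toMach.lang cv' → w ∈ M.toMach.lang cv) ∧
      (∀ cv' w, Pieces f m (2 ^ κ) w → w ∈ M.toMach.lang cv → w ∈ D.toMach.lang cv') ∧
      D.toMach.size ≤ l * 2 ^ ((2 * κ + 6) * n ^ 2) := by
  have fQ := M.finQ
  have fW := M.finW
  have hsize : Nat.card M.Q + Nat.card A + Nat.card (Sym A M.W) + 1 ≤ n := by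
    refine le_trans ?_ hM
    unfold Mach.size
    omega
  rw [card_sym A M.W] at hsize
  set k := Nat.card M.Q with hk
  have hk1 : 0 < k := Nat.card_pos_iff.2 ⟨⟨M.qI⟩, fQ⟩
  -- the states of the table automaton
  have fS : Finite (Set (M.Q × M.Q) × M.Q) := inferInstance
  have hcard : Nat.card (Set (M.Q × M.Q) × M.Q) = 2 ^ (k * k) * k := by
    have := Fintype.ofFinite (M.Q × M.Q)
    rw [Nat.card_prod, Nat.card_eq_fintype_card (α := Set (M.Q × M.Q)), Fintype.card_set,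
      ← Nat.card_eq_fintype_card (α := M.Q × M.Q), Nat.card_prod]
  set N := Nat.card (Set (M.Q × M.Q) × M.Q) with hN
  have hN0 : 0 < N := by rw [hcard]; positivity
  let e : (Set (M.Q × M.Q) × M.Q) ≃ Fin N := Finite.equivFin _
  let st : ℕ → Set (M.Q × M.Q) × M.Q := fun x => if h : x < N then e.symm ⟨x, h⟩ else (∅, M.qI)
  have hst : ∀ s, ∃ x < N, st x = s := by
    intro s
    refine ⟨(e s).1, (e s).2, ?_⟩
    simp [st]
  set T := N * (1 + N * ((8 * N ^ 2) ^ κ * (l * (2 * N)))) with hT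
  have hmono : (8 * N ^ 2) ^ κ * (m * (2 * N)) ≤ (8 * N ^ 2) ^ κ * (l * (2 * N)) :=
    Nat.mul_le_mul_left _ (Nat.mul_le_mul_right _ hml)
  obtain ⟨L, hL, hLl, hLs⟩ := exists_la_of_prog (rProg (M.toMach.toNFA cv) N st f m κ)
    (2 * N) (2 * N) T (by omega)
    (by
      intro r hr
      simp only [rProg]
      split_ifs <;> omega)
    (fun r hr => (within_rbit _ N st f m κ r).mono hr.le)
    (fun r hr => (within_racc _ N st f m κ r).mono hr.le)
    (fun r _ => by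
      refine (nd_rbit_le _ N st f m hN0 κ r).trans ?_
      rw [hT]
      refine Nat.mul_le_mul_left _ (Nat.add_le_add_left ?_ 1)
      exact hmono.trans (Nat.le_mul_of_pos_left _ hN0))
    (fun r hr => by
      refine (nd_racc_le _ N st f m hN0 κ r hr.le).trans ?_
      rw [hT]
      exact Nat.mul_le_mul_left _ (Nat.add_le_add_left (Nat.mul_le_mul_left _ hmono) 1))
  refine ⟨L, hL, ?_, ?_, hLs.trans ?_⟩
  · intro cv' w hw
    rw [hLl cv'] at hw
    rw [← Mach.toNFA_accepts]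
    exact rProg_sound _ N st f m cv' hN0 hst κ w hw
  · intro cv' w hr hw
    rw [hLl cv']
    rw [← Mach.toNFA_accepts] at hw
    exact rProg_complete _ N st f m hf cv' hN0 hst κ w hr hw
  · have h2 : N ≤ 2 ^ (k ^ 2 + k) := by
      rw [hcard, pow_add, sq]
      exact Nat.mul_le_mul_left _ Nat.lt_two_pow_self.le
    exact size_arith N (Nat.card A) κ n k l hN0 hl h2 hk1 (by omega) T hT

end Pool.Agent.P0036f5v4
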