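import Pool.Agent.Lib.P0036f5v4.USweep

/-!
# The tilings of the counter machine
-/

set_option autoImplicit false

namespace Pool.Agent.P0036f5v4

/-! ### Bits -/

theorem mod_two_pow_succ' (N k : ℕ) : N % 2 ^ (k + 1) = N % 2 ^ k + 2 ^ k * (N.testBit k).toNat := by
  rw [Nat.mod_pow_succ, Nat.testBit_eq_decide_div_mod_eq]
  congr 2
  rcases Nat.mod_two_eq_zero_or_one (N / 2 ^ k) with h | h <;> simp [h]

theorem mod_eq_zero_succ (N k : ℕ) :
    N % 2 ^ (k + 1) = 0 ↔ N % 2 ^ k = 0 ∧ N.testBit k = false := by
  rw [mod_two_pow_succ']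
  have h0 : 0 < 2 ^ k := Nat.two_pow_pos k
  cases N.testBit k
  · simp
  · simp

theorem mod_eq_mod_succ (N P k : ℕ) :
    N % 2 ^ (k + 1) = P % 2 ^ (k + 1) ↔ N % 2 ^ k = P % 2 ^ k ∧ N.testBit k = P.testBit k := by
  rw [mod_two_pow_succ', mod_two_pow_succ']
  have h0 : 0 < 2 ^ k := Nat.two_pow_pos k
  have h1 := Nat.mod_lt N h0
  have h2 := Nat.mod_lt P h0
  cases N.testBit k <;> cases P.testBit k <;> simp <;> omega

theorem testBit_succ_xor (N k : ℕ) :
    (N + 1).testBit k = xor (N.testBit k) (decide ((N + 1) % 2 ^ k = 0)) := by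
  rw [Nat.testBit_eq_decide_div_mod_eq, Nat.testBit_eq_decide_div_mod_eq, Nat.succ_div]
  by_cases h : 2 ^ k ∣ N + 1
  · rw [if_pos h, decide_eq_true (Nat.mod_eq_zero_of_dvd h)]
    rcases Nat.mod_two_eq_zero_or_one (N / 2 ^ k) with h1 | h1
    · have h2 : (N / 2 ^ k + 1) % 2 = 1 := by omega
      simp [h1, h2]
    · have h2 : (N / 2 ^ k + 1) % 2 = 0 := by omega
      simp [h1, h2]
  · rw [if_neg h, decide_eq_false (fun h' => h (Nat.dvd_of_mod_eq_zero h')), Nat.add_zero,
      Bool.xor_false]

theorem exists_bits (W : ℕ) (b : ℕ → Bool) : ∃ P < 2 ^ W, ∀ k < W, P.testBit k = b k :=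
  ⟨Nat.ofBits fun i : Fin W => b i, Nat.ofBits_lt_two_pow _, fun k hk => by
    rw [Nat.testBit_ofBits_lt _ _ hk]⟩

/-! ### The tiling of the number `P` -/

variable (m : ℕ)

/-- the number of the row of the tile `κ`: the row index modulo `P + 1` -/
def rowN (P κ : ℕ) : ℕ := κ / (m * (m + 1)) % (P + 1)

/-- the column of the tile `κ` -/
def col (κ : ℕ) : ℕ := κ % (m * (m + 1))

/-- the tiles of the number `P` -/
def tl (P κ : ℕ) : Tile where
  S := decide (col m κ = 0)
  c := (rowN m P κ).testBit (col m κ)
  p := P.testBit (col m κ)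
  e := decide (rowN m P κ % 2 ^ (col m κ + 1) = P % 2 ^ (col m κ + 1))
  x := decide (rowN m P κ % 2 ^ col m κ = 0)
  z := decide (rowN m P κ = 0)

theorem okS_iff (f : ℕ → Tile) (κ : ℕ) :
    OkS m f κ ↔ (f κ).S = decide (col m κ = 0) := by
  unfold OkS
  rw [marks_iff]
  unfold col
  constructor
  · intro h
    by_cases h0 : κ % (m * (m + 1)) = 0
    · rw [decide_eq_true h0]
      exact h.2 h0
    · rw [decide_eq_false h0]
      by_contra hc
      exact h0 (h.1 (by simpa using hc))
  · intro h
    rw [h, decide_eq_true_eq]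

theorem hE_iff (t : Tile) :
    hE t = true ↔ t.x = true ∧ t.z = true ∧ t.e = (t.c == t.p) ∧ t.c = false := by
  unfold hE
  simp [and_assoc]

theorem hP_iff (t s : Tile) :
    hP t s = true ↔ t.x = (t.S || (s.x && !s.c)) ∧ t.z = (if t.S then s.e else s.z) ∧
      t.e = ((t.S || s.e) && (t.c == t.p)) ∧ (t.z = true → t.c = false) := by
  unfold hP
  simp only [Bool.and_eq_true, beq_iff_eq, and_assoc]
  refine and_congr_right fun _ => and_congr_right fun _ => and_congr_right fun _ => ?_
  cases t.z <;> simp

theorem vP_iff (t : Tile) (c p : Bool) :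
    vP t c p = true ↔ t.p = p ∧ (t.z = false → t.c = xor c t.x) := by
  unfold vP
  simp only [Bool.and_eq_true, beq_iff_eq, Bool.or_eq_true]
  refine and_congr_right fun _ => ?_
  cases t.z <;> simp

theorem Tile.ext' {s t : Tile} (h1 : s.S = t.S) (h2 : s.c = t.c) (h3 : s.p = t.p) (h4 : s.e = t.e)
    (h5 : s.x = t.x) (h6 : s.z = t.z) : s = t := by
  cases s; cases t; simp_all

/-- the tiles of `P` satisfy the conditions, and determine the next tile up to the bit `p` -/
theorem step_iff (hm : 0 < m) {P : ℕ} (hP : P < 2 ^ (m * (m + 1))) (f : ℕ → Tile) (κ : ℕ)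
    (hprev : ∀ i < κ, f i = tl m P i)
    (hp : κ < m * (m + 1) → (f κ).p = P.testBit (col m κ)) :
    (OkS m f κ ∧ Hc f κ = true ∧ OkV m f κ) ↔ f κ = tl m P κ := by
  have hW : 0 < m * (m + 1) := Nat.mul_pos hm (by omega)
  rw [okS_iff]
  rcases κ with _ | κ
  · -- the first tile
    have hc0 : col m 0 = 0 := Nat.zero_mod _
    have hr0 : rowN m P 0 = 0 := by unfold rowN; rw [Nat.zero_div, Nat.zero_mod]
    have hp0 := hp hW
    rw [hc0] at hp0 ⊢
    have he : decide (0 % 2 ^ (0 + 1) = P % 2 ^ (0 + 1)) = (false == P.testBit 0) := by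
      have := mod_eq_mod_succ 0 P 0
      simp only [Nat.zero_testBit, Nat.pow_zero, Nat.mod_one, true_and] at this
      rw [Bool.eq_iff_iff, decide_eq_true_eq, this, beq_iff_eq]
    constructor
    · rintro ⟨hS, hH, _⟩
      obtain ⟨h1, h2, h3, h4⟩ := (hE_iff _).1 hH
      refine Tile.ext' ?_ ?_ ?_ ?_ ?_ ?_
      · simp only [tl, hc0]; exact hS
      · simp only [tl, hc0, hr0, Nat.zero_testBit]; exact h4
      · simp only [tl, hc0]; exact hp0
      · simp only [tl, hc0, hr0]
        rw [he, h3, h4, hp0]
      · simp only [tl, hc0, hr0]; rw [h1]; simp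
      · simp only [tl, hr0]; rw [h2]; simp
    · intro h
      refine ⟨by rw [h]; simp only [tl, hc0], ?_, fun h' => by omega⟩
      simp only [Hc]
      rw [hE_iff, h]
      simp only [tl, hc0, hr0, Nat.zero_testBit]
      refine ⟨by simp, by simp, he, by simp⟩
  · -- a later tile
    have hpr := hprev κ (by omega)
    simp only [Hc]
    rw [hP_iff, hpr]
    by_cases hk : col m (κ + 1) = 0
    · -- a row start
      have hk' : (κ + 1) % (m * (m + 1)) = 0 := hk
      have hge : m * (m + 1) ≤ κ + 1 := by
        by_contra h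
        rw [Nat.mod_eq_of_lt (by omega)] at hk'
        omega
      -- arithmetic of the previous tile
      have hdiv := pred_div (n := κ) hW
      rw [if_pos hk'] at hdiv
      have hcolp : col m κ + 1 = m * (m + 1) := by
        have h1 := Nat.div_add_mod κ (m * (m + 1))
        have h2 := Nat.div_add_mod (κ + 1) (m * (m + 1))
        rw [hk', ← hdiv, Nat.mul_add, Nat.mul_one] at h2
        unfold col
        omega
      obtain ⟨q, hq⟩ := Nat.exists_eq_add_of_le hge
      have hsub : κ + 1 - m * (m + 1) = q := by omega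
      have hcolq : col m q = 0 := by
        unfold col
        rw [hq, Nat.add_mod_left] at hk'
        exact hk'
      have hrowq : rowN m P q = rowN m P κ := by
        unfold rowN
        rw [hq, Nat.add_div_left _ hW] at hdiv
        have h1 : κ / (m * (m + 1)) = q / (m * (m + 1)) := by omega
        rw [h1]
      have hqf := hprev q (by omega)
      have hbound : rowN m P κ < 2 ^ (m * (m + 1)) :=
        lt_of_lt_of_le (Nat.mod_lt _ (Nat.succ_pos P)) hP
      -- the next row
      have hnext : (rowN m P κ = P ∧ rowN m P (κ + 1) = 0) ∨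
          (rowN m P κ ≠ P ∧ rowN m P (κ + 1) = rowN m P κ + 1) := by
        unfold rowN
        rw [← hdiv]
        have h1 := Nat.mod_lt (κ / (m * (m + 1))) (Nat.succ_pos P)
        have h2 := Nat.add_mod (κ / (m * (m + 1))) 1 (P + 1)
        by_cases h3 : κ / (m * (m + 1)) % (P + 1) = P
        · left
          refine ⟨h3, ?_⟩
          rw [← Nat.mod_add_mod, h3, Nat.mod_self]
        · right
          refine ⟨h3, ?_⟩
          rw [← Nat.mod_add_mod]
          exact Nat.mod_eq_of_lt (by rw [Nat.succ_eq_add_one] at h1; omega)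
      have heq : (tl m P κ).e = decide (rowN m P κ = P) := by
        simp only [tl, hcolp]
        rw [Nat.mod_eq_of_lt hbound, Nat.mod_eq_of_lt hP]
      have he : decide (rowN m P (κ + 1) % 2 ^ (0 + 1) = P % 2 ^ (0 + 1)) =
          ((rowN m P (κ + 1)).testBit 0 == P.testBit 0) := by
        have := mod_eq_mod_succ (rowN m P (κ + 1)) P 0
        simp only [Nat.pow_zero, Nat.mod_one, true_and] at this
        rw [Bool.eq_iff_iff, decide_eq_true_eq, this, beq_iff_eq]
      have hz : decide (rowN m P κ = P) = decide (rowN m P (κ + 1) = 0) := by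
        rcases hnext with ⟨h1, h2⟩ | ⟨h1, h2⟩
        · rw [decide_eq_true h1, decide_eq_true h2]
        · rw [decide_eq_false h1, decide_eq_false (by omega)]
      unfold OkV
      rw [hsub, hqf, vP_iff]
      simp only [hge, true_imp_iff]
      rw [heq, hz]
      simp only [tl, hcolq, hrowq, hk]
      constructor
      · rintro ⟨hS, ⟨h1, h2, h3, h4⟩, h5, h6⟩
        rw [hS] at h1 h2 h3
        simp only [decide_true, Bool.true_or, if_true, Bool.true_and] at hS h1 h2 h3
        have hc : (f (κ + 1)).c = (rowN m P (κ + 1)).testBit 0 := by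
          by_cases hz0 : rowN m P (κ + 1) = 0
          · rw [hz0, Nat.zero_testBit]
            exact h4 (by rw [h2]; simp [hz0])
          · rcases hnext with ⟨_, h8⟩ | ⟨_, h8⟩
            · exact absurd h8 hz0
            · rw [h6 (by rw [h2]; simp [hz0]), h1, h8, testBit_succ_xor]
              simp [Nat.mod_one]
        refine Tile.ext' (by simpa [tl, hk] using hS) (by simpa [tl, hk] using hc)
          (by simpa [tl, hk] using h5) ?_ ?_ (by simpa [tl] using h2)
        · simp only [tl, hk]
          rw [he, h3, hc, h5]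
        · simp only [tl, hk]
          rw [h1]
          simp [Nat.mod_one]
      · intro h
        rw [h]
        simp only [tl, hk]
        refine ⟨by simp, ⟨by simp [Nat.mod_one], by simp, by rw [he]; simp, ?_⟩, by simp, ?_⟩
        · intro h'
          rw [decide_eq_true_eq] at h'
          rw [h', Nat.zero_testBit]
        · intro h'
          rw [decide_eq_false_iff_not] at h'
          rcases hnext with ⟨_, h8⟩ | ⟨_, h8⟩
          · exact absurd h8 h'
          · rw [h8, testBit_succ_xor]
    · -- inside a row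
      have hk' : ¬ (κ + 1) % (m * (m + 1)) = 0 := hk
      have hdiv := pred_div (n := κ) hW
      rw [if_neg hk', Nat.add_zero] at hdiv
      have hcolp : col m (κ + 1) = col m κ + 1 := by
        have h1 := Nat.div_add_mod κ (m * (m + 1))
        have h2 := Nat.div_add_mod (κ + 1) (m * (m + 1))
        rw [← hdiv] at h2
        unfold col
        omega
      have hrow : rowN m P (κ + 1) = rowN m P κ := by
        unfold rowN
        rw [hdiv]
      have hx := mod_eq_zero_succ (rowN m P κ) (col m κ)
      have he := mod_eq_mod_succ (rowN m P κ) P (col m κ + 1)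
      have hxx : decide (rowN m P κ % 2 ^ (col m κ + 1) = 0) =
          (decide (rowN m P κ % 2 ^ col m κ = 0) && !(rowN m P κ).testBit (col m κ)) := by
        rw [Bool.eq_iff_iff, decide_eq_true_eq, hx, Bool.and_eq_true, decide_eq_true_eq,
          Bool.not_eq_true']
      have hee : decide (rowN m P κ % 2 ^ (col m κ + 1 + 1) = P % 2 ^ (col m κ + 1 + 1)) =
          (decide (rowN m P κ % 2 ^ (col m κ + 1) = P % 2 ^ (col m κ + 1)) &&
            ((rowN m P κ).testBit (col m κ + 1) == P.testBit (col m κ + 1))) := by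
        rw [Bool.eq_iff_iff, decide_eq_true_eq, he, Bool.and_eq_true, decide_eq_true_eq,
          beq_iff_eq]
      -- the vertical condition
      have hV : OkV m f (κ + 1) ↔ ((m * (m + 1) ≤ κ + 1 → (f (κ + 1)).p = P.testBit (col m κ + 1)) ∧
          (m * (m + 1) ≤ κ + 1 → (f (κ + 1)).z = false →
            (f (κ + 1)).c = xor ((rowN m P (κ + 1 - m * (m + 1))).testBit (col m κ + 1))
              (f (κ + 1)).x)) := by
        unfold OkV
        rw [← imp_and]
        refine imp_congr_right fun hge => ?_
        obtain ⟨q, hq⟩ := Nat.exists_eq_add_of_le hge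
        have hsub : κ + 1 - m * (m + 1) = q := by omega
        have hcolq : col m q = col m κ + 1 := by
          rw [← hcolp]
          unfold col
          rw [hq, Nat.add_mod_left]
        rw [hsub, hprev q (by omega), vP_iff]
        simp only [tl, hcolq]
      have hp' : (f (κ + 1)).p = P.testBit (col m κ + 1) ∨ m * (m + 1) ≤ κ + 1 := by
        rcases Nat.lt_or_ge (κ + 1) (m * (m + 1)) with h | h
        · left
          rw [hp h, hcolp]
        · exact Or.inr h
      have hvert : rowN m P κ ≠ 0 → m * (m + 1) ≤ κ + 1 ∧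
          rowN m P κ = rowN m P (κ + 1 - m * (m + 1)) + 1 := by
        intro h0
        have hge : m * (m + 1) ≤ κ + 1 := by
          by_contra h
          apply h0
          rw [← hrow]
          unfold rowN
          rw [Nat.div_eq_of_lt (by omega), Nat.zero_mod]
        refine ⟨hge, ?_⟩
        obtain ⟨q, hq⟩ := Nat.exists_eq_add_of_le hge
        have hsub : κ + 1 - m * (m + 1) = q := by omega
        rw [hsub]
        rw [← hrow] at h0 ⊢
        unfold rowN at h0 ⊢
        rw [hq, Nat.add_comm, Nat.add_div_right _ hW] at h0 ⊢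
        have h1 := Nat.mod_lt (q / (m * (m + 1))) (Nat.succ_pos P)
        rw [← Nat.mod_add_mod] at h0 ⊢
        apply Nat.mod_eq_of_lt
        by_contra h2
        have h3 : q / (m * (m + 1)) % (P + 1) + 1 = P + 1 := by
          rw [Nat.succ_eq_add_one] at h1
          omega
        rw [h3, Nat.mod_self] at h0
        exact h0 rfl
      rw [hV]
      simp only [tl, hcolp, Nat.succ_ne_zero, decide_false]
      constructor
      · rintro ⟨hS, ⟨h1, h2, h3, h4⟩, h5, h6⟩
        rw [hS] at h1 h2 h3
        simp only [Bool.false_or, Bool.false_eq_true, if_false] at h1 h2 h3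
        rw [← hxx] at h1
        have hpp : (f (κ + 1)).p = P.testBit (col m κ + 1) := by
          rcases hp' with h | h
          · exact h
          · exact h5 h
        have hc : (f (κ + 1)).c = (rowN m P κ).testBit (col m κ + 1) := by
          by_cases hz0 : rowN m P κ = 0
          · rw [hz0, Nat.zero_testBit]
            exact h4 (by rw [h2]; simp [hz0])
          · obtain ⟨hge, h7⟩ := hvert hz0
            rw [h6 hge (by rw [h2]; simp [hz0]), h1]
            conv_rhs => rw [h7, testBit_succ_xor, ← h7]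
        refine Tile.ext' (by simpa [tl, hcolp] using hS) (by simpa [tl, hcolp, hrow] using hc)
          (by simpa [tl, hcolp] using hpp) ?_ ?_ (by simpa [tl, hrow] using h2)
        · simp only [tl, hcolp, hrow]
          rw [hee, h3, hc, hpp]
        · simp only [tl, hcolp, hrow]
          exact h1
      · intro h
        rw [h]
        simp only [tl, hcolp, hrow, Nat.succ_ne_zero, decide_false]
        refine ⟨by simp, ⟨?_, ?_, ?_, ?_⟩, fun _ => by simp, ?_⟩
        · rw [hxx]; simp
        · simp
        · rw [hee]; simp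
        · intro h'
          rw [decide_eq_true_eq] at h'
          rw [h', Nat.zero_testBit]
        · intro _ h'
          rw [decide_eq_false_iff_not] at h'
          obtain ⟨_, h7⟩ := hvert h'
          conv_lhs => rw [h7, testBit_succ_xor, ← h7]

/-- **The tilings are the tilings of the numbers `P < 2 ^ W`.** -/
theorem good_iff (hm : 0 < m) (f : ℕ → Tile) (n : ℕ) :
    Good m f n ↔ ∃ P < 2 ^ (m * (m + 1)), ∀ κ < n, f κ = tl m P κ := by
  constructor
  · intro hf
    obtain ⟨P, hP, hb⟩ := exists_bits (m * (m + 1)) (fun k => (f k).p)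
    refine ⟨P, hP, ?_⟩
    intro κ
    induction κ using Nat.strong_induction_on with
    | _ κ ih =>
      intro hκ
      refine (step_iff m hm hP f κ (fun i hi => ih i hi (by omega)) ?_).1 (hf κ hκ)
      intro hlt
      unfold col
      rw [Nat.mod_eq_of_lt hlt, hb κ hlt]
  · rintro ⟨P, hP, h⟩ κ hκ
    refine (step_iff m hm hP f κ (fun i hi => h i (by omega)) ?_).2 (h κ hκ)
    intro _
    rw [h κ hκ]
    rfl

theorem exists_good (hm : 0 < m) (n : ℕ) : ∃ f, Good m f n :=
  ⟨tl m 0, (good_iff m hm _ _).2 ⟨0, Nat.two_pow_pos _, fun _ _ => rfl⟩⟩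

/-- the period: `W` times the least common multiple of `1, …, 2 ^ W` -/
def per : ℕ := m * (m + 1) * Nat.lcmUpto (2 ^ (m * (m + 1)))

theorem good_end_iff (hm : 0 < m) (n : ℕ) :
    (∀ f, Good m f (n + 1) → (f n).S = true ∧ (f n).z = true) ↔ per m ∣ n := by
  have hW : 0 < m * (m + 1) := Nat.mul_pos hm (by omega)
  constructor
  · intro h
    have key : ∀ P < 2 ^ (m * (m + 1)), n % (m * (m + 1)) = 0 ∧ (P + 1) ∣ n / (m * (m + 1)) := by
      intro P hP
      obtain ⟨h1, h2⟩ := h (tl m P) ((good_iff m hm _ _).2 ⟨P, hP, fun _ _ => rfl⟩)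
      simp only [tl, decide_eq_true_eq] at h1 h2
      exact ⟨h1, Nat.dvd_of_mod_eq_zero h2⟩
    obtain ⟨q, hq⟩ := Nat.dvd_of_mod_eq_zero (key 0 (Nat.two_pow_pos _)).1
    have hdiv : n / (m * (m + 1)) = q := by rw [hq, Nat.mul_div_cancel_left _ hW]
    unfold per
    rw [hq]
    refine Nat.mul_dvd_mul_left _ ?_
    refine Finset.lcm_dvd fun b hb => ?_
    rw [Finset.mem_Icc] at hb
    have := (key (b - 1) (by omega)).2
    rw [hdiv, Nat.sub_add_cancel hb.1] at this
    exact this
  · rintro ⟨q, hq⟩ f hf
    obtain ⟨P, hP, hf'⟩ := (good_iff m hm _ _).1 hf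
    rw [hf' n (by omega)]
    have h1 : (P + 1) ∣ Nat.lcmUpto (2 ^ (m * (m + 1))) :=
      Finset.dvd_lcm (f := id) (Finset.mem_Icc.2 ⟨by omega, by omega⟩)
    have h2 : n = m * (m + 1) * (Nat.lcmUpto (2 ^ (m * (m + 1))) * q) := by
      rw [hq]; unfold per; ring
    simp only [tl, decide_eq_true_eq]
    refine ⟨?_, ?_⟩
    · unfold col
      rw [h2, Nat.mul_mod_right]
    · unfold rowN
      rw [h2, Nat.mul_div_cancel_left _ hW]
      exact Nat.mod_eq_zero_of_dvd (h1.mul_right q)

end Pool.Agent.P0036f5v4
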