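import Pool.Agent.Lib.P0036f5v4.OT

/-!
# The counter machine: definition and the results of its sweeps

The tape consists of records of six cells: a tile and five blanks.  Rows of `W = m (m + 1)` tiles
hold a number `P` (bits `p`) and the row number modulo `P + 1` (bits `c`).
-/

set_option autoImplicit false

namespace Pool.Agent.P0036f5v4

open Relation Pool.Agent.P0036f5v2

/-- tiles: `S` row start, `c` counter bit, `p` bit of `P`, `e` the counter agrees with `P` so far,
`x` the counter is zero so far, `z` the counter of this row is zero -/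
structure Tile where
  S : Bool
  c : Bool
  p : Bool
  e : Bool
  x : Bool
  z : Bool
deriving DecidableEq, Fintype

instance : Nonempty Tile := ⟨⟨false, false, false, false, false, false⟩⟩

/-- tags of the counting walker -/
inductive Tag : Type
  | t1 (s : Bool)
  | t2 (s : Bool)
  | t3 (c p : Bool)
  | t4

/-- frontier states -/
inductive RS : Type
  | T
  | c1
  | c2 (b : Bool)
  | c3
  | c4
  | info (c p : Bool) (j : ℕ)
  | vok
  | fok

/-- walkers -/
inductive LW : Type
  | a0
  | b0
  | h0
  | h1 (t : Tile)
  | sc (w : Bool) (a : ℕ) (t : Tag)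
  | fe (a : ℕ) (r : Bool)
  | m0 (c p : Bool) (j : ℕ)
  | fin0

/-- local condition at the first tile -/
def hE (t : Tile) : Bool := t.x && t.z && (t.e == (t.c == t.p)) && !t.c

/-- local condition for a tile `t` and its left neighbour `s` -/
def hP (t s : Tile) : Bool :=
  (t.x == (t.S || (s.x && !s.c))) && (t.z == if t.S then s.e else s.z) &&
    (t.e == ((t.S || s.e) && (t.c == t.p))) && (!t.z || !t.c)

/-- vertical condition -/
def vP (t : Tile) (c p : Bool) : Bool := (t.p == p) && (t.z || (t.c == xor c t.x))

/-- the two moduli -/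
def md (m : ℕ) (w : Bool) : ℕ := if w then m + 1 else m

/-- result of the counting walker at a row start -/
def out : Tag → ℕ → Option RS
  | .t1 s, a => if a = 0 then some (.c2 true) else if s then none else some (.c2 false)
  | .t2 s, a => if s = decide (a = 0) then some .c3 else none
  | .t3 c p, a => some (.info c p a)
  | .t4, a => if a = 0 then some .T else none

/-- a walker reading a tile -/
def st (m : ℕ) : LW → Tile → Tile → Option (LW ⊕ RS)
  | .a0, t, _ => some (.inl (.sc false (1 % m) (.t1 t.S)))
  | .b0, t, _ => some (.inl (.sc true (1 % (m + 1)) (.t2 t.S)))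
  | .h0, t, _ => some (.inl (.h1 t))
  | .h1 t, s, _ => if hP t s then some (.inr .c4) else none
  | .sc w a t, s, _ =>
    if s.S then (out t a).map .inr else some (.inl (.sc w ((a + 1) % md m w) t))
  | .fe a r, s, k =>
    if k.c then
      if a = 0 ∧ r = true then
        if s.S then some (.inr (.info s.c s.p 0))
        else some (.inl (.sc true (1 % (m + 1)) (.t3 s.c s.p)))
      else none
    else if s.S then (if r then none else some (.inl (.fe ((a + 1) % m) true)))
    else some (.inl (.fe ((a + 1) % m) r))
  | .m0 c p j, t, _ =>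
    if vP t c p then
      if t.S then (if j = 0 then some (.inr .T) else none)
      else some (.inl (.sc true ((m + 2 - j) % (m + 1)) .t4))
    else none
  | .fin0, t, _ => if t.S && t.z then none else some (.inr .fok)

/-- a walker reading the left end-marker -/
def en : LW → Option RS
  | .sc _ _ (.t1 s) => if s then some (.c2 false) else none
  | .h1 t => if hE t then some .c4 else none
  | .fe _ _ => some .vok
  | .fin0 => some .fok
  | _ => none

/-- the counter machine -/
def cm (m : ℕ) : OT RS LW (Option Tile) Tile where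
  wr := fun x k => match x with
    | .T => some (some k, .inl .c1)
    | .c1 => some (none, .inr .a0)
    | .c2 true => some (none, .inr .b0)
    | .c2 false => some (none, .inl .c3)
    | .c3 => some (none, .inr .h0)
    | .c4 => some (none, .inr (.fe 0 false))
    | .info c p j => some (none, .inr (.m0 c p j))
    | .vok => some (none, .inl .T)
    | .fok => none
  mv := fun y g k => match g with
    | none => (en y).map .inr
    | some none => some (.inl y)
    | some (some t) => st m y t k
  fin := fun x => match x with
    | .T => some (some .fin0)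
    | _ => some none
  r0 := .T

variable (m : ℕ)

/-- the tape with the `n` records `f 0, …, f (n - 1)`, rightmost symbol first -/
def fl (f : ℕ → Tile) : ℕ → List (Option Tile)
  | 0 => []
  | n + 1 => none :: none :: none :: none :: none :: some (f n) :: fl f n

theorem res_none (X : List (Option Tile)) (y : LW) :
    (cm m).Res (none :: X) y = (cm m).Res X y := by
  ext x
  constructor
  · rintro (⟨k, hk⟩ | ⟨k, y', hk, hx⟩)
    · simp [cm] at hk
    · simp only [cm, Option.some.injEq, Sum.inl.injEq] at hk
      subst hk
      exact hx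
  · intro hx
    exact Or.inr ⟨Classical.arbitrary Tile, y, rfl, hx⟩

theorem res_some (X : List (Option Tile)) (t : Tile) (y : LW) (x : RS) :
    x ∈ (cm m).Res (some t :: X) y ↔ (∃ k, st m y t k = some (.inr x)) ∨
      ∃ k y', st m y t k = some (.inl y') ∧ x ∈ (cm m).Res X y' := Iff.rfl

theorem res_fl_succ (f : ℕ → Tile) (n : ℕ) (y : LW) :
    (cm m).Res (fl f (n + 1)) y = (cm m).Res (some (f n) :: fl f n) y := by
  simp only [fl, res_none]

theorem res_nil (y : LW) (x : RS) : x ∈ (cm m).Res [] y ↔ en y = some x := by
  constructor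
  · rintro ⟨k, hk⟩
    simp only [cm, Option.map_eq_some_iff, Sum.inr.injEq] at hk
    obtain ⟨a, ha, rfl⟩ := hk
    exact ha
  · intro h
    exact ⟨Classical.arbitrary Tile, by simp [cm, h]⟩

/-- the row starts are correct in the first `n` tiles -/
def Marks (f : ℕ → Tile) (n : ℕ) : Prop :=
  ∀ i < n, ((f i).S = true ↔ i % m = 0 ∧ i % (m + 1) = 0)

theorem md_dvd {f : ℕ → Tile} {n : ℕ} (hf : Marks m f n) {i : ℕ} (hi : i < n) (hS : (f i).S = true)
    (w : Bool) : i % md m w = 0 := by
  obtain ⟨h1, h2⟩ := (hf i hi).1 hS
  cases w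
  · exact h1
  · exact h2

/-- the counting walker -/
theorem res_sc {f : ℕ → Tile} (w : Bool) (t : Tag) (x : RS) (hm : 0 < md m w) :
    ∀ (n a : ℕ), Marks m f (n + 1) → a < md m w →
      (x ∈ (cm m).Res (fl f (n + 1)) (.sc w a t) ↔ out t ((a + n) % md m w) = some x) := by
  intro n
  induction n with
  | zero =>
    intro a hf ha
    have hS : (f 0).S = true := (hf 0 (by omega)).2 ⟨Nat.zero_mod _, Nat.zero_mod _⟩
    rw [res_fl_succ, res_some]
    simp only [st, hS, if_true, Nat.add_zero, Nat.mod_eq_of_lt ha]
    constructor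
    · rintro (⟨k, hk⟩ | ⟨k, y', hk, _⟩)
      · simp only [Option.map_eq_some_iff, Sum.inr.injEq] at hk
        obtain ⟨b, hb, rfl⟩ := hk
        exact hb
      · simp at hk
    · intro h
      exact Or.inl ⟨Classical.arbitrary Tile, by rw [h]; rfl⟩
  | succ n ih =>
    intro a hf ha
    rw [res_fl_succ, res_some]
    by_cases hS : (f (n + 1)).S = true
    · have h0 := md_dvd m hf (by omega) hS w
      have h1 : (a + (n + 1)) % md m w = a := by
        rw [Nat.add_mod, h0, Nat.add_zero, Nat.mod_mod, Nat.mod_eq_of_lt ha]
      simp only [st, hS, if_true, h1]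
      constructor
      · rintro (⟨k, hk⟩ | ⟨k, y', hk, _⟩)
        · simp only [Option.map_eq_some_iff, Sum.inr.injEq] at hk
          obtain ⟨b, hb, rfl⟩ := hk
          exact hb
        · simp at hk
      · intro h
        exact Or.inl ⟨Classical.arbitrary Tile, by rw [h]; rfl⟩
    · have hS' : (f (n + 1)).S = false := by simpa using hS
      have h1 : (a + (n + 1)) % md m w = ((a + 1) % md m w + n) % md m w := by
        rw [Nat.mod_add_mod]
        congr 1
        omega
      rw [h1, ← ih ((a + 1) % md m w) (fun i hi => hf i (by omega)) (Nat.mod_lt _ hm)]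
      simp only [st, hS', Bool.false_eq_true, if_false]
      constructor
      · rintro (⟨k, hk⟩ | ⟨k, y', hk, h⟩)
        · simp at hk
        · simp only [Option.some.injEq, Sum.inl.injEq] at hk
          subst hk
          exact h
      · intro h
        exact Or.inr ⟨Classical.arbitrary Tile, _, rfl, h⟩

/-- the row starts are the multiples of `W = m (m + 1)` -/
theorem marks_iff (i : ℕ) : (i % m = 0 ∧ i % (m + 1) = 0) ↔ i % (m * (m + 1)) = 0 := by
  rw [← Nat.dvd_iff_mod_eq_zero, ← Nat.dvd_iff_mod_eq_zero, ← Nat.dvd_iff_mod_eq_zero]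
  constructor
  · rintro ⟨h1, h2⟩
    exact Nat.Coprime.mul_dvd_of_dvd_of_dvd (by simp) h1 h2
  · intro h
    exact ⟨(Nat.dvd_mul_right _ _).trans h, (Nat.dvd_mul_left _ _).trans h⟩

/-- division by `W` of a predecessor -/
theorem pred_div {W n : ℕ} (hW : 0 < W) :
    n / W + (if (n + 1) % W = 0 then 1 else 0) = (n + 1) / W := by
  rw [Nat.succ_div]
  simp only [Nat.dvd_iff_mod_eq_zero]

theorem st_fe_pick {a : ℕ} {r : Bool} {s k : Tile} (hk : k.c = true) (ha : a = 0) (hr : r = true) :
    st m (.fe a r) s k = if s.S = true then some (.inr (.info s.c s.p 0))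
      else some (.inl (.sc true (1 % (m + 1)) (.t3 s.c s.p))) := by
  simp [st, hk, ha, hr]

theorem st_fe_nopick {a : ℕ} {r : Bool} {s k : Tile} (hk : k.c = true) (h : ¬ (a = 0 ∧ r = true)) :
    st m (.fe a r) s k = none := by
  unfold st
  simp only [hk, if_true]
  rw [if_neg h]

theorem st_fe_S {a : ℕ} {r : Bool} {s k : Tile} (hk : k.c = false) (hS : s.S = true) :
    st m (.fe a r) s k = if r = true then none else some (.inl (.fe ((a + 1) % m) true)) := by
  simp [st, hk, hS]

theorem st_fe_nS {a : ℕ} {r : Bool} {s k : Tile} (hk : k.c = false) (hS : s.S = false) :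
    st m (.fe a r) s k = some (.inl (.fe ((a + 1) % m) r)) := by
  simp [st, hk, hS]

/-- what a walker returns from the symbol `t` and the tape `X` behind it, for the choice `k` -/
def Step1 (X : List (Option Tile)) (y : LW) (t k : Tile) (x : RS) : Prop :=
  st m y t k = some (.inr x) ∨ ∃ y', st m y t k = some (.inl y') ∧ x ∈ (cm m).Res X y'

theorem res_some' (X : List (Option Tile)) (t : Tile) (y : LW) (x : RS) :
    x ∈ (cm m).Res (some t :: X) y ↔ ∃ k, Step1 m X y t k x := by
  rw [res_some]
  constructor
  · rintro (⟨k, hk⟩ | ⟨k, y', hk, hx⟩)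
    · exact ⟨k, Or.inl hk⟩
    · exact ⟨k, Or.inr ⟨y', hk, hx⟩⟩
  · rintro ⟨k, hk | ⟨y', hk, hx⟩⟩
    · exact Or.inl ⟨k, hk⟩
    · exact Or.inr ⟨k, y', hk, hx⟩

theorem step1_none {X : List (Option Tile)} {y : LW} {t k : Tile} {x : RS}
    (h : st m y t k = none) : ¬ Step1 m X y t k x := by
  rintro (hk | ⟨y', hk, _⟩)
  · rw [h] at hk; simp at hk
  · rw [h] at hk; simp at hk

theorem step1_inl {X : List (Option Tile)} {y y' : LW} {t k : Tile} {x : RS}
    (h : st m y t k = some (.inl y')) : Step1 m X y t k x ↔ x ∈ (cm m).Res X y' := by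
  constructor
  · rintro (hk | ⟨y'', hk, hx⟩)
    · rw [h] at hk; simp at hk
    · rw [h] at hk
      simp only [Option.some.injEq, Sum.inl.injEq] at hk
      subst hk
      exact hx
  · intro hx
    exact Or.inr ⟨y', h, hx⟩

theorem step1_inr {X : List (Option Tile)} {y : LW} {t k : Tile} {x x' : RS}
    (h : st m y t k = some (.inr x')) : Step1 m X y t k x ↔ x = x' := by
  constructor
  · rintro (hk | ⟨y'', hk, hx⟩)
    · rw [h] at hk
      simp only [Option.some.injEq, Sum.inr.injEq] at hk
      exact hk.symm
    · rw [h] at hk; simp at hk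
  · rintro rfl
    exact Or.inl h

/-- picking the tile `n` -/
theorem step1_pick {f : ℕ → Tile} {n : ℕ} (hf : Marks m f (n + 1)) {a : ℕ} {r : Bool} {k : Tile}
    (hk : k.c = true) (x : RS) :
    Step1 m (fl f n) (.fe a r) (f n) k x ↔
      a = 0 ∧ r = true ∧ x = .info (f n).c (f n).p (n % (m + 1)) := by
  by_cases har : a = 0 ∧ r = true
  · by_cases hS : (f n).S = true
    · have h0 := md_dvd m hf (by omega) hS true
      simp only [md, if_true] at h0
      rw [step1_inr m (x' := .info (f n).c (f n).p 0) (by
        rw [st_fe_pick m hk har.1 har.2, if_pos hS]), h0]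
      exact ⟨fun h => ⟨har.1, har.2, h⟩, fun h => h.2.2⟩
    · have hn : n ≠ 0 := by
        rintro rfl
        exact hS ((hf 0 (by omega)).2 ⟨Nat.zero_mod _, Nat.zero_mod _⟩)
      obtain ⟨n', rfl⟩ := Nat.exists_eq_succ_of_ne_zero hn
      rw [step1_inl m (y' := .sc true (1 % (m + 1)) (.t3 (f (n' + 1)).c (f (n' + 1)).p)) (by
        rw [st_fe_pick m hk har.1 har.2, if_neg hS])]
      have h1 := res_sc m (f := f) true (.t3 (f (n' + 1)).c (f (n' + 1)).p) x (by simp [md]) n'
        (1 % (m + 1)) (fun i hi => hf i (by omega))
        (by simp only [md, if_true]; exact Nat.mod_lt _ (by omega))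
      simp only [md, if_true, out, Nat.mod_add_mod] at h1
      have h2 : (1 + n') % (m + 1) = (n' + 1) % (m + 1) := by rw [Nat.add_comm]
      rw [h2, Option.some.injEq] at h1
      rw [h1]
      exact ⟨fun h => ⟨har.1, har.2, h.symm⟩, fun h => h.2.2.symm⟩
  · constructor
    · intro h
      exact absurd h (step1_none m (st_fe_nopick m hk har))
    · rintro ⟨h1, h2, _⟩
      exact absurd ⟨h1, h2⟩ har

/-- the choices: pick and go on -/
def kp : Tile := ⟨false, true, false, false, false, false⟩
def kg : Tile := ⟨false, false, false, false, false, false⟩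

/-- only the field `c` of the choice matters for the fetching walker -/
theorem exists_step1_fe {X : List (Option Tile)} {a : ℕ} {r : Bool} {t : Tile} {x : RS} :
    (∃ k, Step1 m X (.fe a r) t k x) ↔
      Step1 m X (.fe a r) t kp x ∨ Step1 m X (.fe a r) t kg x := by
  constructor
  · rintro ⟨k, hk⟩
    by_cases hc : k.c = true
    · left
      have : st m (.fe a r) t k = st m (.fe a r) t kp := by simp [st, hc, kp]
      unfold Step1 at hk ⊢
      rw [← this]
      exact hk
    · right
      have : st m (.fe a r) t k = st m (.fe a r) t kg := by simp [st, hc, kg]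
      unfold Step1 at hk ⊢
      rw [← this]
      exact hk
  · rintro (h | h)
    · exact ⟨_, h⟩
    · exact ⟨_, h⟩

/-- the fetching walker -/
theorem res_fe {f : ℕ → Tile} (x : RS) (hm : 0 < m) :
    ∀ (n a : ℕ) (r : Bool), Marks m f (n + 1) → a < m →
      (x ∈ (cm m).Res (fl f (n + 1)) (.fe a r) ↔
        (∃ i ≤ n, (a + (n - i)) % m = 0 ∧
          i / (m * (m + 1)) + (if r then 0 else 1) = n / (m * (m + 1)) ∧
          x = .info (f i).c (f i).p (i % (m + 1))) ∨
        (x = .vok ∧ r = false ∧ n / (m * (m + 1)) = 0)) := by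
  have hW : 0 < m * (m + 1) := Nat.mul_pos hm (by omega)
  intro n
  induction n with
  | zero =>
    intro a r hf ha
    have hS : (f 0).S = true := (hf 0 (by omega)).2 ⟨Nat.zero_mod _, Nat.zero_mod _⟩
    rw [res_fl_succ, res_some', exists_step1_fe, step1_pick m hf rfl]
    have hg : Step1 m (fl f 0) (.fe a r) (f 0) kg x ↔ r = false ∧ x = .vok := by
      cases r with
      | true =>
        constructor
        · intro h
          exact absurd h (step1_none m (by rw [st_fe_S m rfl hS]; rfl))
        · rintro ⟨h, _⟩
          simp at h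
      | false =>
        rw [step1_inl m (y' := .fe ((a + 1) % m) true) (by rw [st_fe_S m rfl hS]; rfl)]
        simp only [fl]
        rw [res_nil]
        simp only [en, Option.some.injEq, true_and]
        exact eq_comm
    rw [hg]
    constructor
    · rintro (⟨h1, h2, h3⟩ | ⟨h1, h2⟩)
      · left
        exact ⟨0, le_rfl, by simp [h1], by simp [h2], h3⟩
      · right
        exact ⟨h2, h1, Nat.zero_div _⟩
    · rintro (⟨i, hi, h1, h2, h3⟩ | ⟨h1, h2, _⟩)
      · have hi0 : i = 0 := by omega
        subst hi0
        left
        refine ⟨by simpa [Nat.mod_eq_of_lt ha] using h1, ?_, h3⟩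
        by_contra hr
        simp [hr] at h2
      · exact Or.inr ⟨h2, h1⟩
  | succ n ih =>
    intro a r hf ha
    have hf' : Marks m f (n + 1) := fun i hi => hf i (by omega)
    have hd := pred_div (n := n) hW
    have hSW : (f (n + 1)).S = true ↔ (n + 1) % (m * (m + 1)) = 0 := by
      rw [hf (n + 1) (by omega), marks_iff]
    rw [res_fl_succ, res_some', exists_step1_fe, step1_pick m hf rfl]
    have hpick : (∃ i ≤ n + 1, (a + (n + 1 - i)) % m = 0 ∧
          i / (m * (m + 1)) + (if r = true then 0 else 1) = (n + 1) / (m * (m + 1)) ∧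
          x = .info (f i).c (f i).p (i % (m + 1))) ↔
        (a = 0 ∧ r = true ∧ x = .info (f (n + 1)).c (f (n + 1)).p ((n + 1) % (m + 1))) ∨
        (∃ i ≤ n, ((a + 1) % m + (n - i)) % m = 0 ∧
          i / (m * (m + 1)) + (if r = true then 0 else 1) = (n + 1) / (m * (m + 1)) ∧
          x = .info (f i).c (f i).p (i % (m + 1))) := by
      constructor
      · rintro ⟨i, hi, h1, h2, h3⟩
        rcases Nat.lt_or_ge n i with hlt | hge
        · have hi' : i = n + 1 := by omega
          subst hi'
          left
          refine ⟨by simpa [Nat.mod_eq_of_lt ha] using h1, ?_, h3⟩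
          by_contra hr
          simp [hr] at h2
        · right
          refine ⟨i, hge, ?_, h2, h3⟩
          rw [Nat.mod_add_mod, ← h1]
          congr 1
          omega
      · rintro (⟨h1, h2, h3⟩ | ⟨i, hi, h1, h2, h3⟩)
        · exact ⟨n + 1, le_rfl, by simp [h1], by simp [h2], h3⟩
        · refine ⟨i, by omega, ?_, h2, h3⟩
          rw [Nat.mod_add_mod] at h1
          rw [← h1]
          congr 1
          omega
    rw [hpick, or_assoc]
    refine or_congr_right ?_
    by_cases hS : (f (n + 1)).S = true
    · have hS' := hSW.1 hS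
      rw [if_pos hS'] at hd
      cases r with
      | true =>
        constructor
        · intro h
          exact absurd h (step1_none m (by rw [st_fe_S m rfl hS]; rfl))
        · rintro (⟨i, hi, h1, h2, h3⟩ | ⟨h1, h2, h3⟩)
          · exfalso
            have : i / (m * (m + 1)) ≤ n / (m * (m + 1)) := Nat.div_le_div_right hi
            simp only [if_true] at h2
            omega
          · simp at h2
      | false =>
        rw [step1_inl m (y' := .fe ((a + 1) % m) true) (by rw [st_fe_S m rfl hS]; rfl),
          ih _ _ hf' (Nat.mod_lt _ hm)]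
        constructor
        · rintro (⟨i, hi, h1, h2, h3⟩ | ⟨_, h2, _⟩)
          · left
            refine ⟨i, hi, h1, ?_, h3⟩
            simp only [if_true] at h2
            simp only [Bool.false_eq_true, if_false]
            omega
          · simp at h2
        · rintro (⟨i, hi, h1, h2, h3⟩ | ⟨h1, h2, h3⟩)
          · left
            refine ⟨i, hi, h1, ?_, h3⟩
            simp only [Bool.false_eq_true, if_false] at h2
            simp only [if_true]
            omega
          · rw [h3] at hd
            exact absurd hd (Nat.succ_ne_zero _)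
    · have hS' : ¬ (n + 1) % (m * (m + 1)) = 0 := fun h => hS (hSW.2 h)
      rw [if_neg hS', Nat.add_zero] at hd
      rw [step1_inl m (y' := .fe ((a + 1) % m) r) (by rw [st_fe_nS m rfl (by simpa using hS)]),
        ih _ _ hf' (Nat.mod_lt _ hm), hd]

end Pool.Agent.P0036f5v4
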