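import Pool.Agent.Lib.P0036f5v4.Gen

/-!
# Upper bound for one-letter alphabets

MP_0036f5 (owner helper88).  Every 1-limited automaton of size at most `n` over a one-letter alphabet has an
equivalent deterministic one of size at most `2 ^ (4 n ^ 2)`.

The block program of `P0036f5v2.Savitch` for the table automaton (with `N` states), but without divide and conquer:
as there is only one letter, the relation of a word is given by its length, so it is a constant of the program.
-/

set_option autoImplicit false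

namespace Pool.Agent.P0036f5v4

open Classical Pool.Agent.P0036f5v2

namespace UnaryAux

variable {S : Type} (𝒩 : NFA Unit S) (N : ℕ) (st : ℕ → S)

theorem eq_rep (u : List Unit) : List.replicate u.length () = u :=
  (List.eq_replicate_iff.2 ⟨rfl, fun _ _ => rfl⟩).symm

/-- the block program for one letter -/
noncomputable def uProg : Prog Unit where
  nxt := fun r => if r + 1 < 2 * N then r + 1 else N
  b0 := decide (st 0 ∈ 𝒩.start)
  bit := fun r =>
    if r < N then .ret (decide (st r ∈ 𝒩.start))
    else .orN (fun x => (askbit (r - x)).and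
      (.ret (decide (st (r - N) ∈ 𝒩.evalFrom {st x} (List.replicate N ()))))) N
  acc := fun r =>
    if r < N then .ret (decide (List.replicate r () ∈ 𝒩.accepts))
    else .orN (fun x => (askbit (r - x)).and
      (.ret (decide (∃ t ∈ 𝒩.accept, t ∈ 𝒩.evalFrom {st x} (List.replicate r ()))))) N

theorem ph_uProg (hN : 0 < N) (i : ℕ) :
    (uProg 𝒩 N st).ph i = if i < N then i else N + i % N := by
  rw [← ph_blockProg 𝒩 N st 0 hN i]
  induction i with
  | zero => rfl
  | succ i ih =>
    rw [Prog.ph, Prog.ph, ih]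
    rfl

theorem wi_bit (r : ℕ) : ((uProg 𝒩 N st).bit r).Within r := by
  simp only [uProg]
  split_ifs with h
  · trivial
  · exact DT.within_orN _ _ fun x hx =>
      DT.within_and (within_askbit (by omega) (by omega)) trivial

theorem wi_acc (r : ℕ) : ((uProg 𝒩 N st).acc r).Within r := by
  simp only [uProg]
  split_ifs with h
  · trivial
  · exact DT.within_orN _ _ fun x hx =>
      DT.within_and (within_askbit (by omega) (by omega)) trivial

theorem ndb_le (r : ℕ) : ((uProg 𝒩 N st).bit r).nd ≤ N := by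
  simp only [uProg]
  split_ifs with h
  · simp [DT.nd_ret]
  · refine (DT.nd_orN_le _ N 1 fun x _ => (DT.nd_and_le _ _).trans ?_).trans (by omega)
    rw [DT.nd_ret]
    exact nd_askbit_le _

theorem nda_le (r : ℕ) : ((uProg 𝒩 N st).acc r).nd ≤ N := by
  simp only [uProg]
  split_ifs with h
  · simp [DT.nd_ret]
  · refine (DT.nd_orN_le _ N 1 fun x _ => (DT.nd_and_le _ _).trans ?_).trans (by omega)
    rw [DT.nd_ret]
    exact nd_askbit_le _

/-- The machine of the block program recognises the language of the automaton. -/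
theorem uProg_lang (cv : Bool) (hN : 0 < N) (hst : ∀ s, ∃ x < N, st x = s) :
    (uProg 𝒩 N st).mach.lang cv = 𝒩.accepts := by
  ext w
  -- reachable states at block starts
  have hblock : ∀ (i x : ℕ), i ≤ w.length → N ≤ i → x < N →
      (askbit (N + i % N - x)).eval (Prog.view w (bitOf 𝒩 N st w) i) =
        decide (st x ∈ 𝒩.evalFrom 𝒩.start (w.take (N * (i / N - 1)))) := by
    intro i x hi hNi hx
    obtain ⟨a1, a2, a3⟩ := block_arith N hN i hNi
    rw [eval_askbit_view _ _ _ _ (by omega)]
    have e1 : i - (N + i % N - x) = x + N * (i / N - 1) := by omega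
    rw [e1, bitOf, Nat.add_mul_mod_self_left, Nat.mod_eq_of_lt hx,
      Nat.add_mul_div_left _ _ hN, Nat.div_eq_of_lt hx, Nat.zero_add]
  rw [Prog.mem_lang _ cv w (bitOf 𝒩 N st w)]
  · -- acceptance
    rw [ph_uProg 𝒩 N st hN]
    by_cases hlt : w.length < N
    · rw [if_pos hlt]
      simp only [uProg]
      rw [if_pos hlt, DT.eval, decide_eq_true_eq, eq_rep]
    · rw [if_neg hlt, NFA.mem_accepts]
      push Not at hlt
      have hm := Nat.mod_lt w.length hN
      obtain ⟨a1, a2, a3⟩ := block_arith N hN w.length hlt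
      have hr : ¬ (N + w.length % N < N) := by omega
      simp only [uProg]
      rw [if_neg hr, DT.eval_orN]
      have hR : List.replicate (N + w.length % N) () = w.drop (N * (w.length / N - 1)) := by
        have : (w.drop (N * (w.length / N - 1))).length = N + w.length % N := by
          rw [List.length_drop]; omega
        rw [← this, eq_rep]
      rw [hR]
      have hsplit : 𝒩.evalFrom 𝒩.start w =
          𝒩.evalFrom (𝒩.evalFrom 𝒩.start (w.take (N * (w.length / N - 1))))
            (w.drop (N * (w.length / N - 1))) := by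
        rw [← NFA.evalFrom_append, List.take_append_drop]
      constructor
      · rintro ⟨x, hx, h⟩
        rw [DT.eval_and, Bool.and_eq_true, hblock _ _ le_rfl hlt hx, decide_eq_true_eq, DT.eval,
          decide_eq_true_eq] at h
        obtain ⟨t, ht, h'⟩ := h.2
        refine ⟨t, ht, ?_⟩
        rw [hsplit]
        exact NFA.mem_evalFrom_iff_exists.2 ⟨st x, h.1, h'⟩
      · rintro ⟨t, ht, h⟩
        rw [hsplit] at h
        obtain ⟨s, hs, h'⟩ := NFA.mem_evalFrom_iff_exists.1 h
        obtain ⟨x, hx, rfl⟩ := hst s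
        refine ⟨x, hx, ?_⟩
        rw [DT.eval_and, Bool.and_eq_true, hblock _ _ le_rfl hlt hx, decide_eq_true_eq, DT.eval,
          decide_eq_true_eq]
        exact ⟨hs, t, ht, h'⟩
  · -- the initial bit
    simp [bitOf, uProg]
  · -- the bits
    intro i hi
    rw [ph_uProg 𝒩 N st hN]
    by_cases hlt : i + 1 < N
    · rw [if_pos hlt]
      simp only [uProg]
      rw [if_pos hlt]
      refine ⟨trivial, ?_⟩
      rw [bitOf, Nat.mod_eq_of_lt hlt, Nat.div_eq_of_lt hlt]
      simp [DT.eval]
    · rw [if_neg hlt]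
      push Not at hlt
      have hm := Nat.mod_lt (i + 1) hN
      obtain ⟨a1, a2, a3⟩ := block_arith N hN (i + 1) hlt
      have hr : ¬ (N + (i + 1) % N < N) := by omega
      refine ⟨(wi_bit 𝒩 N st _).mono a1, ?_⟩
      simp only [uProg]
      rw [if_neg hr, Bool.eq_iff_iff, DT.eval_orN, bitOf, decide_eq_true_eq]
      have hR : List.replicate N () = (w.drop (N * ((i + 1) / N - 1))).take N := by
        have : ((w.drop (N * ((i + 1) / N - 1))).take N).length = N := by
          rw [List.length_take, List.length_drop]; omega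
        conv_lhs => rw [← this]
        rw [eq_rep]
      have hsplit : 𝒩.evalFrom 𝒩.start (w.take (N * ((i + 1) / N))) =
          𝒩.evalFrom (𝒩.evalFrom 𝒩.start (w.take (N * ((i + 1) / N - 1))))
            ((w.drop (N * ((i + 1) / N - 1))).take N) := by
        rw [← NFA.evalFrom_append, ← a3, List.take_add]
      have hsub : N + (i + 1) % N - N = (i + 1) % N := by omega
      rw [hsplit, hsub, ← hR]
      constructor
      · rintro ⟨x, hx, h⟩
        rw [DT.eval_and, Bool.and_eq_true, hblock _ _ hi hlt hx, decide_eq_true_eq, DT.eval,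
          decide_eq_true_eq] at h
        exact NFA.mem_evalFrom_iff_exists.2 ⟨st x, h.1, h.2⟩
      · intro h
        obtain ⟨s, hs, h'⟩ := NFA.mem_evalFrom_iff_exists.1 h
        obtain ⟨x, hx, rfl⟩ := hst s
        refine ⟨x, hx, ?_⟩
        rw [DT.eval_and, Bool.and_eq_true, hblock _ _ hi hlt hx, decide_eq_true_eq, DT.eval,
          decide_eq_true_eq]
        exact ⟨hs, h'⟩
  · -- the acceptance tree looks only at visited cells
    rw [ph_uProg 𝒩 N st hN]
    by_cases hlt : w.length < N
    · rw [if_pos hlt]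
      exact wi_acc 𝒩 N st _
    · rw [if_neg hlt]
      push Not at hlt
      obtain ⟨a1, a2, a3⟩ := block_arith N hN w.length hlt
      exact (wi_acc 𝒩 N st _).mono a1

end UnaryAux

open UnaryAux in
/-- **Upper bound, one letter.** -/
theorem unary_upper (M : LA Unit) (cv : Bool) (n : ℕ) (hM : M.toMach.size ≤ n) :
    ∃ D : LA Unit, D.toMach.Det ∧ (∀ cv', D.toMach.lang cv' = M.toMach.lang cv) ∧
      D.toMach.size ≤ 2 ^ (4 * n ^ 2) := by
  have fQ := M.finQ
  have fW := M.finW
  have hsize : Nat.card M.Q + Nat.card Unit + Nat.card (Sym Unit M.W) + 1 ≤ n := by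
    refine le_trans ?_ hM
    unfold Mach.size
    omega
  rw [card_sym Unit M.W] at hsize
  set k := Nat.card M.Q with hk
  have hk1 : 0 < k := Nat.card_pos_iff.2 ⟨⟨M.qI⟩, fQ⟩
  -- the states of the table automaton
  have fS : Finite (Set (M.Q × M.Q) × M.Q) := inferInstance
  have hcard : Nat.card (Set (M.Q × M.Q) × M.Q) = 2 ^ (k * k) * k := by
    have := Fintype.ofFinite (M.Q × M.Q)
    rw [Nat.card_prod, Nat.card_eq_fintype_card (α := Set (M.Q × M.Q)), Fintype.card_set,
      ← Nat.card_eq_fintype_card (α := M.Q × M.Q), Nat.card_prod]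
  set N := Nat.card (Set (M.Q × M.Q) × M.Q) with hN
  have hN0 : 0 < N := by rw [hcard]; positivity
  let e : (Set (M.Q × M.Q) × M.Q) ≃ Fin N := Finite.equivFin _
  let st : ℕ → Set (M.Q × M.Q) × M.Q := fun x => if h : x < N then e.symm ⟨x, h⟩ else (∅, M.qI)
  have hst : ∀ s, ∃ x < N, st x = s := by
    intro s
    refine ⟨(e s).1, (e s).2, ?_⟩
    simp [st]
  obtain ⟨L, hL, hLl, hLs⟩ := exists_la_of_prog (uProg (M.toMach.toNFA cv) N st) (2 * N) (2 * N) N
    (by omega)
    (by
      intro r hr
      simp only [uProg]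
      split_ifs <;> omega)
    (fun r hr => (wi_bit _ N st r).mono hr.le)
    (fun r hr => (wi_acc _ N st r).mono hr.le)
    (fun r _ => ndb_le _ N st r) (fun r _ => nda_le _ N st r)
  refine ⟨L, hL, fun cv' => by rw [hLl cv', uProg_lang _ N st cv' hN0 hst, Mach.toNFA_accepts],
    hLs.trans ?_⟩
  have hU : Nat.card Unit = 1 := by simp
  rw [hU]
  have h1 : (2 * (2 * N) + 2 * (2 * N * ((2 + 2 * (2 * N) * N) * (2 * N + 2))) + 1) *
      (15 * 1 + 17) + (4 * 1 + 4) ≤ 2 ^ 12 * N ^ 4 := by
    have e1 : N ≤ N ^ 4 := Nat.le_self_pow (by norm_num) N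
    have e2 : N ^ 2 ≤ N ^ 4 := Nat.pow_le_pow_right hN0 (by norm_num)
    have e3 : N ^ 3 ≤ N ^ 4 := Nat.pow_le_pow_right hN0 (by norm_num)
    have e4 : (2 * (2 * N) + 2 * (2 * N * ((2 + 2 * (2 * N) * N) * (2 * N + 2))) + 1) *
      (15 * 1 + 17) + (4 * 1 + 4) =
        1024 * N ^ 4 + 1024 * N ^ 3 + 512 * N ^ 2 + 640 * N + 40 := by ring
    rw [e4]
    norm_num
    omega
  refine h1.trans ?_
  have h2 : N ≤ 2 ^ (k ^ 2 + k) := by
    rw [hcard, pow_add, sq]
    exact Nat.mul_le_mul_left _ Nat.lt_two_pow_self.le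
  calc 2 ^ 12 * N ^ 4 ≤ 2 ^ 12 * (2 ^ (k ^ 2 + k)) ^ 4 :=
        Nat.mul_le_mul_left _ (Nat.pow_le_pow_left h2 4)
    _ = 2 ^ (12 + (k ^ 2 + k) * 4) := by rw [← pow_mul, ← pow_add]
    _ ≤ 2 ^ (4 * n ^ 2) := by
        refine Nat.pow_le_pow_right (by norm_num) ?_
        obtain ⟨m, hm⟩ : ∃ m, n = k + 3 + m := ⟨n - (k + 3), by omega⟩
        rw [hm]
        nlinarith

end Pool.Agent.P0036f5v4
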