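import Pool.Agent.Lib.P0036f5v4.USize
import Pool.Agent.Lib.P0036f5v4.UnaryUpper
import Pool.Agent.Lib.P0036f5v4.BddUpper
import Pool.Agent.Lib.P0036f5v2.Lower

/-!
# The exponent over a one-letter alphabet is `2`
-/

set_option autoImplicit false

namespace Pool.Agent.P0036f5v4

open Relation Pool.Agent.P0036f5v2

/-- the language of the counter machine -/
theorem cm_lang_iff {m : ℕ} (hm : 0 < m) (cv : Bool) (w : List Unit) :
    w ∈ (cm m).mach.lang cv ↔ ¬ ∃ n, w.length = 6 * (n + 1) ∧ per m ∣ n := by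
  rw [cm_lang m hm cv (exists_good m hm) w]
  simp only [good_end_iff m hm]

theorem per_pos {m : ℕ} (hm : 0 < m) : 0 < per m :=
  Nat.mul_pos (Nat.mul_pos hm (by omega)) (Nat.lcmUpto_pos _)

/-- two different short words have different residuals -/
theorem residuals {m : ℕ} (hm : 0 < m) (cv : Bool) (i j : ℕ) (hij : i < j) (hj : j < 6 * per m) :
    ∃ v : List Unit, (List.replicate i () ++ v ∉ (cm m).mach.lang cv) ∧
      List.replicate j () ++ v ∈ (cm m).mach.lang cv := by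
  refine ⟨List.replicate (6 * (per m + 1) - i) (), ?_, ?_⟩
  · rw [cm_lang_iff hm, not_not]
    refine ⟨per m, ?_, dvd_rfl⟩
    rw [List.length_append, List.length_replicate, List.length_replicate]
    omega
  · rw [cm_lang_iff hm]
    rintro ⟨n, hn, q, rfl⟩
    rw [List.length_append, List.length_replicate, List.length_replicate] at hn
    have h1 : j + 6 * per m = i + 6 * (per m * q) := by omega
    rcases q with _ | _ | q
    · simp at h1; omega
    · simp at h1; omega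
    · have h2 : per m * (q + 1 + 1) = per m * q + 2 * per m := by ring
      have h3 : 0 ≤ per m * q := Nat.zero_le _
      omega

/-- Any deterministic 1-limited automaton for the language of the counter machine is large. -/
theorem unary_det_lower {m : ℕ} (hm : 1 ≤ m) (D : LA Unit) (hD : D.toMach.Det) (cv : Bool)
    (hL : D.toMach.lang cv = (cm m).mach.lang cv) :
    2 ^ (m * (m + 1)) ≤ D.toMach.size ^ 2 + m * (m + 1) + 1 := by
  have fQ := D.finQ
  have fW := D.finW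
  have h := D.toMach.card_le_of_residuals cv hD (ι := Fin (6 * per m))
    (fun i => List.replicate i.1 ()) (by
      intro i j hne
      rw [hL]
      rcases Nat.lt_or_gt_of_ne (fun h => hne (Fin.ext h)) with h | h
      · obtain ⟨v, h1, h2⟩ := residuals hm cv i.1 j.1 h j.2
        exact ⟨v, fun hv => h1 (hv.2 h2)⟩
      · obtain ⟨v, h1, h2⟩ := residuals hm cv j.1 i.1 h i.2
        exact ⟨v, fun hv => h1 (hv.1 h2)⟩)
  rw [Nat.card_eq_fintype_card, Fintype.card_fin] at h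
  set k := Nat.card D.Q with hk
  set W := m * (m + 1) with hWdef
  have hW : 2 ≤ W := by rw [hWdef]; nlinarith
  have hsz : k + 1 ≤ D.toMach.size := by
    unfold Mach.size
    omega
  have hper : 2 ^ 2 ^ W ≤ 6 * per m * 2 ^ W := by
    have h1 := Chebyshev.two_pow_le_mul_lcmUpto (2 ^ W)
    have h2 : 6 * per m * 2 ^ W = Nat.lcmUpto (2 ^ W) * (6 * W * 2 ^ W) := by
      unfold per
      ring
    rw [h2]
    refine h1.trans ?_
    rw [Nat.mul_comm]
    refine Nat.mul_le_mul_left _ ?_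
    have h3 : 1 ≤ 2 ^ W := Nat.one_le_two_pow
    nlinarith
  have h1 : 2 ^ (k * k) * k + 1 ≤ 2 ^ (k * k + k + 1) := by
    have h2 : k ≤ 2 ^ k := Nat.lt_two_pow_self.le
    have h3 : 2 ^ (k * k + k + 1) = 2 ^ (k * k) * 2 ^ k + 2 ^ (k * k) * 2 ^ k := by ring
    have h4 : 2 ^ (k * k) * k ≤ 2 ^ (k * k) * 2 ^ k := Nat.mul_le_mul_left _ h2
    have h5 : 1 ≤ 2 ^ (k * k) * 2 ^ k := Nat.mul_pos (by positivity) (by positivity)
    omega
  have h6 : 2 ^ 2 ^ W ≤ 2 ^ (k * k + k + 1 + W) := by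
    rw [pow_add 2 (k * k + k + 1) W]
    exact hper.trans (Nat.mul_le_mul_right _ (h.trans h1))
  have h7 : 2 ^ W ≤ k * k + k + 1 + W := (Nat.pow_le_pow_iff_right (by norm_num)).1 h6
  have h8 : (k + 1) ^ 2 ≤ D.toMach.size ^ 2 := Nat.pow_le_pow_left hsz 2
  have h9 : k * k + k + 1 ≤ (k + 1) ^ 2 := by nlinarith
  omega

/-- a small machine over a one-letter alphabet -/
theorem exists_unary_six : ∃ M : LA Unit, M.toMach.size ≤ 6 := by
  let M : LA Unit := ⟨⟨Unit, Empty, fun _ _ => ∅, (), ∅⟩, inferInstance, inferInstance⟩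
  refine ⟨M, ?_⟩
  have h1 : Nat.card M.toMach.Q = 1 := Nat.card_unique (α := Unit)
  have h2 : Nat.card (Sym Unit M.toMach.W) = 3 := by
    have := card_sym Unit Empty
    simpa using this
  have h3 : Nat.card {t : (M.toMach.Q × Sym Unit M.toMach.W) ×
      (M.toMach.Q × (Unit ⊕ M.toMach.W) × Bool) // t.2 ∈ M.toMach.δ t.1.1 t.1.2} = 0 := by
    have : IsEmpty {t : (M.toMach.Q × Sym Unit M.toMach.W) ×
      (M.toMach.Q × (Unit ⊕ M.toMach.W) × Bool) // t.2 ∈ M.toMach.δ t.1.1 t.1.2} :=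
      ⟨fun t => t.2⟩
    exact Nat.card_of_isEmpty
  have h4 : M.toMach.F.ncard = 0 := Set.ncard_empty _
  unfold Mach.size
  rw [h1, h2, h3, h4]

/-- the least size of an equivalent deterministic machine exists -/
theorem exists_least {A : Type} [Finite A] (M : LA A) (cv : Bool) :
    ∃ s, IsLeast {t | ∃ D : LA A, D.toMach.Det ∧ D.toMach.lang cv = M.toMach.lang cv ∧
      D.toMach.size = t} s := by
  obtain ⟨s, ⟨A', fA, M', hM', hs⟩, _⟩ := exists_cost M cv (n := M.toMach.size) le_rfl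
  have hne : {t | ∃ D : LA A, D.toMach.Det ∧ D.toMach.lang cv = M.toMach.lang cv ∧
      D.toMach.size = t}.Nonempty := by
    obtain ⟨D, hD, hL, _⟩ := upper M cv _ le_rfl
    exact ⟨_, D, hD, hL cv, rfl⟩
  exact ⟨sInf _, Nat.sInf_mem hne, fun t ht => Nat.sInf_le ht⟩

/-- the lower bound: an equivalent deterministic machine for a suitable machine of size `n` over a
one-letter alphabet is large -/
theorem exists_hard (cv : Bool) (n : ℕ) (hn : 6 ≤ n) :
    ∃ M : LA Unit, M.toMach.size ≤ n ∧ ∀ D : LA Unit, D.toMach.Det →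
      D.toMach.lang cv = M.toMach.lang cv → 2 ^ ((n / 120000) ^ 2) ≤ D.toMach.size := by
  rcases Nat.eq_zero_or_pos (n / 120000) with h0 | h0
  · obtain ⟨M, hM⟩ := exists_unary_six
    refine ⟨M, hM.trans hn, fun D _ _ => ?_⟩
    rw [h0]
    unfold Mach.size
    simp only [ne_eq, OfNat.ofNat_ne_zero, not_false_eq_true, zero_pow, pow_zero]
    omega
  · set t := n / 120000 with ht
    obtain ⟨M, hL, hsz⟩ := exists_unary (2 * t) (by omega)
    refine ⟨M, by omega, fun D hD hDL => ?_⟩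
    set s := D.toMach.size with hs
    have h2 := unary_det_lower (m := 2 * t) (by omega) D hD cv (by rw [hDL, hL cv])
    rw [← hs] at h2
    -- `2 ^ W ≤ s ^ 2 + W + 1` with `W = 2 t (2 t + 1)`
    set W := 2 * t * (2 * t + 1) with hW
    have h3 : 2 * t ^ 2 + 2 ≤ W := by rw [hW]; nlinarith
    obtain ⟨r, hr⟩ := Nat.exists_eq_add_of_le h3
    have h4 : W + 1 ≤ 2 ^ (W - 1) + 1 := by
      have : W - 1 < 2 ^ (W - 1) := Nat.lt_two_pow_self
      omega
    have h5 : 2 ^ W = 2 ^ (W - 1) + 2 ^ (W - 1) := by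
      have : W = (W - 1) + 1 := by omega
      conv_lhs => rw [this, pow_succ]
      ring
    have h6 : 2 ^ (W - 1) ≤ s ^ 2 + 1 := by omega
    have h7 : 2 ^ (2 * t ^ 2 + 1) ≤ 2 ^ (W - 1) := Nat.pow_le_pow_right (by norm_num) (by omega)
    have h8 : 2 ^ (2 * t ^ 2 + 1) = 2 ^ (2 * t ^ 2) + 2 ^ (2 * t ^ 2) := by
      rw [pow_succ]; ring
    have h9 : 1 ≤ 2 ^ (2 * t ^ 2) := Nat.one_le_two_pow
    have h10 : (2 ^ (t ^ 2)) ^ 2 ≤ s ^ 2 := by
      rw [← pow_mul, Nat.mul_comm]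
      omega
    exact (Nat.pow_le_pow_iff_left (by norm_num)).1 h10

theorem two_pow_two_pow_le_per {m : ℕ} (hm : 1 ≤ m) :
    2 ^ 2 ^ (m * (m + 1)) ≤ 6 * per m * 2 ^ (m * (m + 1)) := by
  set W := m * (m + 1) with hWdef
  have hW : 2 ≤ W := by rw [hWdef]; nlinarith
  have h1 := Chebyshev.two_pow_le_mul_lcmUpto (2 ^ W)
  have h2 : 6 * per m * 2 ^ W = Nat.lcmUpto (2 ^ W) * (6 * W * 2 ^ W) := by
    unfold per
    ring
  rw [h2]
  refine h1.trans ?_
  rw [Nat.mul_comm]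
  refine Nat.mul_le_mul_left _ ?_
  have h3 : 1 ≤ 2 ^ W := Nat.one_le_two_pow
  nlinarith

/-- one-way deterministic automata for a suitable machine of size `n` over a one-letter alphabet
need a double exponential number of states -/
theorem exists_hard_dfa (cv : Bool) (n : ℕ) (hn : 6 ≤ n) :
    ∃ M : LA Unit, M.toMach.size ≤ n ∧ ∀ (S : Type) [Fintype S] (D : DFA Unit S),
      D.accepts = M.toMach.lang cv → 2 ^ 2 ^ ((n / 120000) ^ 2) ≤ 2 * Fintype.card S := by
  rcases Nat.eq_zero_or_pos (n / 120000) with h0 | h0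
  · obtain ⟨M, hM⟩ := exists_unary_six
    refine ⟨M, hM.trans hn, fun S _ D _ => ?_⟩
    rw [h0]
    have : 0 < Fintype.card S := Fintype.card_pos_iff.2 ⟨D.start⟩
    simp only [ne_eq, OfNat.ofNat_ne_zero, not_false_eq_true, zero_pow, pow_zero, pow_one]
    omega
  · set t := n / 120000 with ht
    obtain ⟨M, hL, hsz⟩ := exists_unary (2 * t) (by omega)
    refine ⟨M, by omega, fun S _ D hDL => ?_⟩
    have hinj : Function.Injective
        (fun i : Fin (6 * per (2 * t)) => D.eval (List.replicate i.1 ())) := by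
      intro i j hij
      by_contra hne
      have key : ∀ a b : ℕ, a < b → b < 6 * per (2 * t) →
          D.eval (List.replicate a ()) = D.eval (List.replicate b ()) → False := by
        intro a b hab hb heq
        obtain ⟨v, h1, h2⟩ := residuals (m := 2 * t) (by omega) cv a b hab hb
        rw [← hL cv, ← hDL, DFA.mem_accepts] at h1 h2
        apply h1
        unfold DFA.eval at heq h1 h2 ⊢
        rw [DFA.evalFrom_of_append] at h1 h2 ⊢
        rw [heq]
        exact h2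
      rcases Nat.lt_or_gt_of_ne (fun h => hne (Fin.ext h)) with h | h
      · exact key i.1 j.1 h j.2 hij
      · exact key j.1 i.1 h i.2 hij.symm
    have hc := Fintype.card_le_of_injective _ hinj
    rw [Fintype.card_fin] at hc
    have h1 := two_pow_two_pow_le_per (m := 2 * t) (by omega)
    set W := 2 * t * (2 * t + 1) with hW
    have h2 : 2 ^ 2 ^ W ≤ Fintype.card S * 2 ^ W := h1.trans (Nat.mul_le_mul_right _ hc)
    -- `2 ^ W - W ≥ 2 ^ (t ^ 2)`
    have h3 : t ^ 2 + 1 ≤ W := by rw [hW]; nlinarith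
    have h4 : 2 ^ t ^ 2 + W ≤ 2 ^ W := by
      have e1 : 2 ^ t ^ 2 ≤ 2 ^ (W - 1) := Nat.pow_le_pow_right (by norm_num) (by omega)
      have e2 : W - 1 < 2 ^ (W - 1) := Nat.lt_two_pow_self
      have e3 : 2 ^ W = 2 ^ (W - 1) + 2 ^ (W - 1) := by
        have : W = (W - 1) + 1 := by omega
        conv_lhs => rw [this, pow_succ]
        ring
      omega
    have h5 : 2 ^ 2 ^ t ^ 2 * 2 ^ W ≤ Fintype.card S * 2 ^ W := by
      rw [← pow_add]
      exact (Nat.pow_le_pow_right (by norm_num) h4).trans h2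
    have h6 := Nat.le_of_mul_le_mul_right h5 (by positivity)
    omega

/-- **Over a one-letter alphabet the cost is `2 ^ Θ(n ^ 2)`.** -/
theorem unary_main (cv : Bool) (n : ℕ) (hn : 6 ≤ n) :
    ∃ d, IsGreatest (costsOn Unit cv n) d ∧ 2 ^ ((n / 120000) ^ 2) ≤ d ∧ d ≤ 2 ^ (4 * n ^ 2) := by
  have hle : ∀ s ∈ costsOn Unit cv n, s ≤ 2 ^ (4 * n ^ 2) := by
    rintro s ⟨M, hM, hs⟩
    obtain ⟨D, hD, hL, hsz⟩ := unary_upper M cv n hM
    exact (hs.2 ⟨D, hD, hL cv, rfl⟩).trans hsz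
  have hbdd : BddAbove (costsOn Unit cv n) := ⟨_, hle⟩
  obtain ⟨M, hM, hlow⟩ := exists_hard cv n hn
  obtain ⟨s, hs⟩ := exists_least M cv
  have hmem : s ∈ costsOn Unit cv n := ⟨M, hM, hs⟩
  have hmax := Nat.sSup_mem ⟨s, hmem⟩ hbdd
  refine ⟨sSup (costsOn Unit cv n), ⟨hmax, fun s hs => le_csSup hbdd hs⟩, ?_, hle _ hmax⟩
  obtain ⟨D, hD, hDL, rfl⟩ := hs.1
  exact (hlow D hD hDL).trans (le_csSup hbdd hmem)

/-- every language over a one-letter alphabet is bounded -/
theorem bdd_unary (k l : ℕ) (hk : 1 ≤ k) (hl : 1 ≤ l) (L : Language Unit) : Bdd k l Unit L := by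
  have key : ∀ w : List Unit, w ∈ (stars [[()]] : Language Unit) := by
    intro w
    simp only [stars, List.map_cons, List.map_nil, List.prod_cons, List.prod_nil, mul_one]
    rw [Language.mem_kstar]
    refine ⟨w.map fun _ => [()], ?_, ?_⟩
    · induction w with
      | nil => rfl
      | cons a w ih => simpa using ih
    · intro y hy
      obtain ⟨a, _, rfl⟩ := List.mem_map.1 hy
      rfl
  exact ⟨[[()]], by simpa using hk, by simpa using hl, fun w _ => key w⟩

/-- **For languages contained in `w₁* ⋯ wₖ*`.** -/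
theorem bdd_main (cv : Bool) (n k l : ℕ) (hn : 6 ≤ n) (hk : 1 ≤ k) (hl : 1 ≤ l) :
    ∃ d, IsGreatest (costsIn (Bdd k l) cv n) d ∧ 2 ^ ((n / 120000) ^ 2) ≤ d ∧
      d ≤ l * 2 ^ ((2 * Nat.clog 2 k + 6) * n ^ 2) := by
  have hle : ∀ s ∈ costsIn (Bdd k l) cv n, s ≤ l * 2 ^ ((2 * Nat.clog 2 k + 6) * n ^ 2) := by
    rintro s ⟨A, fA, M, hM, ⟨u, hu, hul, hLu⟩, hs⟩
    obtain ⟨D, hD, h1, h2, hsz⟩ := bdd_upper M cv n k l hM hl u hu hul
    refine (hs.2 ⟨D, hD, ?_, rfl⟩).trans hsz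
    ext w
    exact ⟨fun h => h1 cv w h, fun h => h2 cv w (hLu h) h⟩
  have hbdd : BddAbove (costsIn (Bdd k l) cv n) := ⟨_, hle⟩
  obtain ⟨M, hM, hlow⟩ := exists_hard cv n hn
  obtain ⟨s, hs⟩ := exists_least M cv
  have hmem : s ∈ costsIn (Bdd k l) cv n :=
    ⟨Unit, inferInstance, M, hM, bdd_unary k l hk hl _, hs⟩
  have hmax := Nat.sSup_mem ⟨s, hmem⟩ hbdd
  refine ⟨sSup (costsIn (Bdd k l) cv n), ⟨hmax, fun s hs => le_csSup hbdd hs⟩, ?_, hle _ hmax⟩
  obtain ⟨D, hD, hDL, rfl⟩ := hs.1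
  exact (hlow D hD hDL).trans (le_csSup hbdd hmem)

/-- **One-letter alphabets and bounded languages.** -/
theorem chain_main (cv : Bool) (n k l : ℕ) (hn : 6 ≤ n) (hk : 1 ≤ k) (hl : 1 ≤ l) :
    ∃ d₁ d, IsGreatest (costsOn Unit cv n) d₁ ∧ IsGreatest (costsIn (Bdd k l) cv n) d ∧
      2 ^ ((n / 120000) ^ 2) ≤ d₁ ∧ d₁ ≤ d ∧ d ≤ l * 2 ^ ((2 * Nat.clog 2 k + 6) * n ^ 2) := by
  obtain ⟨d₁, h1, h2, _⟩ := unary_main cv n hn
  obtain ⟨d, h3, _, h4⟩ := bdd_main cv n k l hn hk hl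
  refine ⟨d₁, d, h1, h3, h2, ?_, h4⟩
  obtain ⟨M, hM, hs⟩ := h1.1
  exact h3.2 ⟨Unit, inferInstance, M, hM, bdd_unary k l hk hl _, hs⟩

end Pool.Agent.P0036f5v4
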