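import Pool.Agent.Lib.P0036f5v4.UArith

/-!
# The size of the counter machine
-/

set_option autoImplicit false

namespace Pool.Agent.P0036f5v4

open Relation Pool.Agent.P0036f5v2

variable (m : ℕ)

instance : Fintype Tag := Fintype.ofEquiv (((Bool ⊕ Bool) ⊕ (Bool × Bool)) ⊕ Unit)
  { toFun := fun x => match x with
      | .inl (.inl (.inl s)) => .t1 s
      | .inl (.inl (.inr s)) => .t2 s
      | .inl (.inr (c, p)) => .t3 c p
      | .inr () => .t4
    invFun := fun x => match x with
      | .t1 s => .inl (.inl (.inl s))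
      | .t2 s => .inl (.inl (.inr s))
      | .t3 c p => .inl (.inr (c, p))
      | .t4 => .inr ()
    left_inv := by rintro (((_ | _) | ⟨_, _⟩) | ⟨⟩) <;> rfl
    right_inv := by rintro (_ | _ | ⟨_, _⟩ | _) <;> rfl }

/-- the states without parameter -/
def fixedStates : Set (OQ RS LW) :=
  {.fr .T, .fr .c1, .fr (.c2 true), .fr (.c2 false), .fr .c3, .fr .c4, .fr .vok, .fr .fok,
    .wk .a0, .wk .b0, .wk .h0, .wk .fin0, .done}

/-- the states with a parameter in `0, …, m` -/
def parState : ((Bool × Bool) ⊕ (Bool × Bool)) ⊕ (Bool ⊕ (Bool × Tag)) → ℕ → OQ RS LW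
  | .inl (.inl (c, p)), j => .fr (.info c p j)
  | .inl (.inr (c, p)), j => .wk (.m0 c p j)
  | .inr (.inl r), j => .wk (.fe j r)
  | .inr (.inr (w, t)), j => .wk (.sc w j t)

/-- the states that can occur -/
def ustates : Set (OQ RS LW) :=
  (fixedStates ∪ Set.range fun t : Tile => .wk (.h1 t)) ∪
    (fun x : (((Bool × Bool) ⊕ (Bool × Bool)) ⊕ (Bool ⊕ (Bool × Tag))) × ℕ => parState x.1 x.2) ''
      (Set.univ ×ˢ Set.Iic m)

theorem mem_u_fixed {q : OQ RS LW} (h : q ∈ fixedStates) : q ∈ ustates m := Or.inl (Or.inl h)

theorem mem_u_h1 (t : Tile) : .wk (.h1 t) ∈ ustates m := Or.inl (Or.inr ⟨t, rfl⟩)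

theorem mem_u_par (v : ((Bool × Bool) ⊕ (Bool × Bool)) ⊕ (Bool ⊕ (Bool × Tag))) {j : ℕ}
    (h : j ≤ m) : parState v j ∈ ustates m := Or.inr ⟨(v, j), ⟨trivial, h⟩, rfl⟩

theorem mem_u_info {c p : Bool} {j : ℕ} : OQ.fr (.info c p j) ∈ ustates m ↔ j ≤ m := by
  constructor
  · rintro ((h | ⟨t, h⟩) | ⟨⟨v, j'⟩, ⟨_, hj⟩, h⟩)
    · simp [fixedStates] at h
    · simp at h
    · rcases v with (⟨_, _⟩ | ⟨_, _⟩) | (_ | ⟨_, _⟩) <;> simp [parState] at h
      obtain ⟨_, _, rfl⟩ := h
      exact hj
  · intro h
    exact mem_u_par m (.inl (.inl (c, p))) h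

theorem mem_u_m0 {c p : Bool} {j : ℕ} : OQ.wk (.m0 c p j) ∈ ustates m ↔ j ≤ m := by
  constructor
  · rintro ((h | ⟨t, h⟩) | ⟨⟨v, j'⟩, ⟨_, hj⟩, h⟩)
    · simp [fixedStates] at h
    · simp at h
    · rcases v with (⟨_, _⟩ | ⟨_, _⟩) | (_ | ⟨_, _⟩) <;> simp [parState] at h
      obtain ⟨_, _, rfl⟩ := h
      exact hj
  · intro h
    exact mem_u_par m (.inl (.inr (c, p))) h

theorem mem_u_fe {r : Bool} {j : ℕ} : OQ.wk (.fe j r) ∈ ustates m ↔ j ≤ m := by
  constructor
  · rintro ((h | ⟨t, h⟩) | ⟨⟨v, j'⟩, ⟨_, hj⟩, h⟩)
    · simp [fixedStates] at h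
    · simp at h
    · rcases v with (⟨_, _⟩ | ⟨_, _⟩) | (_ | ⟨_, _⟩) <;> simp [parState] at h
      obtain ⟨rfl, _⟩ := h
      exact hj
  · intro h
    exact mem_u_par m (.inr (.inl r)) h

theorem mem_u_sc {w : Bool} {t : Tag} {j : ℕ} : OQ.wk (.sc w j t) ∈ ustates m ↔ j ≤ m := by
  constructor
  · rintro ((h | ⟨t, h⟩) | ⟨⟨v, j'⟩, ⟨_, hj⟩, h⟩)
    · simp [fixedStates] at h
    · simp at h
    · rcases v with (⟨_, _⟩ | ⟨_, _⟩) | (_ | ⟨_, _⟩) <;> simp [parState] at h
      obtain ⟨_, rfl, _⟩ := h
      exact hj
  · intro h
    exact mem_u_par m (.inr (.inr (w, t))) h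

theorem ustates_finite : (ustates m).Finite := by
  unfold ustates
  refine (Set.Finite.union (by unfold fixedStates; exact Set.toFinite _)
    (Set.finite_range _)).union (Set.Finite.image _ ?_)
  exact Set.finite_univ.prod (Set.finite_Iic _)

theorem ustates_ncard : (ustates m).ncard ≤ 28 * m + 105 := by
  have c1 : (Set.Iic m).ncard = m + 1 := by simp [Set.ncard_eq_toFinset_card']
  have i1 : fixedStates.ncard ≤ 13 := by
    unfold fixedStates
    refine (Set.ncard_insert_le _ _).trans (Nat.succ_le_succ ?_)
    refine (Set.ncard_insert_le _ _).trans (Nat.succ_le_succ ?_)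
    refine (Set.ncard_insert_le _ _).trans (Nat.succ_le_succ ?_)
    refine (Set.ncard_insert_le _ _).trans (Nat.succ_le_succ ?_)
    refine (Set.ncard_insert_le _ _).trans (Nat.succ_le_succ ?_)
    refine (Set.ncard_insert_le _ _).trans (Nat.succ_le_succ ?_)
    refine (Set.ncard_insert_le _ _).trans (Nat.succ_le_succ ?_)
    refine (Set.ncard_insert_le _ _).trans (Nat.succ_le_succ ?_)
    refine (Set.ncard_insert_le _ _).trans (Nat.succ_le_succ ?_)
    refine (Set.ncard_insert_le _ _).trans (Nat.succ_le_succ ?_)
    refine (Set.ncard_insert_le _ _).trans (Nat.succ_le_succ ?_)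
    refine (Set.ncard_insert_le _ _).trans (Nat.succ_le_succ ?_)
    rw [Set.ncard_singleton]
  have i2 : (Set.range fun t : Tile => (OQ.wk (.h1 t) : OQ RS LW)).ncard ≤ 64 := by
    rw [← Set.image_univ]
    refine (Set.ncard_image_le Set.finite_univ).trans ?_
    rw [Set.ncard_univ, Nat.card_eq_fintype_card]
    decide
  have i3 : ((fun x : (((Bool × Bool) ⊕ (Bool × Bool)) ⊕ (Bool ⊕ (Bool × Tag))) × ℕ =>
      parState x.1 x.2) '' (Set.univ ×ˢ Set.Iic m)).ncard ≤ 28 * (m + 1) := by
    refine (Set.ncard_image_le (Set.finite_univ.prod (Set.finite_Iic _))).trans ?_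
    rw [Set.ncard_prod, c1, Set.ncard_univ, Nat.card_eq_fintype_card]
    exact le_of_eq (by rfl)
  unfold ustates
  refine (Set.ncard_union_le _ _).trans ?_
  have := Set.ncard_union_le fixedStates (Set.range fun t : Tile => (OQ.wk (.h1 t) : OQ RS LW))
  omega

theorem ustates_closed (hm : 1 ≤ m) : ∀ q ∈ ustates m, ∀ s, ∀ x ∈ (cm m).mach.δ q s,
    x.1 ∈ ustates m := by
  have hmod : ∀ a : ℕ, a % m ≤ m := fun a => (Nat.mod_lt a hm).le
  have hmod' : ∀ a : ℕ, a % (m + 1) ≤ m := fun a => Nat.lt_succ_iff.1 (Nat.mod_lt a (Nat.succ_pos m))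
  have hmd : ∀ (a : ℕ) (w : Bool), a % md m w ≤ m := by
    intro a w
    cases w
    · exact hmod a
    · exact hmod' a
  have hout : ∀ (t : Tag) (a : ℕ) (x : RS), a ≤ m → out t a = some x → OQ.fr x ∈ ustates m := by
    intro t a x ha h
    cases t with
    | t1 s =>
      simp only [out] at h
      split_ifs at h <;> simp only [Option.some.injEq] at h <;> subst h <;>
        exact mem_u_fixed m (by simp [fixedStates])
    | t2 s =>
      simp only [out] at h
      split_ifs at h
      simp only [Option.some.injEq] at h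
      subst h
      exact mem_u_fixed m (by simp [fixedStates])
    | t3 c p =>
      simp only [out, Option.some.injEq] at h
      subst h
      exact (mem_u_info m).2 ha
    | t4 =>
      simp only [out] at h
      split_ifs at h
      simp only [Option.some.injEq] at h
      subst h
      exact mem_u_fixed m (by simp [fixedStates])
  -- walkers
  have hst : ∀ (y : LW) (t k : Tile) (z : LW ⊕ RS), OQ.wk y ∈ ustates m → st m y t k = some z →
      (match z with | .inl y' => OQ.wk y' | .inr x => OQ.fr x) ∈ ustates m := by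
    intro y t k z hy h
    cases y with
    | a0 =>
      simp only [st, Option.some.injEq] at h
      subst h
      exact (mem_u_sc m).2 (hmod _)
    | b0 =>
      simp only [st, Option.some.injEq] at h
      subst h
      exact (mem_u_sc m).2 (hmod' _)
    | h0 =>
      simp only [st, Option.some.injEq] at h
      subst h
      exact mem_u_h1 m _
    | h1 s =>
      simp only [st] at h
      split_ifs at h
      simp only [Option.some.injEq] at h
      subst h
      exact mem_u_fixed m (by simp [fixedStates])
    | sc w a tg =>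
      simp only [st] at h
      split_ifs at h
      · simp only [Option.map_eq_some_iff] at h
        obtain ⟨x, hx, rfl⟩ := h
        exact hout tg a x ((mem_u_sc m).1 hy) hx
      · simp only [Option.some.injEq] at h
        subst h
        exact (mem_u_sc m).2 (hmd _ _)
    | fe a r =>
      simp only [st] at h
      split_ifs at h <;> simp only [Option.some.injEq] at h <;> subst h
      · exact (mem_u_info m).2 (Nat.zero_le _)
      · exact (mem_u_sc m).2 (hmod' _)
      · exact (mem_u_fe m).2 (hmod _)
      · exact (mem_u_fe m).2 (hmod _)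
    | m0 c p j =>
      simp only [st] at h
      split_ifs at h <;> simp only [Option.some.injEq] at h <;> subst h
      · exact mem_u_fixed m (by simp [fixedStates])
      · exact (mem_u_sc m).2 (hmod' _)
    | fin0 =>
      simp only [st] at h
      split_ifs at h
      simp only [Option.some.injEq] at h
      subst h
      exact mem_u_fixed m (by simp [fixedStates])
  have hen : ∀ (y : LW) (x : RS), en y = some x → OQ.fr x ∈ ustates m := by
    intro y x h
    cases y with
    | sc w a tg =>
      cases tg with
      | t1 s =>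
        simp only [en] at h
        split_ifs at h
        simp only [Option.some.injEq] at h
        subst h
        exact mem_u_fixed m (by simp [fixedStates])
      | t2 s => simp [en] at h
      | t3 c p => simp [en] at h
      | t4 => simp [en] at h
    | h1 s =>
      simp only [en] at h
      split_ifs at h
      simp only [Option.some.injEq] at h
      subst h
      exact mem_u_fixed m (by simp [fixedStates])
    | fe a r =>
      simp only [en, Option.some.injEq] at h
      subst h
      exact mem_u_fixed m (by simp [fixedStates])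
    | fin0 =>
      simp only [en, Option.some.injEq] at h
      subst h
      exact mem_u_fixed m (by simp [fixedStates])
    | a0 => simp [en] at h
    | b0 => simp [en] at h
    | h0 => simp [en] at h
    | m0 c p j => simp [en] at h
  rintro q hq s x ⟨k, hk⟩
  rcases q with x' | y | _
  · -- frontier states
    rcases s with ⟨⟩ | g | _ | _
    · rcases x' with _ | _ | b | _ | _ | ⟨c, p, j⟩ | _ | _
      · simp only [OT.tr, cm, Option.some.injEq] at hk
        subst hk
        exact mem_u_fixed m (by simp [fixedStates])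
      · simp only [OT.tr, cm, Option.some.injEq] at hk
        subst hk
        exact mem_u_fixed m (by simp [fixedStates])
      · cases b
        · simp only [OT.tr, cm, Option.some.injEq] at hk
          subst hk
          exact mem_u_fixed m (by simp [fixedStates])
        · simp only [OT.tr, cm, Option.some.injEq] at hk
          subst hk
          exact mem_u_fixed m (by simp [fixedStates])
      · simp only [OT.tr, cm, Option.some.injEq] at hk
        subst hk
        exact mem_u_fixed m (by simp [fixedStates])
      · simp only [OT.tr, cm, Option.some.injEq] at hk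
        subst hk
        exact (mem_u_fe m).2 (Nat.zero_le _)
      · simp only [OT.tr, cm, Option.some.injEq] at hk
        subst hk
        exact (mem_u_m0 m).2 ((mem_u_info m).1 hq)
      · simp only [OT.tr, cm, Option.some.injEq] at hk
        subst hk
        exact mem_u_fixed m (by simp [fixedStates])
      · simp [OT.tr, cm] at hk
    · simp only [OT.tr, Option.some.injEq] at hk
      subst hk
      exact hq
    · simp [OT.tr] at hk
    · rcases x' with _ | _ | b | _ | _ | ⟨c, p, j⟩ | _ | _ <;>
        simp only [OT.tr, cm, Option.some.injEq] at hk <;> subst hk <;>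
        exact mem_u_fixed m (by simp [fixedStates])
  · -- walkers
    rcases s with ⟨⟩ | g | _ | _
    · simp [OT.tr] at hk
    · rcases g with _ | t
      · simp only [OT.tr, cm, Option.some.injEq] at hk
        subst hk
        exact hq
      · simp only [OT.tr, cm] at hk
        split at hk
        · simp at hk
        · rename_i y' hy'
          simp only [Option.some.injEq] at hk
          subst hk
          exact hst y t k (.inl y') hq hy'
        · rename_i x' hx'
          simp only [Option.some.injEq] at hk
          subst hk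
          exact hst y t k (.inr x') hq hx'
    · simp only [OT.tr, cm] at hk
      split at hk
      · simp at hk
      · simp at hk
      · rename_i x' hx'
        simp only [Option.map_eq_some_iff, Sum.inr.injEq] at hx'
        obtain ⟨a, ha, rfl⟩ := hx'
        simp only [Option.some.injEq] at hk
        subst hk
        exact hen y a ha
    · simp [OT.tr] at hk
  · simp [OT.tr] at hk

/-- apart from the first visit in state `T`, only the field `c` of the choice matters -/
theorem tr_choice (q : OQ RS LW) (s : Sym Unit (Option Tile)) (k : Tile)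
    (h : ¬ (q = .fr .T ∧ s = .inp ())) :
    (cm m).tr q s k = (cm m).tr q s (if k.c then kp else kg) := by
  have hst : ∀ (y : LW) (t : Tile), st m y t k = st m y t (if k.c then kp else kg) := by
    intro y t
    cases y <;> try rfl
    rename_i a r
    cases hc : k.c
    · simp [st, hc, kg]
    · simp [st, hc, kp]
  rcases q with x | y | _
  · rcases s with ⟨⟩ | g | _ | _
    · cases x
      · exact absurd ⟨rfl, rfl⟩ h
      · rfl
      · rename_i b; cases b <;> rfl
      · rfl
      · rfl
      · rfl
      · rfl
      · rfl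
    · rfl
    · rfl
    · rfl
  · rcases s with ⟨⟩ | g | _ | _
    · rfl
    · rcases g with _ | t
      · rfl
      · simp only [OT.tr, cm]
        rw [← hst]
    · rfl
    · rfl
  · rfl

theorem card_tile : Nat.card Tile = 64 := by
  rw [Nat.card_eq_fintype_card]
  decide

/-- **The counter machine has linear size.** -/
theorem exists_unary (hm : 1 ≤ m) :
    ∃ M : LA Unit, (∀ cv, M.toMach.lang cv = (cm m).mach.lang cv) ∧
      M.toMach.size ≤ 19068 * m + 71896 := by
  have hI : (cm m).mach.qI ∈ ustates m := mem_u_fixed m (by simp [fixedStates, cm])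
  let M' : Mach Unit := (cm m).mach.restrict (ustates m) hI
  have fQ : Finite M'.Q := (ustates_finite m).to_subtype
  have fW : Finite M'.W := inferInstanceAs (Finite (Option Tile))
  refine ⟨⟨M', fQ, fW⟩, fun cv => Mach.restrict_lang _ cv _ hI (ustates_closed m hm), ?_⟩
  show M'.size ≤ _
  have hA : Nat.card Unit = 1 := by simp
  have hS : Nat.card (Sym Unit M'.W) = 68 := by
    have : Nat.card (Sym Unit (Option Tile)) = 68 := by
      rw [card_sym, Finite.card_option, card_tile, hA]
    exact this
  have hQ : Nat.card M'.Q = (ustates m).ncard := rfl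
  have hF : M'.F.ncard ≤ 1 := by
    refine (Set.ncard_le_one (Set.toFinite _)).2 ?_
    intro a ha b hb
    have h1 : a.1 = OQ.done := ha
    have h2 : b.1 = OQ.done := hb
    exact Subtype.ext (h1.trans h2.symm)
  have fS : Finite (Sym Unit M'.W) := inferInstanceAs (Finite (Sym Unit (Option Tile)))
  have fT : Finite Tile := inferInstance
  have hT : Nat.card {t : (M'.Q × Sym Unit M'.W) × (M'.Q × (Unit ⊕ M'.W) × Bool) //
      t.2 ∈ M'.δ t.1.1 t.1.2} ≤ Nat.card (((M'.Q × Sym Unit M'.W) × Bool) ⊕ Tile) := by
    classical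
    -- the choice made by a transition
    have hch : ∀ t : {t : (M'.Q × Sym Unit M'.W) × (M'.Q × (Unit ⊕ M'.W) × Bool) //
        t.2 ∈ M'.δ t.1.1 t.1.2}, ∃ k : Tile,
        (cm m).tr t.1.1.1.1 t.1.1.2 k = some (t.1.2.1.1, t.1.2.2) := fun t => t.2
    choose ch hch' using hch
    refine Nat.card_le_card_of_injective (fun t =>
      if t.1.1.1.1 = OQ.fr .T ∧ t.1.1.2 = Sym.inp () then Sum.inr (ch t)
      else Sum.inl (t.1.1, (ch t).c)) ?_
    intro t t' heq
    have h1 := hch' t
    have h2 := hch' t'
    have fin : t.1.1 = t'.1.1 → (t.1.2.1.1, t.1.2.2) = (t'.1.2.1.1, t'.1.2.2) → t = t' := by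
      intro e1 e2
      apply Subtype.ext
      obtain ⟨e3, e4⟩ := Prod.mk.inj e2
      exact Prod.ext e1 (Prod.ext (Subtype.ext e3) e4)
    simp only at heq
    by_cases c1 : t.1.1.1.1 = OQ.fr .T ∧ t.1.1.2 = Sym.inp ()
    · by_cases c2 : t'.1.1.1.1 = OQ.fr .T ∧ t'.1.1.2 = Sym.inp ()
      · rw [if_pos c1, if_pos c2] at heq
        have e := Sum.inr.inj heq
        refine fin (Prod.ext (Subtype.ext (c1.1.trans c2.1.symm)) (c1.2.trans c2.2.symm)) ?_
        rw [c1.1, c1.2] at h1
        rw [c2.1, c2.2, ← e, h1] at h2
        exact Option.some.inj h2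
      · rw [if_pos c1, if_neg c2] at heq
        simp at heq
    · by_cases c2 : t'.1.1.1.1 = OQ.fr .T ∧ t'.1.1.2 = Sym.inp ()
      · rw [if_neg c1, if_pos c2] at heq
        simp at heq
      · rw [if_neg c1, if_neg c2] at heq
        have e := Sum.inl.inj heq
        obtain ⟨e1, e2⟩ := Prod.mk.inj e
        refine fin e1 ?_
        rw [tr_choice m _ _ _ c1] at h1
        rw [tr_choice m _ _ _ c2, ← e1, ← e2, h1] at h2
        exact Option.some.inj h2
  have fB : Finite ((M'.Q × Sym Unit M'.W) × Bool) := inferInstance
  rw [Nat.card_sum, Nat.card_prod, Nat.card_prod, hS, card_tile] at hT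
  have hB : Nat.card Bool = 2 := by simp
  rw [hB] at hT
  have hK := ustates_ncard m
  unfold Mach.size
  rw [hA, hS]
  rw [hQ] at hT ⊢
  omega

end Pool.Agent.P0036f5v4
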