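import Pool.Agent.Lib.P0036f5v4.UDes

/-!
# The counter machine: its frontier configurations
-/

set_option autoImplicit false

namespace Pool.Agent.P0036f5v4

open Relation Pool.Agent.P0036f5v2

variable (m : ℕ)

theorem exists_step1_inl {X : List (Option Tile)} {y y' : LW} {t : Tile} {x : RS}
    (h : ∀ k, st m y t k = some (.inl y')) : (∃ k, Step1 m X y t k x) ↔ x ∈ (cm m).Res X y' :=
  ⟨fun ⟨k, hk⟩ => (step1_inl m (h k)).1 hk, fun hx => ⟨kg, (step1_inl m (h kg)).2 hx⟩⟩

theorem exists_step1_inr {X : List (Option Tile)} {y : LW} {t : Tile} {x x' : RS}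
    (h : ∀ k, st m y t k = some (.inr x')) : (∃ k, Step1 m X y t k x) ↔ x = x' :=
  ⟨fun ⟨k, hk⟩ => (step1_inr m (h k)).1 hk, fun hx => ⟨kg, (step1_inr m (h kg)).2 hx⟩⟩

theorem exists_step1_none {X : List (Option Tile)} {y : LW} {t : Tile} {x : RS}
    (h : ∀ k, st m y t k = none) : ¬ ∃ k, Step1 m X y t k x :=
  fun ⟨k, hk⟩ => step1_none m (h k) hk

theorem mod_aux (a κ : ℕ) : (1 % a + κ) % a = (κ + 1) % a := by
  rw [Nat.mod_add_mod, Nat.add_comm]

theorem sweepA {f : ℕ → Tile} {κ : ℕ} (hm : 0 < m) (hf : Marks m f κ) (x : RS) :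
    x ∈ (cm m).Res (some (f κ) :: fl f κ) .a0 ↔
      (κ = 0 ∧ (f κ).S = true ∧ x = .c2 false) ∨ (1 ≤ κ ∧ κ % m = 0 ∧ x = .c2 true) ∨
        (1 ≤ κ ∧ κ % m ≠ 0 ∧ (f κ).S = false ∧ x = .c2 false) := by
  rw [res_some', exists_step1_inl m (y' := .sc false (1 % m) (.t1 (f κ).S)) (fun _ => rfl)]
  rcases κ with _ | κ
  · simp only [fl]
    rw [res_nil]
    simp only [en]
    cases (f 0).S
    · simp
    · simp [eq_comm]
  · rw [res_sc m false _ x (by simpa [md] using hm) κ (1 % m) hf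
      (by simpa [md] using Nat.mod_lt _ hm)]
    simp only [md, Bool.false_eq_true, if_false, mod_aux, out]
    by_cases h0 : (κ + 1) % m = 0
    · rw [if_pos h0, Option.some.injEq]
      constructor
      · intro h
        exact Or.inr (Or.inl ⟨by omega, h0, h.symm⟩)
      · rintro (⟨h, _⟩ | ⟨_, _, h⟩ | ⟨_, h, _⟩)
        · omega
        · exact h.symm
        · exact absurd h0 h
    · rw [if_neg h0]
      cases hS : (f (κ + 1)).S
      · simp only [Bool.false_eq_true, if_false, Option.some.injEq]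
        constructor
        · intro h
          exact Or.inr (Or.inr ⟨by omega, h0, trivial, h.symm⟩)
        · rintro (⟨h, _⟩ | ⟨_, h, _⟩ | ⟨_, _, _, h⟩)
          · omega
          · exact absurd h h0
          · exact h.symm
      · simp only [if_true]
        constructor
        · intro h
          simp at h
        · rintro (⟨h, _⟩ | ⟨_, h, _⟩ | ⟨_, _, h, _⟩)
          · omega
          · exact absurd h h0
          · simp at h

theorem sweepB {f : ℕ → Tile} {κ : ℕ} (hf : Marks m f κ) (hκ : 1 ≤ κ) (x : RS) :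
    x ∈ (cm m).Res (some (f κ) :: fl f κ) .b0 ↔
      (f κ).S = decide (κ % (m + 1) = 0) ∧ x = .c3 := by
  rw [res_some', exists_step1_inl m (y' := .sc true (1 % (m + 1)) (.t2 (f κ).S)) (fun _ => rfl)]
  obtain ⟨κ, rfl⟩ := Nat.exists_eq_succ_of_ne_zero (show κ ≠ 0 by omega)
  rw [Nat.succ_eq_add_one, res_sc m true _ x (by simp [md]) κ (1 % (m + 1)) hf
      (by simpa [md] using Nat.mod_lt 1 (Nat.succ_pos m))]
  simp only [md, if_true, mod_aux, out]
  by_cases h0 : (f (κ + 1)).S = decide ((κ + 1) % (m + 1) = 0)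
  · rw [if_pos h0, Option.some.injEq]
    exact ⟨fun h => ⟨h0, h.symm⟩, fun h => h.2.symm⟩
  · rw [if_neg h0]
    exact ⟨fun h => absurd h (by simp), fun h => absurd h.1 h0⟩

/-- the local condition at the tile `κ` -/
def Hc (f : ℕ → Tile) : ℕ → Bool
  | 0 => hE (f 0)
  | κ + 1 => hP (f (κ + 1)) (f κ)

theorem sweepH {f : ℕ → Tile} {κ : ℕ} (x : RS) :
    x ∈ (cm m).Res (some (f κ) :: fl f κ) .h0 ↔ Hc f κ = true ∧ x = .c4 := by
  rw [res_some', exists_step1_inl m (y' := .h1 (f κ)) (fun _ => rfl)]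
  rcases κ with _ | κ
  · simp only [fl]
    rw [res_nil]
    simp only [en, Hc]
    by_cases h : hE (f 0) = true
    · simp [h, eq_comm]
    · simp [h]
  · rw [res_fl_succ, res_some']
    by_cases h : hP (f (κ + 1)) (f κ) = true
    · rw [exists_step1_inr m (x' := .c4) (fun _ => by simp [st, h])]
      simp [Hc, h]
    · constructor
      · intro h'
        exact absurd h' (exists_step1_none m (fun _ => by simp [st, h]))
      · rintro ⟨h', _⟩
        exact absurd h' h

theorem sweepF {f : ℕ → Tile} {κ : ℕ} (hm : 0 < m) (hf : Marks m f (κ + 1)) (x : RS) :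
    x ∈ (cm m).Res (some (f κ) :: fl f κ) (.fe 0 false) ↔
      (∃ i ≤ κ, (κ - i) % m = 0 ∧ i / (m * (m + 1)) + 1 = κ / (m * (m + 1)) ∧
        x = .info (f i).c (f i).p (i % (m + 1))) ∨ (x = .vok ∧ κ / (m * (m + 1)) = 0) := by
  rw [← res_fl_succ, res_fe m x hm κ 0 false hf hm]
  simp

theorem mod_neg_aux (M n j : ℕ) (hj : j < M) :
    ((M + 1 - j) % M + n) % M = 0 ↔ (n + 1) % M = j := by
  have hM : 0 < M := by omega
  rw [Nat.mod_add_mod]
  have hr := Nat.mod_lt (n + 1) hM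
  have h1 : M + 1 - j + n = (n + 1) + (M - j) := by omega
  rw [h1, Nat.add_mod]
  set r := (n + 1) % M
  rcases Nat.eq_zero_or_pos j with h0 | h0
  · subst h0
    rw [Nat.sub_zero, Nat.mod_self, Nat.add_zero, Nat.mod_eq_of_lt hr]
  · rw [Nat.mod_eq_of_lt (show M - j < M by omega)]
    constructor
    · intro h
      rcases Nat.lt_or_ge (r + (M - j)) M with h2 | h2
      · rw [Nat.mod_eq_of_lt h2] at h
        omega
      · rw [Nat.mod_eq_sub_mod h2, Nat.mod_eq_of_lt (by omega)] at h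
        omega
    · intro h
      rw [h, show j + (M - j) = M by omega, Nat.mod_self]

theorem sweepM {f : ℕ → Tile} {κ : ℕ} (hf : Marks m f (κ + 1)) (c p : Bool) (j : ℕ)
    (hj : j < m + 1) (x : RS) :
    x ∈ (cm m).Res (some (f κ) :: fl f κ) (.m0 c p j) ↔
      vP (f κ) c p = true ∧ κ % (m + 1) = j ∧ x = .T := by
  rw [res_some']
  by_cases hv : vP (f κ) c p = true
  · by_cases hS : (f κ).S = true
    · have h0 := md_dvd m hf (by omega) hS true
      simp only [md, if_true] at h0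
      by_cases hj0 : j = 0
      · rw [exists_step1_inr m (x' := .T) (fun _ => by simp [st, hv, hS, hj0])]
        simp [hv, h0, hj0]
      · constructor
        · intro h'
          exact absurd h' (exists_step1_none m (fun _ => by simp [st, hv, hS, hj0]))
        · rintro ⟨_, h', _⟩
          omega
    · have hn : κ ≠ 0 := by
        rintro rfl
        exact hS ((hf 0 (by omega)).2 ⟨Nat.zero_mod _, Nat.zero_mod _⟩)
      obtain ⟨κ, rfl⟩ := Nat.exists_eq_succ_of_ne_zero hn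
      rw [exists_step1_inl m (y' := .sc true ((m + 2 - j) % (m + 1)) .t4)
        (fun _ => by simp [st, hv, hS]), Nat.succ_eq_add_one,
        res_sc m true _ x (by simp [md]) κ _ (fun i hi => hf i (by omega))
        (by simpa [md] using Nat.mod_lt (m + 2 - j) (Nat.succ_pos m))]
      simp only [md, if_true, out]
      have h2 := mod_neg_aux (m + 1) κ j hj
      rw [show m + 1 + 1 - j = m + 2 - j by omega] at h2
      by_cases h3 : (κ + 1) % (m + 1) = j
      · rw [if_pos (h2.2 h3), Option.some.injEq]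
        exact ⟨fun h => ⟨hv, h3, h.symm⟩, fun h => h.2.2.symm⟩
      · rw [if_neg (fun h => h3 (h2.1 h))]
        exact ⟨fun h => absurd h (by simp), fun h => absurd h.2.1 h3⟩
  · constructor
    · intro h'
      exact absurd h' (exists_step1_none m (fun _ => by simp [st, hv]))
    · rintro ⟨h', _⟩
      exact absurd h' hv

/-! ### Frontier configurations -/

/-- row starts -/
def OkS (f : ℕ → Tile) (κ : ℕ) : Prop := (f κ).S = true ↔ κ % m = 0 ∧ κ % (m + 1) = 0

/-- vertical condition -/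
def OkV (f : ℕ → Tile) (κ : ℕ) : Prop :=
  m * (m + 1) ≤ κ → vP (f κ) (f (κ - m * (m + 1))).c (f (κ - m * (m + 1))).p = true

/-- the first `n` tiles satisfy all conditions -/
def Good (f : ℕ → Tile) (n : ℕ) : Prop :=
  ∀ κ < n, OkS m f κ ∧ Hc f κ = true ∧ OkV m f κ

theorem fl_congr {f g : ℕ → Tile} : ∀ {n : ℕ}, (∀ i < n, f i = g i) → fl f n = fl g n := by
  intro n
  induction n with
  | zero => intro _; rfl
  | succ n ih =>
    intro h
    simp only [fl]
    rw [ih fun i hi => h i (by omega), h n (by omega)]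

theorem good_congr {f g : ℕ → Tile} {n : ℕ} (h : ∀ i < n, f i = g i) (hf : Good m f n) :
    Good m g n := by
  intro κ hκ
  obtain ⟨h1, h2, h3⟩ := hf κ hκ
  refine ⟨?_, ?_, ?_⟩
  · unfold OkS at h1 ⊢
    rw [← h κ hκ]
    exact h1
  · rcases κ with _ | κ
    · simp only [Hc] at h2 ⊢
      rw [← h 0 hκ]
      exact h2
    · simp only [Hc] at h2 ⊢
      rw [← h _ hκ, ← h κ (by omega)]
      exact h2
  · unfold OkV at h3 ⊢
    rw [← h κ hκ, ← h (κ - m * (m + 1)) (by omega)]
    exact h3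

theorem Good.marks {f : ℕ → Tile} {n : ℕ} (hf : Good m f n) : Marks m f n :=
  fun i hi => (hf i hi).1

/-- the unique tile one row above -/
theorem vert_iff {f : ℕ → Tile} {κ : ℕ} (hm : 0 < m) :
    (∃ i ≤ κ, (κ - i) % m = 0 ∧ i / (m * (m + 1)) + 1 = κ / (m * (m + 1)) ∧
      vP (f κ) (f i).c (f i).p = true ∧ κ % (m + 1) = i % (m + 1)) ↔
    m * (m + 1) ≤ κ ∧ vP (f κ) (f (κ - m * (m + 1))).c (f (κ - m * (m + 1))).p = true := by
  have hW : 0 < m * (m + 1) := Nat.mul_pos hm (by omega)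
  constructor
  · rintro ⟨i, hi, h1, h2, h3, h4⟩
    have h5 : (κ - i) % (m + 1) = 0 := (Nat.sub_mod_eq_zero_of_mod_eq h4)
    have h6 : (κ - i) % (m * (m + 1)) = 0 := (marks_iff m _).1 ⟨h1, h5⟩
    have h7 := Nat.div_add_mod κ (m * (m + 1))
    have h8 := Nat.div_add_mod i (m * (m + 1))
    have h9 := Nat.mod_lt κ hW
    have h10 := Nat.mod_lt i hW
    have h11 : m * (m + 1) * (κ / (m * (m + 1))) =
        m * (m + 1) * (i / (m * (m + 1))) + m * (m + 1) := by
      rw [← h2, Nat.mul_add, Nat.mul_one]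
    obtain ⟨d, hd⟩ := Nat.dvd_of_mod_eq_zero h6
    have h12 : d = 1 := by
      have h13 : 0 < κ - i := by
        rcases Nat.eq_or_lt_of_le hi with h | h
        · rw [h] at h2
          omega
        · omega
      have h14 : κ - i < m * (m + 1) * 2 := by omega
      rw [hd] at h13 h14
      have h15 := Nat.lt_of_mul_lt_mul_left h14
      have h16 : d ≠ 0 := by
        rintro rfl
        simp at h13
      omega
    rw [h12, Nat.mul_one] at hd
    have h13 : κ - m * (m + 1) = i := by omega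
    refine ⟨by omega, ?_⟩
    rw [h13]
    exact h3
  · rintro ⟨h1, h2⟩
    refine ⟨κ - m * (m + 1), Nat.sub_le _ _, ?_, ?_, h2, ?_⟩
    · rw [show κ - (κ - m * (m + 1)) = m * (m + 1) by omega, Nat.mul_mod_right]
    · obtain ⟨q, rfl⟩ := Nat.exists_eq_add_of_le h1
      rw [Nat.add_sub_cancel_left, Nat.add_div_left _ hW]
    · obtain ⟨q, rfl⟩ := Nat.exists_eq_add_of_le h1
      rw [Nat.add_sub_cancel_left, Nat.add_comm, Nat.add_mul_mod_self_right]

theorem fr1 (n : ℕ) (ih : ∀ Y r, (Y, r) ∈ (cm m).Fr (6 * n) ↔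
      r = .T ∧ ∃ f, Good m f n ∧ Y = fl f n) (Y : List (Option Tile)) (r : RS) :
    (Y, r) ∈ (cm m).Fr (6 * n + 1) ↔
      r = .c1 ∧ ∃ f, Good m f n ∧ Y = some (f n) :: fl f n := by
  constructor
  · rintro ⟨X, x, k, g, hX, hY, h⟩
    obtain ⟨rfl, f, hf, rfl⟩ := (ih X x).1 hX
    simp only at hY h
    rcases h with h | ⟨y, h, _⟩
    · simp only [cm, Option.some.injEq, Prod.mk.injEq, Sum.inl.injEq] at h
      obtain ⟨rfl, rfl⟩ := h
      have hu : ∀ i < n, f i = Function.update f n k i := fun i hi => by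
        rw [Function.update_of_ne (by omega)]
      refine ⟨rfl, Function.update f n k, good_congr m hu hf, ?_⟩
      rw [hY, Function.update_self, fl_congr hu]
    · simp [cm] at h
  · rintro ⟨rfl, f, hf, rfl⟩
    exact ⟨fl f n, .T, f n, some (f n), (ih _ _).2 ⟨rfl, f, hf, rfl⟩, rfl, Or.inl rfl⟩

theorem fr2 (hm : 0 < m) (n : ℕ) (ih : ∀ Y r, (Y, r) ∈ (cm m).Fr (6 * n + 1) ↔
      r = .c1 ∧ ∃ f, Good m f n ∧ Y = some (f n) :: fl f n) (Y : List (Option Tile)) (r : RS) :
    (Y, r) ∈ (cm m).Fr (6 * n + 2) ↔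
      ∃ f, Good m f n ∧ Y = none :: some (f n) :: fl f n ∧
        ((n = 0 ∧ (f n).S = true ∧ r = .c2 false) ∨ (1 ≤ n ∧ n % m = 0 ∧ r = .c2 true) ∨
        (1 ≤ n ∧ n % m ≠ 0 ∧ (f n).S = false ∧ r = .c2 false)) := by
  constructor
  · rintro ⟨X, x, k, g, hX, hY, h⟩
    obtain ⟨rfl, f, hf, rfl⟩ := (ih X x).1 hX
    simp only at hY h
    rcases h with h | ⟨y, h, hr⟩
    · simp [cm] at h
    · simp only [cm, Option.some.injEq, Prod.mk.injEq, Sum.inr.injEq] at h
      obtain ⟨rfl, rfl⟩ := h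
      exact ⟨f, hf, hY, (sweepA m hm (hf.marks m) r).1 hr⟩
  · rintro ⟨f, hf, rfl, h⟩
    exact ⟨_, .c1, kg, none, (ih _ _).2 ⟨rfl, f, hf, rfl⟩, rfl,
      Or.inr ⟨.a0, rfl, (sweepA m hm (hf.marks m) r).2 h⟩⟩

theorem fr3 (hm : 0 < m) (n : ℕ) (ih : ∀ Y r, (Y, r) ∈ (cm m).Fr (6 * n + 2) ↔
      ∃ f, Good m f n ∧ Y = none :: some (f n) :: fl f n ∧
        ((n = 0 ∧ (f n).S = true ∧ r = .c2 false) ∨ (1 ≤ n ∧ n % m = 0 ∧ r = .c2 true) ∨
        (1 ≤ n ∧ n % m ≠ 0 ∧ (f n).S = false ∧ r = .c2 false)))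
      (Y : List (Option Tile)) (r : RS) :
    (Y, r) ∈ (cm m).Fr (6 * n + 3) ↔
      r = .c3 ∧ ∃ f, Good m f n ∧ OkS m f n ∧ Y = none :: none :: some (f n) :: fl f n := by
  have hm0 : (0 : ℕ) % m = 0 := Nat.zero_mod _
  constructor
  · rintro ⟨X, x, k, g, hX, hY, h⟩
    obtain ⟨f, hf, rfl, hx⟩ := (ih X x).1 hX
    simp only at hY h
    rcases hx with ⟨h0, hS, rfl⟩ | ⟨h1, h2, rfl⟩ | ⟨h1, h2, h3, rfl⟩
    · rcases h with h | ⟨y, h, hr⟩
      · simp only [cm, Option.some.injEq, Prod.mk.injEq, Sum.inl.injEq] at h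
        obtain ⟨rfl, rfl⟩ := h
        refine ⟨rfl, f, hf, ?_, hY⟩
        subst h0
        exact ⟨fun _ => ⟨hm0, Nat.zero_mod _⟩, fun _ => hS⟩
      · simp [cm] at h
    · rcases h with h | ⟨y, h, hr⟩
      · simp [cm] at h
      · simp only [cm, Option.some.injEq, Prod.mk.injEq, Sum.inr.injEq] at h
        obtain ⟨rfl, rfl⟩ := h
        rw [res_none] at hr
        obtain ⟨hS, rfl⟩ := (sweepB m (hf.marks m) h1 r).1 hr
        refine ⟨rfl, f, hf, ?_, hY⟩
        unfold OkS
        rw [hS]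
        simp [h2]
    · rcases h with h | ⟨y, h, hr⟩
      · simp only [cm, Option.some.injEq, Prod.mk.injEq, Sum.inl.injEq] at h
        obtain ⟨rfl, rfl⟩ := h
        refine ⟨rfl, f, hf, ?_, hY⟩
        unfold OkS
        rw [h3]
        simp [h2]
      · simp [cm] at h
  · rintro ⟨rfl, f, hf, hS, rfl⟩
    rcases Nat.eq_zero_or_pos n with h0 | h0
    · subst h0
      refine ⟨_, .c2 false, kg, none, (ih _ _).2 ⟨f, hf, rfl, Or.inl ⟨rfl, ?_, rfl⟩⟩, rfl,
        Or.inl rfl⟩
      exact hS.2 ⟨hm0, Nat.zero_mod _⟩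
    · by_cases h1 : n % m = 0
      · refine ⟨_, .c2 true, kg, none, (ih _ _).2 ⟨f, hf, rfl, Or.inr (Or.inl ⟨h0, h1, rfl⟩)⟩, rfl,
          Or.inr ⟨.b0, rfl, ?_⟩⟩
        rw [res_none]
        refine (sweepB m (hf.marks m) h0 _).2 ⟨?_, rfl⟩
        unfold OkS at hS
        by_cases h2 : n % (m + 1) = 0
        · simpa [h2] using hS.2 ⟨h1, h2⟩
        · rw [decide_eq_false h2]
          by_contra hc
          exact h2 (hS.1 (by simpa using hc)).2
      · refine ⟨_, .c2 false, kg, none, (ih _ _).2 ⟨f, hf, rfl, Or.inr (Or.inr ⟨h0, h1, ?_, rfl⟩)⟩,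
          rfl, Or.inl rfl⟩
        by_contra hc
        exact h1 (hS.1 (by simpa using hc)).1

theorem fr4 (n : ℕ) (ih : ∀ Y r, (Y, r) ∈ (cm m).Fr (6 * n + 3) ↔
      r = .c3 ∧ ∃ f, Good m f n ∧ OkS m f n ∧ Y = none :: none :: some (f n) :: fl f n)
      (Y : List (Option Tile)) (r : RS) :
    (Y, r) ∈ (cm m).Fr (6 * n + 4) ↔
      r = .c4 ∧ ∃ f, Good m f n ∧ OkS m f n ∧ Hc f n = true ∧
        Y = none :: none :: none :: some (f n) :: fl f n := by
  constructor
  · rintro ⟨X, x, k, g, hX, hY, h⟩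
    obtain ⟨rfl, f, hf, hS, rfl⟩ := (ih X x).1 hX
    simp only at hY h
    rcases h with h | ⟨y, h, hr⟩
    · simp [cm] at h
    · simp only [cm, Option.some.injEq, Prod.mk.injEq, Sum.inr.injEq] at h
      obtain ⟨rfl, rfl⟩ := h
      rw [res_none, res_none] at hr
      obtain ⟨hH, rfl⟩ := (sweepH m r).1 hr
      exact ⟨rfl, f, hf, hS, hH, hY⟩
  · rintro ⟨rfl, f, hf, hS, hH, rfl⟩
    refine ⟨_, .c3, kg, none, (ih _ _).2 ⟨rfl, f, hf, hS, rfl⟩, rfl, Or.inr ⟨.h0, rfl, ?_⟩⟩
    rw [res_none, res_none]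
    exact (sweepH m _).2 ⟨hH, rfl⟩

theorem marks_succ {f : ℕ → Tile} {n : ℕ} (hf : Good m f n) (hS : OkS m f n) :
    Marks m f (n + 1) := by
  intro i hi
  rcases Nat.lt_or_ge i n with h | h
  · exact hf.marks m i h
  · have : i = n := by omega
    subst this
    exact hS

theorem fr5 (hm : 0 < m) (n : ℕ) (ih : ∀ Y r, (Y, r) ∈ (cm m).Fr (6 * n + 4) ↔
      r = .c4 ∧ ∃ f, Good m f n ∧ OkS m f n ∧ Hc f n = true ∧
        Y = none :: none :: none :: some (f n) :: fl f n)
      (Y : List (Option Tile)) (r : RS) :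
    (Y, r) ∈ (cm m).Fr (6 * n + 5) ↔
      ∃ f, Good m f n ∧ OkS m f n ∧ Hc f n = true ∧
        Y = none :: none :: none :: none :: some (f n) :: fl f n ∧
      ((∃ i ≤ n, (n - i) % m = 0 ∧ i / (m * (m + 1)) + 1 = n / (m * (m + 1)) ∧
        r = .info (f i).c (f i).p (i % (m + 1))) ∨ (r = .vok ∧ n / (m * (m + 1)) = 0)) := by
  constructor
  · rintro ⟨X, x, k, g, hX, hY, h⟩
    obtain ⟨rfl, f, hf, hS, hH, rfl⟩ := (ih X x).1 hX
    simp only at hY h
    rcases h with h | ⟨y, h, hr⟩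
    · simp [cm] at h
    · simp only [cm, Option.some.injEq, Prod.mk.injEq, Sum.inr.injEq] at h
      obtain ⟨rfl, rfl⟩ := h
      rw [res_none, res_none, res_none] at hr
      exact ⟨f, hf, hS, hH, hY, (sweepF m hm (marks_succ m hf hS) r).1 hr⟩
  · rintro ⟨f, hf, hS, hH, rfl, h⟩
    refine ⟨_, .c4, kg, none, (ih _ _).2 ⟨rfl, f, hf, hS, hH, rfl⟩, rfl,
      Or.inr ⟨.fe 0 false, rfl, ?_⟩⟩
    rw [res_none, res_none, res_none]
    exact (sweepF m hm (marks_succ m hf hS) r).2 h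

theorem fr6 (hm : 0 < m) (n : ℕ) (ih : ∀ Y r, (Y, r) ∈ (cm m).Fr (6 * n + 5) ↔
      ∃ f, Good m f n ∧ OkS m f n ∧ Hc f n = true ∧
        Y = none :: none :: none :: none :: some (f n) :: fl f n ∧
      ((∃ i ≤ n, (n - i) % m = 0 ∧ i / (m * (m + 1)) + 1 = n / (m * (m + 1)) ∧
        r = .info (f i).c (f i).p (i % (m + 1))) ∨ (r = .vok ∧ n / (m * (m + 1)) = 0)))
      (Y : List (Option Tile)) (r : RS) :
    (Y, r) ∈ (cm m).Fr (6 * n + 6) ↔
      r = .T ∧ ∃ f, Good m f (n + 1) ∧ Y = fl f (n + 1) := by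
  have hW : 0 < m * (m + 1) := Nat.mul_pos hm (by omega)
  constructor
  · rintro ⟨X, x, k, g, hX, hY, h⟩
    obtain ⟨f, hf, hS, hH, rfl, hx⟩ := (ih X x).1 hX
    simp only at hY h
    rcases hx with ⟨i, hi, h1, h2, rfl⟩ | ⟨rfl, h0⟩
    · rcases h with h | ⟨y, h, hr⟩
      · simp [cm] at h
      · simp only [cm, Option.some.injEq, Prod.mk.injEq, Sum.inr.injEq] at h
        obtain ⟨rfl, rfl⟩ := h
        rw [res_none, res_none, res_none, res_none] at hr
        obtain ⟨hv, hj, rfl⟩ := (sweepM m (marks_succ m hf hS) _ _ _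
          (Nat.mod_lt _ (by omega)) r).1 hr
        refine ⟨rfl, f, ?_, by rw [hY]; rfl⟩
        intro κ hκ
        rcases Nat.lt_or_ge κ n with h | h
        · exact hf κ h
        · have : κ = n := by omega
          subst this
          exact ⟨hS, hH, fun _ => ((vert_iff m hm).1 ⟨i, hi, h1, h2, hv, hj⟩).2⟩
    · rcases h with h | ⟨y, h, hr⟩
      · simp only [cm, Option.some.injEq, Prod.mk.injEq, Sum.inl.injEq] at h
        obtain ⟨rfl, rfl⟩ := h
        refine ⟨rfl, f, ?_, by rw [hY]; rfl⟩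
        intro κ hκ
        rcases Nat.lt_or_ge κ n with h | h
        · exact hf κ h
        · have : κ = n := by omega
          subst this
          refine ⟨hS, hH, fun h => ?_⟩
          have := (Nat.div_eq_zero_iff_lt hW).1 h0
          omega
      · simp [cm] at h
  · rintro ⟨rfl, f, hf, rfl⟩
    have hf' : Good m f n := fun κ hκ => hf κ (by omega)
    obtain ⟨hS, hH, hV⟩ := hf n (by omega)
    rcases Nat.lt_or_ge n (m * (m + 1)) with h | h
    · exact ⟨_, .vok, kg, none, (ih _ _).2 ⟨f, hf', hS, hH, rfl,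
        Or.inr ⟨rfl, (Nat.div_eq_zero_iff_lt hW).2 h⟩⟩, rfl, Or.inl rfl⟩
    · obtain ⟨i, hi, h1, h2, h3, h4⟩ := (vert_iff m hm).2 ⟨h, hV h⟩
      refine ⟨_, .info (f i).c (f i).p (i % (m + 1)), kg, none, (ih _ _).2 ⟨f, hf', hS, hH, rfl,
        Or.inl ⟨i, hi, h1, h2, rfl⟩⟩, rfl, Or.inr ⟨_, rfl, ?_⟩⟩
      rw [res_none, res_none, res_none, res_none]
      exact (sweepM m (marks_succ m hf' hS) _ _ _ (Nat.mod_lt _ (by omega)) _).2 ⟨h3, h4, rfl⟩

/-- **Frontier configurations after `n` records.** -/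
theorem fr_iff (hm : 0 < m) : ∀ (n : ℕ) (Y : List (Option Tile)) (r : RS),
    (Y, r) ∈ (cm m).Fr (6 * n) ↔ r = .T ∧ ∃ f, Good m f n ∧ Y = fl f n := by
  intro n
  induction n with
  | zero =>
    intro Y r
    constructor
    · intro h
      have h' : (Y, r) = ([], RS.T) := h
      simp only [Prod.mk.injEq] at h'
      obtain ⟨rfl, rfl⟩ := h'
      exact ⟨rfl, fun _ => kg, fun κ hκ => absurd hκ (by omega), rfl⟩
    · rintro ⟨rfl, f, _, rfl⟩
      rfl
  | succ n ih =>
    exact fr6 m hm n (fr5 m hm n (fr4 m n (fr3 m hm n (fr2 m hm n (fr1 m n ih)))))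

/-- inside a record the machine is in a state that accepts at the right end-marker -/
theorem fin_inner (hm : 0 < m) (n i : ℕ) (h1 : 1 ≤ i) (h5 : i ≤ 5) (Y : List (Option Tile)) (r : RS)
    (h : (Y, r) ∈ (cm m).Fr (6 * n + i)) : (cm m).fin r = some none := by
  have e1 := fr1 m n (fr_iff m hm n)
  have e2 := fr2 m hm n e1
  have e3 := fr3 m hm n e2
  have e4 := fr4 m n e3
  have e5 := fr5 m hm n e4
  interval_cases i
  · rw [e1] at h; rw [h.1]; rfl
  · rw [e2] at h
    obtain ⟨_, _, _, h⟩ := h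
    rcases h with ⟨_, _, rfl⟩ | ⟨_, _, rfl⟩ | ⟨_, _, _, rfl⟩ <;> rfl
  · rw [e3] at h; rw [h.1]; rfl
  · rw [e4] at h; rw [h.1]; rfl
  · rw [e5] at h
    obtain ⟨_, _, _, _, _, h⟩ := h
    rcases h with ⟨_, _, _, _, rfl⟩ | ⟨rfl, _⟩ <;> rfl

theorem fr_mono (O : OT RS LW (Option Tile) Tile) {n : ℕ} (h : (O.Fr (n + 1)).Nonempty) :
    (O.Fr n).Nonempty := by
  obtain ⟨_, X, x, _, _, hX, _⟩ := h
  exact ⟨_, hX⟩

theorem fr_mono' (O : OT RS LW (Option Tile) Tile) {n n' : ℕ} (hn : n ≤ n')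
    (h : (O.Fr n').Nonempty) : (O.Fr n).Nonempty := by
  induction n', hn using Nat.le_induction with
  | base => exact h
  | succ n' _ ih => exact ih (fr_mono O h)

theorem acc_T (X : List (Option Tile)) : (cm m).Acc X .T ↔ RS.fok ∈ (cm m).Res X .fin0 := by
  have hres : ∀ (X : List (Option Tile)) (x : RS), x ∈ (cm m).Res X .fin0 → x = .fok := by
    intro X
    induction X with
    | nil =>
      intro x hx
      rw [res_nil] at hx
      simp only [en, Option.some.injEq] at hx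
      exact hx.symm
    | cons g X ih =>
      intro x hx
      cases g with
      | none => rw [res_none] at hx; exact ih x hx
      | some t =>
        rw [res_some'] at hx
        obtain ⟨k, hk⟩ := hx
        by_cases hb : (t.S && t.z) = true
        · exact absurd hk (step1_none m (by simp only [st, hb, if_true]))
        · exact (step1_inr m (x' := .fok) (by simp only [st]; rw [if_neg hb])).1 hk
  constructor
  · rintro ⟨x', h, hf⟩
    rcases h.cases_head with h | ⟨c, ⟨y, hy, hc⟩, _⟩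
    · subst h
      simp [cm] at hf
    · simp only [cm, Option.some.injEq] at hy
      subst hy
      have := hres X c hc
      subst this
      exact hc
  · intro h
    exact ⟨.fok, ReflTransGen.single ⟨.fin0, rfl, h⟩, rfl⟩

/-- **The language in terms of tilings.** -/
theorem cm_lang (hm : 0 < m) (cv : Bool) (hG : ∀ n, ∃ f, Good m f n) (w : List Unit) :
    w ∈ (cm m).mach.lang cv ↔
      ¬ ∃ n, w.length = 6 * (n + 1) ∧ ∀ f, Good m f (n + 1) → (f n).S = true ∧ (f n).z = true := by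
  rw [OT.mem_lang]
  have hne : ∀ n, ((cm m).Fr n).Nonempty := by
    intro n
    obtain ⟨f, hf⟩ := hG n
    exact fr_mono' _ (show n ≤ 6 * n by omega) ⟨(fl f n, .T), (fr_iff m hm n _ _).2 ⟨rfl, f, hf, rfl⟩⟩
  obtain ⟨q, i, hi, hq⟩ : ∃ q i, i < 6 ∧ w.length = 6 * q + i :=
    ⟨w.length / 6, w.length % 6, Nat.mod_lt _ (by norm_num), by omega⟩
  rw [hq]
  by_cases hi0 : i = 0
  · subst hi0
    rw [Nat.add_zero]
    rcases Nat.eq_zero_or_pos q with h0 | h0
    · subst h0
      constructor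
      · rintro _ ⟨n, hn, _⟩
        omega
      · intro _
        obtain ⟨f, hf⟩ := hG 0
        refine ⟨fl f 0, .T, (fr_iff m hm 0 _ _).2 ⟨rfl, f, hf, rfl⟩, (acc_T m _).2 ?_⟩
        simp only [fl]
        rw [res_nil]
        rfl
    · obtain ⟨n, rfl⟩ := Nat.exists_eq_succ_of_ne_zero (show q ≠ 0 by omega)
      rw [Nat.succ_eq_add_one]
      have key : ∀ f : ℕ → Tile, RS.fok ∈ (cm m).Res (fl f (n + 1)) .fin0 ↔
          ¬ ((f n).S = true ∧ (f n).z = true) := by
        intro f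
        rw [res_fl_succ, res_some']
        by_cases hb : ((f n).S && (f n).z) = true
        · constructor
          · intro h
            exact absurd h (exists_step1_none m (fun _ => by simp only [st, hb, if_true]))
          · intro h
            exact absurd (by simpa using hb) h
        · rw [exists_step1_inr m (x' := .fok) (fun _ => by simp only [st]; rw [if_neg hb])]
          simpa using hb
      constructor
      · rintro ⟨X, x, hX, hA⟩ ⟨n', hn', hall⟩
        have : n' = n := by omega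
        subst this
        obtain ⟨rfl, f, hf, rfl⟩ := (fr_iff m hm _ _ _).1 hX
        exact (key f).1 ((acc_T m _).1 hA) (hall f hf)
      · intro h
        by_contra hcon
        apply h
        refine ⟨n, by omega, fun f hf => ?_⟩
        by_contra hSz
        exact hcon ⟨fl f (n + 1), .T, (fr_iff m hm _ _ _).2 ⟨rfl, f, hf, rfl⟩,
          (acc_T m _).2 ((key f).2 hSz)⟩
  · constructor
    · rintro _ ⟨n, hn, _⟩
      omega
    · intro _
      obtain ⟨⟨Y, r⟩, hY⟩ := hne (6 * q + i)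
      exact ⟨Y, r, hY, r, ReflTransGen.refl, fin_inner m hm q i (by omega) (by omega) Y r hY⟩

end Pool.Agent.P0036f5v4
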